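import Pool.Agent.V5helper58.HN.Core
import Pool.Agent.H951R3.PH.E1
import Pool.Agent.H951R3.PH.E5

/-!
# Places where two roots are far from the elements of small degree
-/

set_option autoImplicit false

namespace Pool.Agent.V5helper58.HN

open Real NumberField Polynomial
open Pool.Agent.H951R3 Pool.Agent.H951R3.PH

universe u

theorem exists_roots {A : Type*} [Field A] [IsAlgClosed A] {d : ℕ} (G : A[X])
    (hG : G.natDegree = d) : ∃ ρ : Fin d → A, G = C (G.coeff d) * ∏ i, (X - C (ρ i)) := by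
  have hs : G.Splits := IsAlgClosed.splits G
  have hcard : G.roots.card = d := by rw [← hs.natDegree_eq_card_roots, hG]
  obtain ⟨l, hl⟩ := Quot.exists_rep G.roots
  have hl' : (l : Multiset A) = G.roots := hl
  have hlen : l.length = d := by
    rw [← hcard, ← hl']
    rfl
  refine ⟨fun i => l.get (i.cast hlen.symm), ?_⟩
  have h1 : (∏ i : Fin d, (X - C (l.get (i.cast hlen.symm)))) =
      (G.roots.map fun a => X - C a).prod := by
    rw [← hl', Multiset.map_coe, Multiset.prod_coe]
    subst hlen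
    rw [← List.prod_ofFn]
    congr 1
    have : (fun i : Fin l.length => (X - C (l.get (i.cast rfl)) : A[X])) =
        (fun a => X - C a) ∘ l.get := rfl
    rw [this, ← List.map_ofFn, List.ofFn_get]
  have h2 := hs.eq_prod_roots
  rw [h1]
  rw [leadingCoeff, hG] at h2
  exact h2

/-- the key elementary estimate -/
theorem near_poly {A : Type*} [Field A] (w : AbsoluteValue A ℝ) {d : ℕ} {ρ : Fin d → A}
    {μ Y : ℝ} (hμ : 0 < μ) {S : Set A} (hne : S.Nonempty) (hY : Y < μ ^ d)
    (hP : ∀ s ∈ S, ∏ i, w (s - ρ i) ≤ Y)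
    (hfar : ∃ i j, i ≠ j ∧ ∀ s ∈ S, μ ≤ w (s - ρ i) ∧ μ ≤ w (s - ρ j)) :
    ∃ G : A[X], G.Monic ∧ 1 ≤ G.natDegree ∧ G.natDegree + 2 ≤ d ∧
      ∀ s ∈ S, w (G.eval s) * μ ^ (d - G.natDegree) ≤ Y := by
  classical
  set U : Finset (Fin d) := Finset.univ.filter fun i => ∃ s ∈ S, w (s - ρ i) < μ with hU
  have hdeg : (∏ i ∈ U, (X - C (ρ i))).natDegree = U.card := by
    rw [natDegree_prod_of_monic _ _ fun i _ => monic_X_sub_C _]
    simp
  have hUc : ∀ s ∈ S, ∀ i ∈ Uᶜ, μ ≤ w (s - ρ i) := by
    intro s hs i hi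
    rw [Finset.mem_compl, hU, Finset.mem_filter] at hi
    by_contra hcon
    exact hi ⟨Finset.mem_univ _, s, hs, not_le.1 hcon⟩
  have hcardle : U.card ≤ d := by
    have := Finset.card_le_univ U
    rwa [Fintype.card_fin] at this
  have hval : ∀ s ∈ S, (∏ i ∈ U, w (s - ρ i)) * μ ^ (d - U.card) ≤ Y := by
    intro s hs
    refine le_trans ?_ (hP s hs)
    rw [← Finset.prod_mul_prod_compl U]
    refine mul_le_mul_of_nonneg_left ?_ (Finset.prod_nonneg fun _ _ => w.nonneg _)
    have h1 : d - U.card = (Uᶜ).card := by rw [Finset.card_compl, Fintype.card_fin]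
    rw [h1, ← Finset.prod_const]
    exact Finset.prod_le_prod (fun _ _ => hμ.le) (hUc s hs)
  refine ⟨∏ i ∈ U, (X - C (ρ i)), monic_prod_of_monic _ _ fun i _ => monic_X_sub_C _, ?_, ?_, ?_⟩
  · rw [hdeg]
    by_contra hcon
    have h0 : U.card = 0 := by omega
    obtain ⟨s, hs⟩ := hne
    have h1 := hval s hs
    rw [Finset.card_eq_zero.1 h0] at h1
    simp only [Finset.prod_empty, one_mul, Finset.card_empty, tsub_zero] at h1
    linarith
  · rw [hdeg]
    obtain ⟨i, j, hij, hfar⟩ := hfar
    have hi : i ∉ U := by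
      rw [hU, Finset.mem_filter]
      rintro ⟨_, s, hs, h⟩
      linarith [(hfar s hs).1]
    have hj : j ∉ U := by
      rw [hU, Finset.mem_filter]
      rintro ⟨_, s, hs, h⟩
      linarith [(hfar s hs).2]
    have h1 : (insert i (insert j U)).card ≤ d := by
      have := Finset.card_le_univ (insert i (insert j U))
      rwa [Fintype.card_fin] at this
    rw [Finset.card_insert_of_notMem (by
      rw [Finset.mem_insert, not_or]
      exact ⟨hij, hi⟩), Finset.card_insert_of_notMem hj] at h1
    omega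
  · intro s hs
    rw [hdeg, eval_prod, map_prod]
    simp only [eval_sub, eval_X, eval_C]
    exact hval s hs

/-- escape radius at a nonarchimedean place -/
theorem escape_na {K : Type u} [Field K] (v : AbsoluteValue K ℝ)
    (hv : IsNonarchimedean v) {d : ℕ} (hd : 2 ≤ d) {F : K[X]}
    (hF : F.natDegree = d) (hF1 : F.coeff (d - 1) = 0) {δ : K} {x : ℤ → K} (hx : Orb F δ x)
    (hper : ∃ m : ℕ, 0 < m ∧ ∀ n, x (n + m) = x n) (n : ℤ) :
    v (x n) * al v d F ≤ max (max 1 (v δ)) (Tv v d F) := by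
  classical
  obtain ⟨n₀, hn₀⟩ := E1_max v hper
  set M := v (x n₀) with hM
  set B := max 1 (v δ) with hB
  set T := Tv v d F with hT
  set α := al v d F with hα
  have hB1 : 1 ≤ B := le_max_left _ _
  have hT1 : 1 ≤ T := one_le_Tv v d F
  have hva : 0 < v (F.coeff d) := E5.lead_pos v hd hF
  have hα0 : 0 < α := Real.rpow_pos_of_pos hva _
  have hd1 : ((d - 1 : ℕ) : ℝ) = (d : ℝ) - 1 := by
    rw [Nat.cast_sub (by omega), Nat.cast_one]
  have hαd : α ^ (d - 1) = v (F.coeff d) := by
    rw [hα, al, ← Real.rpow_natCast, ← Real.rpow_mul hva.le, hd1]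
    have : (d : ℝ) - 1 ≠ 0 := by
      have : (2 : ℝ) ≤ d := by exact_mod_cast hd
      linarith
    rw [one_div, inv_mul_cancel₀ this, Real.rpow_one]
  have hM0 : 0 ≤ M := v.nonneg _
  have hv1 : ∀ x y, v (x + y) ≤ 1 * max (v x) (v y) := by
    intro x y
    rw [one_mul]
    exact hv x y
  have key : α * M ≤ max B T := by
    rcases hM0.eq_or_lt with h0 | hMpos
    · rw [← h0, mul_zero]
      positivity
    have hFy : v (F.eval (x n₀)) ≤ B * M := by
      have h1 := hx n₀
      rw [← coe_aeval_eq_eval, ← h1]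
      refine (hv _ _).trans (max_le ?_ ?_)
      · have := hn₀ (n₀ + 1)
        nlinarith
      · rw [smul_eq_mul, map_mul]
        exact mul_le_mul (le_max_right _ _) (hn₀ _) (v.nonneg _) (by positivity)
    have hsplit : F.coeff d * x n₀ ^ d =
        F.eval (x n₀) + -(∑ j ∈ Finset.range d, F.coeff j * x n₀ ^ j) := by
      rw [eval_eq_sum_range, hF, Finset.sum_range_succ]
      ring
    obtain ⟨j, hj, hjmax⟩ := Finset.exists_max_image (Finset.range d)
      (fun j => v (F.coeff j * x n₀ ^ j)) ⟨0, Finset.mem_range.mpr (by omega)⟩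
    rw [Finset.mem_range] at hj
    have hsum : v (∑ j ∈ Finset.range d, F.coeff j * x n₀ ^ j) ≤ v (F.coeff j * x n₀ ^ j) := by
      have := E1_sum v le_rfl hv1 (Finset.range d) (fun j => F.coeff j * x n₀ ^ j)
        (v.nonneg (F.coeff j * x n₀ ^ j)) hjmax
      rwa [one_pow, one_mul] at this
    have hmain : v (F.coeff d) * M ^ d ≤ max (B * M) (v (F.coeff j) * M ^ j) := by
      have h1 : v (F.coeff d * x n₀ ^ d) = v (F.coeff d) * M ^ d := by
        rw [map_mul, map_pow]
      rw [← h1, hsplit]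
      refine (hv _ _).trans (max_le_max hFy ?_)
      rw [v.map_neg]
      rw [map_mul, map_pow] at hsum
      exact hsum
    rcases le_total (v (F.coeff j) * M ^ j) (B * M) with hc | hc
    · rw [max_eq_left hc] at hmain
      have h1 : (α * M) ^ (d - 1) ≤ B := by
        refine le_of_mul_le_mul_right ?_ hMpos
        have h2 : M ^ d = M ^ (d - 1) * M := by
          rw [← pow_succ]
          congr 1
          omega
        rw [h2] at hmain
        rw [mul_pow, hαd]
        calc v (F.coeff d) * M ^ (d - 1) * M = v (F.coeff d) * (M ^ (d - 1) * M) := by ring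
          _ ≤ B * M := hmain
      exact (E1_le_of_pow hB1 (by omega) h1).trans (le_max_left _ _)
    · rw [max_eq_right hc] at hmain
      have h1 := tv_coeff v hd hF hF1 hj
      rw [div_le_iff₀ hva] at h1
      have hTpos : 0 < T := by linarith
      have h3 : v (F.coeff d) * M ^ d ≤ ((T / α) ^ (d - j) * v (F.coeff d)) * M ^ j :=
        hmain.trans (mul_le_mul_of_nonneg_right h1 (by positivity))
      have h4 : M ^ (d - j) ≤ (T / α) ^ (d - j) := by
        refine le_of_mul_le_mul_right ?_ (mul_pos hva (pow_pos hMpos j))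
        have h5 : M ^ d = M ^ (d - j) * M ^ j := by
          rw [← pow_add]
          congr 1
          omega
        rw [h5] at h3
        calc M ^ (d - j) * (v (F.coeff d) * M ^ j) =
              v (F.coeff d) * (M ^ (d - j) * M ^ j) := by ring
          _ ≤ ((T / α) ^ (d - j) * v (F.coeff d)) * M ^ j := h3
          _ = (T / α) ^ (d - j) * (v (F.coeff d) * M ^ j) := by ring
      have h5 : M ≤ T / α := by
        by_contra hcon
        push Not at hcon
        have := pow_lt_pow_left₀ hcon (by positivity) (by omega : d - j ≠ 0)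
        linarith
      rw [le_div_iff₀ hα0] at h5
      exact (by linarith : α * M ≤ T).trans (le_max_right _ _)
  calc v (x n) * α ≤ M * α := mul_le_mul_of_nonneg_right (hn₀ n) hα0.le
    _ = α * M := mul_comm _ _
    _ ≤ max B T := key

/-- Two roots (counted with multiplicity) of the centred polynomial `G` are far from all elements of
degree at most `B` over `K`, for each extension `w` of `v` to the algebraic closure. -/
def Far {K : Type u} [Field K] (v : AbsoluteValue K ℝ) (d : ℕ) (G : K[X]) (B : ℕ) : Prop :=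
  ∀ w : AbsoluteValue (AlgebraicClosure K) ℝ, PB.Ext v w → ∀ ρ : Fin d → AlgebraicClosure K,
    G.map (algebraMap K (AlgebraicClosure K)) =
      C (algebraMap K (AlgebraicClosure K) (G.coeff d)) * ∏ i, (X - C (ρ i)) →
    ∃ i j, i ≠ j ∧ ∀ z : AlgebraicClosure K, (minpoly K z).natDegree ≤ B →
      Tv v d G / al v d G ≤ w (z - ρ i) ∧ Tv v d G / al v d G ≤ w (z - ρ j)

theorem gain_far {K : Type u} [Field K] [NumberField K] {d : ℕ} (hd : 2 ≤ d) {G : K[X]}
    (hG : G.natDegree = d) (hG1 : G.coeff (d - 1) = 0) {δ : K} (hδ0 : δ ≠ 0) (v : FinitePlace K) {B : ℕ}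
    (hfar : Far v.val d G B) (hT : 0 < log (Tv v.val d G))
    (hδ : |log (v.val δ)| ≤ log (Tv v.val d G) / 8) {ι : Type*} (x : ι → ℤ → AlgebraicClosure K)
    (hx : ∀ i, Orb (G.map (algebraMap K (AlgebraicClosure K)))
      (algebraMap K (AlgebraicClosure K) δ) (x i))
    (hper : ∀ i, ∃ m : ℕ, 0 < m ∧ ∀ n, x i (n + m) = x i n)
    (hdeg : ∀ i n, (minpoly K (x i n)).natDegree ≤ B)
    {w : AbsoluteValue (AlgebraicClosure K) ℝ} (hw : PB.Ext v.val w) (s : Set ι) (n : ℤ) :
    Gain d G (Sum.inr v) w d (7 / 8 * log (Tv v.val d G)) s (fun i => x i n) := by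
  classical
  intro σ
  rcases s.eq_empty_or_nonempty with hs | ⟨i₀, hi₀⟩
  · refine ⟨X, monic_X, by rw [natDegree_X], by rw [natDegree_X]; omega, fun i hi => ?_⟩
    rw [hs] at hi
    exact absurd hi (Set.notMem_empty _)
  set alg := algebraMap K (AlgebraicClosure K) with halg
  have hext : PB.Ext v.val (cmp w σ) := ext_cmp hw σ
  set w' := cmp w σ with hw'
  have hna : IsNonarchimedean w' := PB.ext_na v w' hext
  set T := Tv v.val d G with hTdef
  set α := al v.val d G with hα
  have hGm : (G.map alg).natDegree = d := by rw [natDegree_map, hG]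
  have hGm1 : (G.map alg).coeff (d - 1) = 0 := by rw [coeff_map, hG1, map_zero]
  have hTw : Tv w' d (G.map alg) = T := Tv_ext hext d G
  have hαw : al w' d (G.map alg) = α := al_ext hext d G
  obtain ⟨ρ, hρ⟩ := exists_roots (G.map alg) hGm
  have hva : 0 < v.val (G.coeff d) := E5.lead_pos v.val hd hG
  have hα0 : 0 < α := Real.rpow_pos_of_pos hva _
  have hαd : α ^ (d - 1) = v.val (G.coeff d) := by
    rw [hα, al, ← Real.rpow_natCast, ← Real.rpow_mul hva.le, Nat.cast_sub (by omega), Nat.cast_one]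
    have : (d : ℝ) - 1 ≠ 0 := by
      have : (2 : ℝ) ≤ d := by exact_mod_cast hd
      linarith
    rw [one_div, inv_mul_cancel₀ this, Real.rpow_one]
  have hT1 : 1 ≤ T := one_le_Tv _ _ _
  have hT0 : 0 < T := by linarith
  have hTgt : 1 < T := by
    by_contra hcon
    have : T = 1 := le_antisymm (not_lt.1 hcon) hT1
    rw [this, log_one] at hT
    exact lt_irrefl _ hT
  have hvδ : 0 < v.val δ := v.val.pos hδ0
  -- `max 1 |δ| ≤ T ^ (1/8)`
  set Bδ := max 1 (v.val δ) with hBδ
  have hB0 : 0 < Bδ := lt_of_lt_of_le one_pos (le_max_left _ _)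
  have hBlog : log Bδ ≤ log T / 8 := by
    rcases le_total 1 (v.val δ) with h | h
    · rw [hBδ, max_eq_right h]
      exact (le_abs_self _).trans hδ
    · rw [hBδ, max_eq_left h, log_one]
      positivity
  have hBT : Bδ < T := by
    rw [← log_lt_log_iff hB0 hT0]
    linarith
  -- all points have absolute value at most `T / α`
  have hxn : ∀ i n, w' (x i n) * α ≤ T := by
    intro i n
    have h := escape_na w' hna hd hGm hGm1 (hx i) (hper i) n
    rw [hTw, hαw, hext δ] at h
    refine h.trans (max_le hBT.le le_rfl)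
  set S : Set (AlgebraicClosure K) := {z | ∃ i ∈ s, z = x i n} with hS
  have hP : ∀ z ∈ S, ∏ i, w' (z - ρ i) ≤ Bδ * T / α ^ d := by
    rintro z ⟨i, _, rfl⟩
    have h1 : (G.map alg).eval (x i n) = x i (n + 1) + alg δ * x i (n - 1) := by
      have := hx i n
      rw [smul_eq_mul, coe_aeval_eq_eval] at this
      exact this.symm
    have h2 : w' ((G.map alg).eval (x i n)) ≤ Bδ * (T / α) := by
      rw [h1]
      refine (hna _ _).trans (max_le ?_ ?_)
      · have h3 : w' (x i (n + 1)) ≤ T / α := (le_div_iff₀ hα0).2 (hxn i _)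
        have h4 : 1 * (T / α) ≤ Bδ * (T / α) :=
          mul_le_mul_of_nonneg_right (le_max_left _ _) (by positivity)
        linarith
      · rw [map_mul, hext δ]
        exact mul_le_mul (le_max_right _ _) ((le_div_iff₀ hα0).2 (hxn i _)) (w'.nonneg _) hB0.le
    rw [hρ, eval_mul, eval_C, eval_prod, map_mul, map_prod, coeff_map, hext] at h2
    simp only [eval_sub, eval_X, eval_C] at h2
    have h5 : Bδ * T / α ^ d = Bδ * (T / α) / v.val (G.coeff d) := by
      rw [← hαd]
      have : α ^ d = α * α ^ (d - 1) := by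
        rw [← pow_succ']
        congr 1
        omega
      rw [this]
      field_simp
    rw [h5, le_div_iff₀ hva]
    linarith
  have hμ : 0 < T / α := by positivity
  have hfar' : ∃ i j, i ≠ j ∧ ∀ z ∈ S, T / α ≤ w' (z - ρ i) ∧ T / α ≤ w' (z - ρ j) := by
    obtain ⟨i, j, hij, h⟩ := hfar w' hext ρ (by
      have h1 := hρ
      rw [coeff_map] at h1
      exact h1)
    refine ⟨i, j, hij, ?_⟩
    rintro z ⟨k, _, rfl⟩
    exact h _ (hdeg k n)
  have hY : Bδ * T / α ^ d < (T / α) ^ d := by
    rw [div_pow]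
    refine div_lt_div_of_pos_right ?_ (by positivity)
    calc Bδ * T < T * T := mul_lt_mul_of_pos_right hBT hT0
      _ = T ^ 2 := by ring
      _ ≤ T ^ d := pow_le_pow_right₀ hT1 hd
  obtain ⟨G₁, g1, g2, g3, g4⟩ := near_poly w' hμ (S := S) ⟨x i₀ n, i₀, hi₀, rfl⟩ hY hP hfar'
  refine ⟨G₁, g1, g2, by omega, fun i hi => ?_⟩
  have h1 := g4 (x i n) ⟨i, hi, rfl⟩
  set g := G₁.natDegree with hg
  change w' (G₁.eval (x i n)) * α ^ g ≤ _
  -- `w (G₁ z) * (T / α) ^ (d - g) ≤ B T / α ^ d`
  have h2 : w' (G₁.eval (x i n)) * α ^ g * T ^ (d - g) ≤ Bδ * T := by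
    rw [le_div_iff₀ (by positivity), div_pow] at h1
    have h3 : α ^ d = α ^ g * α ^ (d - g) := by
      rw [← pow_add]
      congr 1
      omega
    have h4 : w' (G₁.eval (x i n)) * (T ^ (d - g) / α ^ (d - g)) * α ^ d =
        w' (G₁.eval (x i n)) * α ^ g * T ^ (d - g) := by
      rw [h3]
      field_simp
    rwa [h4] at h1
  have h3 : w' (G₁.eval (x i n)) * α ^ g * T ^ 2 ≤ Bδ * T := by
    refine le_trans (mul_le_mul_of_nonneg_left (pow_le_pow_right₀ hT1 (by omega)) ?_) h2
    have := w'.nonneg (G₁.eval (x i n))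
    positivity
  have h4 : w' (G₁.eval (x i n)) * α ^ g ≤ Bδ / T := by
    rw [le_div_iff₀ hT0]
    have : w' (G₁.eval (x i n)) * α ^ g * T * T ≤ Bδ * T := by
      calc _ = w' (G₁.eval (x i n)) * α ^ g * T ^ 2 := by ring
        _ ≤ _ := h3
    exact le_of_mul_le_mul_right this hT0
  refine h4.trans ?_
  rw [← exp_log (div_pos hB0 hT0)]
  apply exp_le_exp.2
  rw [log_div hB0.ne' hT0.ne']
  linarith

end Pool.Agent.V5helper58.HN
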