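import Pool.Agent.V5helper58.HN.Norm
import Pool.Agent.H951R3.PH.E1
import Pool.Agent.H951R3.PH.E6
import Pool.Agent.H951R3.PH.E8

/-!
# Orbits of periodic points over the algebraic closure
-/

set_option autoImplicit false

namespace Pool.Agent.V5helper58.HN

open Real NumberField Polynomial
open Pool.Agent.H951R3 Pool.Agent.H951R3.PH

universe u

section

variable {K : Type u} [Field K]

theorem orbit_mem {L : IntermediateField K (AlgebraicClosure K)} {F : K[X]} {δ : K}
    {x : ℤ → AlgebraicClosure K}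
    (hx : Orb (F.map (algebraMap K (AlgebraicClosure K)))
      (algebraMap K (AlgebraicClosure K) δ) x) (h0 : x 0 ∈ L) (h1 : x 1 ∈ L)
    (hper : ∃ m : ℕ, 0 < m ∧ ∀ n, x (n + m) = x n) (n : ℤ) : x n ∈ L := by
  have hpos : ∀ k : ℕ, x k ∈ L ∧ x (k + 1) ∈ L := by
    intro k
    induction k with
    | zero => exact ⟨by simpa using h0, by simpa using h1⟩
    | succ k ih =>
      refine ⟨by exact_mod_cast ih.2, ?_⟩
      have h2 := hx (k + 1)
      rw [smul_eq_mul, coe_aeval_eq_eval, eval_map_algebraMap] at h2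
      have h3 : x ((k : ℤ) + 1 + 1) = aeval (x ((k : ℤ) + 1)) F -
          algebraMap K (AlgebraicClosure K) δ * x k := by
        rw [← h2]
        have : (k : ℤ) + 1 - 1 = k := by ring
        rw [this]
        ring
      have h4 : (((k + 1 : ℕ) : ℤ) + 1) = (k : ℤ) + 1 + 1 := by push_cast; ring
      rw [h4, h3]
      refine L.sub_mem ?_ (L.mul_mem (L.algebraMap_mem δ) ih.1)
      have h5 := Polynomial.aeval_algHom_apply (L.val) (⟨x ((k : ℤ) + 1), ih.2⟩ : L) F
      have h6 : L.val (⟨x ((k : ℤ) + 1), ih.2⟩ : L) = x ((k : ℤ) + 1) := rfl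
      rw [h6] at h5
      rw [h5]
      exact (aeval (⟨x ((k : ℤ) + 1), ih.2⟩ : L) F).2
  obtain ⟨m, hm, hper⟩ := hper
  have hP : Function.Periodic x (m : ℤ) := hper
  have h2 : x n = x (n % m) := by
    have h2 := hP.int_mul (n / m) (n % m)
    rw [← h2]
    congr 1
    have := Int.emod_add_mul_ediv n m
    push_cast
    linarith
  have hm' : (m : ℤ) ≠ 0 := by omega
  have h3 : 0 ≤ n % (m : ℤ) := Int.emod_nonneg _ hm'
  have h4 := (hpos (n % (m : ℤ)).toNat).1
  rw [Int.toNat_of_nonneg h3] at h4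
  rw [h2]
  exact h4

theorem natDegree_minpoly_le {L : IntermediateField K (AlgebraicClosure K)}
    [FiniteDimensional K L] {z : AlgebraicClosure K} (hz : z ∈ L) :
    (minpoly K z).natDegree ≤ Module.finrank K L := by
  have h1 : minpoly K (algebraMap L (AlgebraicClosure K) (⟨z, hz⟩ : L)) =
      minpoly K (⟨z, hz⟩ : L) :=
    minpoly.algebraMap_eq (algebraMap L (AlgebraicClosure K)).injective _
  have h2 : algebraMap L (AlgebraicClosure K) (⟨z, hz⟩ : L) = z := rfl
  rw [h2] at h1
  rw [h1]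
  exact minpoly.natDegree_le _

theorem ctr_map (d : ℕ) (F : K[X]) :
    ctr d (F.map (algebraMap K (AlgebraicClosure K))) =
      algebraMap K (AlgebraicClosure K) (ctr d F) := by
  unfold ctr
  rw [coeff_map, coeff_map, map_div₀, map_neg, map_mul, map_natCast]

theorem cen_map (d : ℕ) (F : K[X]) (δ : K) :
    cen d (F.map (algebraMap K (AlgebraicClosure K))) (algebraMap K (AlgebraicClosure K) δ) =
      (cen d F δ).map (algebraMap K (AlgebraicClosure K)) := by
  unfold cen
  rw [ctr_map, Polynomial.map_sub, Polynomial.map_comp, Polynomial.map_add, map_X, map_C, map_C]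
  simp only [map_mul, map_add, map_one]

/-- the Hénon map over the algebraic closure -/
noncomputable def henC (F : K[X]) (δ : K) (P : AlgebraicClosure K × AlgebraicClosure K) :
    AlgebraicClosure K × AlgebraicClosure K :=
  (P.2, aeval P.2 F - algebraMap K (AlgebraicClosure K) δ * P.1)

theorem henC_eq (F : K[X]) (δ : K) :
    henC F δ = hen (F.map (algebraMap K (AlgebraicClosure K)))
      (algebraMap K (AlgebraicClosure K) δ) := by
  funext P
  unfold henC hen
  rw [eval_map_algebraMap]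

/-- centred orbit of a periodic point of degree at most `B` -/
theorem exists_orbit [CharZero K] {d : ℕ} {F : K[X]} {δ : K} {B : ℕ}
    {P : AlgebraicClosure K × AlgebraicClosure K}
    (hP : ∃ m : ℕ, 0 < m ∧ (henC F δ)^[m] P = P)
    (hB : Module.finrank K (IntermediateField.adjoin K {P.1, P.2}) ≤ B) :
    ∃ x : ℤ → AlgebraicClosure K, Orb ((cen d F δ).map (algebraMap K (AlgebraicClosure K)))
      (algebraMap K (AlgebraicClosure K) δ) x ∧
      x 0 = P.1 - algebraMap K (AlgebraicClosure K) (ctr d F) ∧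
      x 1 = P.2 - algebraMap K (AlgebraicClosure K) (ctr d F) ∧
      (∃ m : ℕ, 0 < m ∧ ∀ n, x (n + m) = x n) ∧
      ∀ n, (minpoly K (x n)).natDegree ≤ B := by
  obtain ⟨m, hm, hP⟩ := hP
  rw [henC_eq] at hP
  obtain ⟨y, hy, hy0, hy1, hyper⟩ := orbit_of_periodic _ _ P hm hP
  set L := IntermediateField.adjoin K {P.1, P.2} with hL
  have hfd : FiniteDimensional K L := by
    refine IntermediateField.finiteDimensional_adjoin (S := {P.1, P.2}) fun x _ => ?_
    exact Algebra.IsIntegral.isIntegral x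
  have hmem : ∀ n, y n ∈ L := fun n => orbit_mem hy
    (by rw [hy0]; exact IntermediateField.subset_adjoin K _ (Set.mem_insert _ _))
    (by rw [hy1]; exact IntermediateField.subset_adjoin K _ (Set.mem_insert_of_mem _ rfl))
    ⟨m, hm, hyper⟩ n
  refine ⟨fun n => y n - algebraMap K (AlgebraicClosure K) (ctr d F), ?_, ?_, ?_, ?_, ?_⟩
  · have := cen_orb (d := d) hy
    rw [cen_map, ctr_map] at this
    exact this
  · simp only [hy0]
  · simp only [hy1]
  · exact ⟨m, hm, fun n => by simp only [hyper]⟩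
  · intro n
    exact (natDegree_minpoly_le (L.sub_mem (hmem n) (L.algebraMap_mem _))).trans hB

end

section

variable {K : Type u} [Field K] [NumberField K]

/-- the bound for the orbits at all places -/
noncomputable def Sb (d : ℕ) (G : K[X]) (δ : K) (p : Pl K) : ℝ :=
  pA p ^ (d + 1) * max 1 (pv p δ) * Tv (pv p) d G

theorem one_le_Sb (d : ℕ) (G : K[X]) (δ : K) (p : Pl K) : 1 ≤ Sb d G δ p := by
  have h1 : 1 ≤ pA p ^ (d + 1) := one_le_pow₀ (one_le_pA p)
  have h2 : (1 : ℝ) ≤ max 1 (pv p δ) := le_max_left _ _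
  have h3 : 1 ≤ Tv (pv p) d G := one_le_Tv _ _ _
  calc (1 : ℝ) = 1 * 1 * 1 := by norm_num
    _ ≤ Sb d G δ p := by
      unfold Sb
      gcongr

theorem orbit_le {d : ℕ} (hd : 2 ≤ d) {G : K[X]} (hG : G.natDegree = d)
    (hG1 : G.coeff (d - 1) = 0) {δ : K} {x : ℤ → AlgebraicClosure K}
    (hx : Orb (G.map (algebraMap K (AlgebraicClosure K)))
      (algebraMap K (AlgebraicClosure K) δ) x)
    (hper : ∃ m : ℕ, 0 < m ∧ ∀ n, x (n + m) = x n) (p : Pl K)
    {w : AbsoluteValue (AlgebraicClosure K) ℝ} (hw : PB.Ext (pv p) w)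
    (σ : AlgebraicClosure K ≃ₐ[K] AlgebraicClosure K) (n : ℤ) :
    w (σ (x n)) * al (pv p) d G ≤ Sb d G δ p := by
  have hext := ext_cmp hw σ
  have hGm : (G.map (algebraMap K (AlgebraicClosure K))).natDegree = d := by
    rw [natDegree_map, hG]
  have hGm1 : (G.map (algebraMap K (AlgebraicClosure K))).coeff (d - 1) = 0 := by
    rw [coeff_map, hG1, map_zero]
  have h := escape (cmp w σ) (one_le_pA p) (w_add p hext) hd hGm hGm1 hx hper n
  rw [al_ext hext, Tv_ext hext, hext, cmp_apply] at h
  exact h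

end

end Pool.Agent.V5helper58.HN
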