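import Pool.Agent.V5helper58.HN.Sep
import Pool.Agent.H951R3.PH.E6
import Pool.Agent.H951R3.PH.GlobalSum

/-!
# Unicritical polynomials have separated roots
-/

set_option autoImplicit false

namespace Pool.Agent.V5helper58.HN

open Real NumberField Polynomial
open Pool.Agent.H951R3 Pool.Agent.H951R3.PH

universe u

theorem Sep.mono {K : Type u} [Field K] {v : AbsoluteValue K ℝ} {d : ℕ} {G : K[X]} {ε ε' : ℝ}
    (h : Sep v d G ε) (hε : ε ≤ ε') : Sep v d G ε' := by
  intro w hw ρ hρ i j hij
  refine le_trans ?_ (h w hw ρ hρ i j hij)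
  have h1 : 0 ≤ Tv v d G := zero_le_one.trans (one_le_Tv _ _ _)
  have h2 : 0 ≤ al v d G := Real.rpow_nonneg (v.nonneg _) _
  exact mul_le_mul_of_nonneg_right (exp_le_exp.2 (by linarith)) (by positivity)

/-- the centred form of `a (X - b)^d + c` -/
theorem cen_unicritical {K : Type u} [Field K] [CharZero K] {d : ℕ} (hd : 2 ≤ d) {F : K[X]}
    (hF : F.natDegree = d) (δ : K) (h : ∃ a b c : K, F = C a * (X - C b) ^ d + C c) :
    ∃ c' : K, cen d F δ = C (F.coeff d) * X ^ d + C c' := by
  obtain ⟨a, b, c, rfl⟩ := h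
  have hcd : (C a * (X - C b) ^ d + C c : K[X]).coeff d = a := by
    rw [coeff_add, coeff_C_mul, coeff_C, if_neg (by omega), add_zero]
    have h1 : (X - C b : K[X]) = X + C (-b) := by rw [C_neg, sub_eq_add_neg]
    rw [h1, coeff_X_add_C_pow]
    simp
  have hctr : ctr d (C a * (X - C b) ^ d + C c : K[X]) = b := by
    have hd0 : (d : K) ≠ 0 := by
      rw [Nat.cast_ne_zero]
      omega
    have ha : a ≠ 0 := by
      intro ha
      rw [ha] at hF
      simp at hF
      omega
    unfold ctr
    rw [hcd, coeff_add, coeff_C_mul, coeff_C, if_neg (by omega), add_zero]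
    have h1 : (X - C b : K[X]) = X + C (-b) := by rw [C_neg, sub_eq_add_neg]
    rw [h1, coeff_X_add_C_pow]
    have e3 : d.choose (d - 1) = d := by
      rw [← Nat.choose_symm (by omega : d - 1 ≤ d)]
      have : d - (d - 1) = 1 := by omega
      rw [this, Nat.choose_one_right]
    have e4 : d - (d - 1) = 1 := by omega
    rw [e3, e4]
    field_simp
  refine ⟨c - (1 + δ) * b, ?_⟩
  rw [hcd]
  unfold cen
  rw [hctr]
  simp only [add_comp, mul_comp, pow_comp, sub_comp, X_comp, C_comp, C_sub]
  ring

theorem sep_unicritical {K : Type u} [Field K] [NumberField K] {d D : ℕ} (hd : 2 ≤ d)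
    (hfin : Module.finrank ℚ K ≤ D) {G : K[X]} (hG : G.natDegree = d)
    {c' : K} (hc' : G = C (G.coeff d) * X ^ d + C c') (p : Pl K)
    (hT : 1 < Tv (pv p) d G) : Sep (pv p) d G (D * log d + d) := by
  classical
  intro w hw ρ hρ i j hij
  set alg := algebraMap K (AlgebraicClosure K) with halg
  set a := G.coeff d with ha
  have hva : 0 < pv p a := E5.lead_pos _ hd hG
  have hd0 : (d : AlgebraicClosure K) ≠ 0 := by
    rw [Nat.cast_ne_zero]
    omega
  have hα0 : 0 < al (pv p) d G := al_pos' _ hd hG
  -- absolute values of the roots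
  have hev : ∀ z, (G.map alg).eval z = alg a * z ^ d + alg c' := by
    intro z
    rw [hc', Polynomial.map_add, Polynomial.map_mul, Polynomial.map_pow, map_X, map_C, map_C,
      eval_add, eval_mul, eval_pow, eval_X, eval_C, eval_C]
  have haw : alg a ≠ 0 := by
    intro h
    have h1 := hw a
    rw [h, map_zero] at h1
    linarith
  have hroot : ∀ l, ρ l ^ d = -(alg c' / alg a) := by
    intro l
    have h1 : (G.map alg).eval (ρ l) = 0 := by
      rw [hρ, eval_mul, eval_prod]
      apply mul_eq_zero_of_right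
      exact Finset.prod_eq_zero (Finset.mem_univ l) (by simp)
    rw [hev] at h1
    field_simp
    linear_combination h1
  have hwr : ∀ l, w (ρ l) ^ d = pv p c' / pv p a := by
    intro l
    rw [← map_pow, hroot, AbsoluteValue.map_neg, map_div₀, hw, hw]
  -- the radius
  have hμ : ∀ l, Tv (pv p) d G / al (pv p) d G = w (ρ l) := by
    intro l
    obtain ⟨j, hj, hj'⟩ := tv_attained (pv p) hd hG hT
    have hj0 : j = 0 := by
      by_contra hcon
      have h1 : G.coeff j = 0 := by
        rw [hc', coeff_add, coeff_C_mul, coeff_X_pow, if_neg (by omega), mul_zero, zero_add,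
          coeff_C, if_neg hcon]
      rw [h1, map_zero, zero_div] at hj'
      have h2 : 0 < (Tv (pv p) d G / al (pv p) d G) ^ (d - j) := by positivity
      linarith
    subst hj0
    have h1 : G.coeff 0 = c' := by
      rw [hc', coeff_add, coeff_C_mul, coeff_X_pow, if_neg (by omega), mul_zero, zero_add,
        coeff_C_zero]
    rw [h1, Nat.sub_zero, ← ha, ← hwr l] at hj'
    have h2 : 0 ≤ Tv (pv p) d G / al (pv p) d G := by positivity
    exact ((pow_left_inj₀ (w.nonneg _) h2 (by omega)).1 hj').symm
  set μ := Tv (pv p) d G / al (pv p) d G with hμdef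
  have hμ0 : 0 < μ := by positivity
  -- the derivative
  have hder : w (∏ l ∈ Finset.univ.erase i, (ρ i - ρ l)) = w (d : AlgebraicClosure K) * μ ^ (d - 1) := by
    have h1 : (derivative (G.map alg)).eval (ρ i) = alg a * (d * ρ i ^ (d - 1)) := by
      rw [hc', Polynomial.map_add, Polynomial.map_mul, Polynomial.map_pow, map_X, map_C, map_C,
        derivative_add, derivative_C, add_zero, derivative_C_mul, derivative_X_pow, eval_mul,
        eval_C, eval_mul, eval_pow, eval_X, eval_C]
    have h2 : (derivative (G.map alg)).eval (ρ i) =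
        alg a * ∏ l ∈ Finset.univ.erase i, (ρ i - ρ l) := by
      rw [hρ, derivative_C_mul, eval_mul, eval_C]
      congr 1
      rw [← Finset.mul_prod_erase Finset.univ (fun l => X - C (ρ l)) (Finset.mem_univ i),
        derivative_mul, eval_add, eval_mul, eval_mul, eval_prod]
      simp
    have h3 : ∏ l ∈ Finset.univ.erase i, (ρ i - ρ l) = d * ρ i ^ (d - 1) :=
      mul_left_cancel₀ haw (h2.symm.trans h1)
    rw [h3, map_mul, map_pow, hμ i]
  have hA1 := one_le_pA p
  have hA2 := pA_le_two p
  have hji : j ∈ Finset.univ.erase i := Finset.mem_erase.2 ⟨hij.symm, Finset.mem_univ _⟩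
  rw [← Finset.mul_prod_erase _ _ hji, map_mul, map_prod] at hder
  have hcard : ((Finset.univ.erase i).erase j).card = d - 2 := by
    rw [Finset.card_erase_of_mem hji, Finset.card_erase_of_mem (Finset.mem_univ _),
      Finset.card_univ, Fintype.card_fin]
    omega
  have hle : ∏ l ∈ (Finset.univ.erase i).erase j, w (ρ i - ρ l) ≤ (2 * μ) ^ (d - 2) := by
    rw [← hcard, ← Finset.prod_const]
    refine Finset.prod_le_prod (fun _ _ => w.nonneg _) fun l _ => ?_
    refine (w_sub_le w (by linarith) (w_add p hw) (hμ i).ge (hμ l).ge).trans ?_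
    exact mul_le_mul_of_nonneg_right hA2 hμ0.le
  have h4 : w (d : AlgebraicClosure K) * μ ^ (d - 1) ≤ w (ρ i - ρ j) * (2 * μ) ^ (d - 2) := by
    rw [← hder]
    exact mul_le_mul_of_nonneg_left hle (w.nonneg _)
  have h5 : w (d : AlgebraicClosure K) * μ ≤ w (ρ i - ρ j) * 2 ^ (d - 2) := by
    refine le_of_mul_le_mul_right ?_ (pow_pos hμ0 (d - 2))
    have : μ ^ (d - 1) = μ * μ ^ (d - 2) := by
      rw [← pow_succ']
      congr 1
      omega
    calc w (d : AlgebraicClosure K) * μ * μ ^ (d - 2) =
        w (d : AlgebraicClosure K) * μ ^ (d - 1) := by rw [this]; ring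
      _ ≤ w (ρ i - ρ j) * (2 * μ) ^ (d - 2) := h4
      _ = _ := by rw [mul_pow]; ring
  -- the absolute value of `d`
  have hdR : (2 : ℝ) ≤ d := by exact_mod_cast hd
  have hwd : exp (-(D * log d)) ≤ w (d : AlgebraicClosure K) := by
    have h6 : w (d : AlgebraicClosure K) = pv p (d : K) := by
      have h := hw (d : K)
      rw [map_natCast (algebraMap K (AlgebraicClosure K))] at h
      exact h
    rw [h6]
    rcases p with v | v
    · have h1 : pv (Sum.inl v : Pl K) (d : K) = d := by
        change v (d : K) = d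
        rw [← InfinitePlace.norm_embedding_eq, map_natCast]
        simp
      rw [h1]
      have h2 : exp (-(D * log d)) ≤ 1 := by
        rw [exp_le_one_iff]
        have := log_nonneg (by linarith : (1 : ℝ) ≤ d)
        have : 0 ≤ (D : ℝ) * log d := by positivity
        linarith
      linarith
    · have h1 := H951R2.MS.fp_natCast_ge hfin (by omega : 1 ≤ d) v
      refine le_trans (le_of_eq ?_) h1
      rw [exp_neg, mul_comm, exp_mul, exp_log (by linarith), rpow_natCast]
  have h7 : (2 : ℝ) ^ (d - 2) ≤ exp d := by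
    calc (2 : ℝ) ^ (d - 2) ≤ 2 ^ d := pow_le_pow_right₀ (by norm_num) (by omega)
      _ ≤ (exp 1) ^ d := by
        refine pow_le_pow_left₀ (by norm_num) ?_ _
        have := Real.add_one_le_exp (1 : ℝ)
        linarith
      _ = exp d := by
        rw [← exp_nat_mul, mul_one]
  have h8 : exp (-(D * log d)) * μ ≤ w (ρ i - ρ j) * exp d :=
    (mul_le_mul_of_nonneg_right hwd hμ0.le).trans (h5.trans
      (mul_le_mul_of_nonneg_left h7 (w.nonneg _)))
  have h9 : exp (-(D * log d + d)) = exp (-(D * log d)) / exp d := by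
    rw [← exp_sub]
    congr 1
    ring
  rw [h9, div_mul_eq_mul_div, div_le_iff₀ (exp_pos _)]
  exact h8

end Pool.Agent.V5helper58.HN
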