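import Pool.Agent.V5helper58.HN.Resid
import Pool.Agent.V5helper58.HN.Far
import Pool.Agent.V5helper58.HN.Uni
import Pool.Agent.V5helper58.HN.Orbit

/-!
# A criterion for unicritical polynomials
-/

set_option autoImplicit false

namespace Pool.Agent.V5helper58.HN

open Real NumberField Polynomial
open Pool.Agent.H951R3 Pool.Agent.H951R3.PH Pool.Agent.H951R2.MS

universe u

/-- nontrivial roots of unity of order prime to the residue characteristic are not close to `1` -/
theorem one_le_sub_one {A : Type*} [Field A] {w : AbsoluteValue A ℝ} (hna : IsNonarchimedean w)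
    {d : ℕ} (hd : w (d : A) = 1) {η : A} (h1 : η ^ d = 1) (hne : η ≠ 1) : 1 ≤ w (η - 1) := by
  have hη : w η ≤ 1 := by
    have hd0 : d ≠ 0 := by
      rintro rfl
      rw [Nat.cast_zero, map_zero] at hd
      exact zero_ne_one hd
    have h2 : w η ^ d = 1 := by rw [← map_pow, h1, map_one]
    exact ((pow_eq_one_iff_of_nonneg (w.nonneg _) hd0).1 h2).le
  have hsum : ∑ l ∈ Finset.range d, η ^ l = 0 := by
    have h2 := mul_geom_sum η d
    rw [h1, sub_self] at h2
    exact (mul_eq_zero.1 h2).resolve_left (sub_ne_zero.2 hne)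
  have h3 : (d : A) = (η - 1) * -∑ l ∈ Finset.range d, ∑ i ∈ Finset.range l, η ^ i := by
    have h4 : (d : A) = ∑ l ∈ Finset.range d, (1 - η ^ l) := by
      rw [Finset.sum_sub_distrib, hsum, sub_zero]
      simp
    rw [h4, mul_neg, Finset.mul_sum, ← Finset.sum_neg_distrib]
    refine Finset.sum_congr rfl fun l _ => ?_
    rw [mul_geom_sum]
    ring
  have h5 : w (-∑ l ∈ Finset.range d, ∑ i ∈ Finset.range l, η ^ i) ≤ 1 := by
    rw [w.map_neg]
    refine E7_sum hna zero_le_one _ _ fun l _ => ?_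
    refine E7_sum hna zero_le_one _ _ fun i _ => ?_
    rw [map_pow]
    exact pow_le_one₀ (w.nonneg _) hη
  have h6 := congrArg w h3
  rw [hd, map_mul] at h6
  have h7 : w (η - 1) * w (-∑ l ∈ Finset.range d, ∑ i ∈ Finset.range l, η ^ i) ≤
      w (η - 1) * 1 := mul_le_mul_of_nonneg_left h5 (w.nonneg _)
  linarith

section

variable {K : Type u} [Field K] [NumberField K]

/-- a root of unity close to an element of small degree -/
theorem dvd_of_close (v : FinitePlace K) {w : AbsoluteValue (AlgebraicClosure K) ℝ}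
    (hw : PB.Ext v.val w) {d : ℕ} (hd : v (d : K) = 1) (hd0 : d ≠ 0) {ζ u : AlgebraicClosure K}
    (hζ : IsPrimitiveRoot ζ d) (huζ : w (u - ζ) < 1) {n : ℕ}
    (hn : (minpoly K u).natDegree ≤ n) :
    ∃ m, 1 ≤ m ∧ m ≤ n ∧ d ∣ Ideal.absNorm v.maximalIdeal.asIdeal ^ m - 1 := by
  have hna : IsNonarchimedean w := PB.ext_na v w hw
  have hwζ : w ζ = 1 := by
    have h2 : w ζ ^ d = 1 := by rw [← map_pow, hζ.pow_eq_one, map_one]
    exact (pow_eq_one_iff_of_nonneg (w.nonneg _) hd0).1 h2
  have hu : w u ≤ 1 := by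
    have e : u = (u - ζ) + ζ := by ring
    rw [e]
    exact (hna _ _).trans (max_le huζ.le hwζ.le)
  obtain ⟨m, hm1, hm2, hm3⟩ := frob_of_close v hw hwζ.le hu huζ hn
  refine ⟨m, hm1, hm2, ?_⟩
  set q := Ideal.absNorm v.maximalIdeal.asIdeal with hq
  have hq1 : 1 < q := fp_one_lt v
  have hqm : 1 ≤ q ^ m := Nat.one_le_pow _ _ (by omega)
  have hζ0 : ζ ≠ 0 := hζ.ne_zero hd0
  by_contra hcon
  have hne : ζ ^ (q ^ m - 1) ≠ 1 := fun h => hcon (hζ.dvd_of_pow_eq_one _ h)
  have hwd : w (d : AlgebraicClosure K) = 1 := by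
    have h := hw (d : K)
    rw [map_natCast (algebraMap K (AlgebraicClosure K))] at h
    rw [h]
    exact hd
  have h1 := one_le_sub_one hna hwd (η := ζ ^ (q ^ m - 1)) (by
    rw [← pow_mul, mul_comm, pow_mul, hζ.pow_eq_one, one_pow]) hne
  have h2 : ζ ^ q ^ m - ζ = ζ * (ζ ^ (q ^ m - 1) - 1) := by
    have : ζ ^ q ^ m = ζ * ζ ^ (q ^ m - 1) := by
      rw [← pow_succ']
      congr 1
      omega
    rw [this]
    ring
  rw [h2, map_mul, hwζ, one_mul] at hm3
  linarith

omit [NumberField K] in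
/-- degrees of quotients -/
theorem natDegree_minpoly_div_le {x y : AlgebraicClosure K} {B : ℕ}
    (hx : (minpoly K x).natDegree ≤ B) (hy : (minpoly K y).natDegree ≤ B) :
    (minpoly K (x / y)).natDegree ≤ B * B := by
  have hix : IsIntegral K x := Algebra.IsIntegral.isIntegral x
  have hiy : IsIntegral K y := Algebra.IsIntegral.isIntegral y
  set E₁ := IntermediateField.adjoin K {x} with hE₁
  set E₂ := IntermediateField.adjoin K {y} with hE₂
  have h1 : Module.finrank K E₁ ≤ B := by
    rw [hE₁, IntermediateField.adjoin.finrank hix]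
    exact hx
  have h2 : Module.finrank K E₂ ≤ B := by
    rw [hE₂, IntermediateField.adjoin.finrank hiy]
    exact hy
  have hf1 : FiniteDimensional K E₁ := IntermediateField.adjoin.finiteDimensional hix
  have hf2 : FiniteDimensional K E₂ := IntermediateField.adjoin.finiteDimensional hiy
  have hf : FiniteDimensional K (E₁ ⊔ E₂ : IntermediateField K (AlgebraicClosure K)) :=
    IntermediateField.finiteDimensional_sup E₁ E₂
  have hmem : x / y ∈ (E₁ ⊔ E₂ : IntermediateField K (AlgebraicClosure K)) := by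
    refine (E₁ ⊔ E₂).div_mem ?_ ?_
    · exact (le_sup_left : E₁ ≤ E₁ ⊔ E₂) (IntermediateField.mem_adjoin_simple_self K x)
    · exact (le_sup_right : E₂ ≤ E₁ ⊔ E₂) (IntermediateField.mem_adjoin_simple_self K y)
  calc (minpoly K (x / y)).natDegree ≤
      Module.finrank K (E₁ ⊔ E₂ : IntermediateField K (AlgebraicClosure K)) :=
        natDegree_minpoly_le hmem
    _ ≤ Module.finrank K E₁ * Module.finrank K E₂ := IntermediateField.finrank_sup_le _ _
    _ ≤ B * B := Nat.mul_le_mul h1 h2

theorem far_unicritical {d : ℕ} (hd : 3 ≤ d) {G : K[X]} (hG : G.natDegree = d)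
    {c' : K} (hc' : G = C (G.coeff d) * X ^ d + C c') (v : FinitePlace K)
    (hT : 1 < Tv v.val d G) (hvd : v (d : K) = 1) {B : ℕ}
    (hB : ∀ f, 1 ≤ f → f ≤ B * B → ¬ d ∣ Ideal.absNorm v.maximalIdeal.asIdeal ^ f - 1) :
    Far v.val d G B := by
  classical
  intro w hw ρ hρ
  set alg := algebraMap K (AlgebraicClosure K) with halg
  have hna : IsNonarchimedean w := PB.ext_na v w hw
  set a := G.coeff d with ha
  have hva : 0 < v.val a := E5.lead_pos _ (by omega) hG
  have hα0 : 0 < al v.val d G := al_pos' _ (by omega) hG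
  have haw : alg a ≠ 0 := by
    intro h
    have h1 := hw a
    rw [h, map_zero] at h1
    linarith
  have hev : ∀ z, (G.map alg).eval z = alg a * z ^ d + alg c' := by
    intro z
    rw [hc', Polynomial.map_add, Polynomial.map_mul, Polynomial.map_pow, map_X, map_C, map_C,
      eval_add, eval_mul, eval_pow, eval_X, eval_C, eval_C]
  have hroot : ∀ l, ρ l ^ d = -(alg c' / alg a) := by
    intro l
    have h1 : (G.map alg).eval (ρ l) = 0 := by
      rw [hρ, eval_mul, eval_prod]
      apply mul_eq_zero_of_right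
      exact Finset.prod_eq_zero (Finset.mem_univ l) (by simp)
    rw [hev] at h1
    field_simp
    linear_combination h1
  have hroot' : ∀ z, z ^ d = -(alg c' / alg a) → ∃ l, ρ l = z := by
    intro z hz
    have h1 : (G.map alg).eval z = 0 := by
      rw [hev, hz]
      field_simp
      ring
    rw [hρ, eval_mul, eval_C, eval_prod, mul_eq_zero] at h1
    obtain ⟨l, _, hl⟩ := Finset.prod_eq_zero_iff.1 (h1.resolve_left haw)
    rw [eval_sub, eval_X, eval_C, sub_eq_zero] at hl
    exact ⟨l, hl.symm⟩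
  have hwr : ∀ l, w (ρ l) ^ d = v.val c' / v.val a := by
    intro l
    rw [← map_pow, hroot, AbsoluteValue.map_neg, map_div₀, hw, hw]
  have hμ : ∀ l, Tv v.val d G / al v.val d G = w (ρ l) := by
    intro l
    obtain ⟨j, hj, hj'⟩ := tv_attained v.val (by omega) hG hT
    have hj0 : j = 0 := by
      by_contra hcon
      have h1 : G.coeff j = 0 := by
        rw [hc', coeff_add, coeff_C_mul, coeff_X_pow, if_neg (by omega), mul_zero, zero_add,
          coeff_C, if_neg hcon]
      rw [h1, map_zero, zero_div] at hj'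
      have h2 : 0 < (Tv v.val d G / al v.val d G) ^ (d - j) := by positivity
      linarith
    subst hj0
    have h1 : G.coeff 0 = c' := by
      rw [hc', coeff_add, coeff_C_mul, coeff_X_pow, if_neg (by omega), mul_zero, zero_add,
        coeff_C_zero]
    rw [h1, Nat.sub_zero, ← ha, ← hwr l] at hj'
    have h2 : 0 ≤ Tv v.val d G / al v.val d G := by positivity
    exact ((pow_left_inj₀ (w.nonneg _) h2 (by omega)).1 hj').symm
  set μ := Tv v.val d G / al v.val d G with hμdef
  have hμ0 : 0 < μ := by positivity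
  -- a primitive root of unity
  have : NeZero (d : K) := ⟨by
    rw [Nat.cast_ne_zero]
    omega⟩
  obtain ⟨ζ, hζ⟩ := HasEnoughRootsOfUnity.exists_primitiveRoot (AlgebraicClosure K) d
  have hζ0 : ζ ≠ 0 := hζ.ne_zero (by omega)
  have hζ1 : ζ ≠ 1 := by
    intro h
    have := hζ.dvd_of_pow_eq_one 1 (by rw [pow_one]; exact h)
    have := Nat.le_of_dvd one_pos this
    omega
  have hζ2 : ζ ^ 2 ≠ 1 := by
    intro h
    have := Nat.le_of_dvd two_pos (hζ.dvd_of_pow_eq_one 2 h)
    omega
  have hwζ : w ζ = 1 := by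
    have h2 : w ζ ^ d = 1 := by rw [← map_pow, hζ.pow_eq_one, map_one]
    exact (pow_eq_one_iff_of_nonneg (w.nonneg _) (by omega)).1 h2
  -- no two roots `r`, `ζ r` are close to elements of degree at most `B`
  have key : ∀ r : AlgebraicClosure K, w r = μ →
      ∀ z₁ z₂ : AlgebraicClosure K, (minpoly K z₁).natDegree ≤ B →
        (minpoly K z₂).natDegree ≤ B → w (z₁ - r) < μ → w (z₂ - ζ * r) < μ → False := by
    intro r hr z₁ z₂ h1 h2 h3 h4
    have hz1 : w z₁ = μ := by
      apply le_antisymm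
      · have e : z₁ = (z₁ - r) + r := by ring
        rw [e]
        exact (hna _ _).trans (max_le h3.le hr.le)
      · by_contra hcon
        have e : r = -(z₁ - r) + z₁ := by ring
        have h5 : w r < μ := by
          rw [e]
          refine lt_of_le_of_lt (hna _ _) (max_lt ?_ (not_le.1 hcon))
          rw [w.map_neg]
          exact h3
        linarith
    have hz10 : z₁ ≠ 0 := by
      intro h
      rw [h, map_zero] at hz1
      linarith
    have h5 : w (z₂ / z₁ - ζ) < 1 := by
      have e : z₂ / z₁ - ζ = ((z₂ - ζ * r) + -(ζ * (z₁ - r))) / z₁ := by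
        field_simp
        ring
      rw [e, map_div₀, hz1, div_lt_one hμ0]
      refine lt_of_le_of_lt (hna _ _) (max_lt h4 ?_)
      rw [w.map_neg, map_mul, hwζ, one_mul]
      exact h3
    obtain ⟨m, hm1, hm2, hm3⟩ := dvd_of_close v hw hvd (by omega) hζ h5
      (natDegree_minpoly_div_le h2 h1)
    exact hB m hm1 hm2 hm3
  by_contra hcon
  push Not at hcon
  -- all but one root are close to elements of small degree
  have hnear : ∀ i j, i ≠ j → (∃ z : AlgebraicClosure K, (minpoly K z).natDegree ≤ B ∧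
      w (z - ρ i) < μ) ∨ (∃ z : AlgebraicClosure K, (minpoly K z).natDegree ≤ B ∧
      w (z - ρ j) < μ) := by
    intro i j hij
    by_contra h
    rw [not_or] at h
    obtain ⟨hi, hj⟩ := h
    push Not at hi hj
    obtain ⟨z, hz, hz'⟩ := hcon i j hij
    have := hz' (hi z hz)
    linarith [hj z hz]
  -- a close root
  obtain ⟨i₁, z₁, hz₁, hz₁'⟩ : ∃ i₁, ∃ z : AlgebraicClosure K, (minpoly K z).natDegree ≤ B ∧
      w (z - ρ i₁) < μ := by
    rcases hnear ⟨0, by omega⟩ ⟨1, by omega⟩ (by simp) with h | h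
    · exact ⟨_, h⟩
    · exact ⟨_, h⟩
  have hρ0 : ρ i₁ ≠ 0 := by
    intro h
    have := hμ i₁
    rw [h, map_zero] at this
    linarith
  obtain ⟨l, hl⟩ := hroot' (ζ * ρ i₁) (by rw [mul_pow, hζ.pow_eq_one, one_mul, hroot])
  obtain ⟨k, hk⟩ := hroot' (ζ⁻¹ * ρ i₁) (by
    rw [mul_pow, inv_pow, hζ.pow_eq_one, inv_one, one_mul, hroot])
  have hlk : l ≠ k := by
    intro h
    rw [h, hk] at hl
    have h1 : ζ⁻¹ = ζ := mul_right_cancel₀ hρ0 hl
    apply hζ2
    rw [pow_two]
    nth_rewrite 1 [← h1]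
    exact inv_mul_cancel₀ hζ0
  rcases hnear l k hlk with ⟨z₂, hz₂, hz₂'⟩ | ⟨z₂, hz₂, hz₂'⟩
  · rw [hl] at hz₂'
    exact key (ρ i₁) (hμ i₁).symm z₁ z₂ hz₁ hz₂ hz₁' hz₂'
  · rw [hk] at hz₂'
    refine key (ζ⁻¹ * ρ i₁) ?_ z₂ z₁ hz₂ hz₁ hz₂' ?_
    · rw [map_mul, map_inv₀, hwζ, inv_one, one_mul]
      exact (hμ i₁).symm
    · rw [mul_inv_cancel_left₀ hζ0]
      exact hz₁'

end

end Pool.Agent.V5helper58.HN
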