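import Pool.Agent.V5helper58.HN.Sep
import Pool.Agent.H951R3.PB.F6
import Pool.Agent.H951R3.PH.E7

/-!
# Gain at an auxiliary place of small residue field
-/

set_option autoImplicit false

namespace Pool.Agent.V5helper58.HN

open Real NumberField Polynomial
open Pool.Agent.H951R3 Pool.Agent.H951R3.PH

universe u

theorem coeff_le {A : Type*} [Field A] {w : AbsoluteValue A ℝ} (hw : IsNonarchimedean w) {R : ℝ}
    (hR : 0 ≤ R) (m : Multiset A) (hm : ∀ r ∈ m, w r ≤ R) :
    ∀ j ≤ m.card, w ((m.map fun r => X - C r).prod.coeff j) ≤ R ^ (m.card - j) := by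
  induction m using Multiset.induction_on with
  | empty =>
    intro j hj
    rw [Multiset.card_zero, Nat.le_zero] at hj
    subst hj
    simp
  | cons a s ih =>
    intro j hj
    rw [Multiset.card_cons] at hj ⊢
    rw [Multiset.map_cons, Multiset.prod_cons]
    have ha : w a ≤ R := hm a (Multiset.mem_cons_self a s)
    have ih' := ih fun r hr => hm r (Multiset.mem_cons_of_mem hr)
    set g := (s.map fun r => X - C r).prod with hg
    have hgd : g.natDegree = s.card := by
      rw [hg, natDegree_multiset_prod_X_sub_C_eq_card]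
    cases j with
    | zero =>
      rw [mul_coeff_zero, coeff_sub, coeff_X_zero, coeff_C_zero, zero_sub, map_mul,
        AbsoluteValue.map_neg, Nat.sub_zero, pow_succ']
      have := ih' 0 (Nat.zero_le _)
      rw [Nat.sub_zero] at this
      exact mul_le_mul ha this (w.nonneg _) hR
    | succ j =>
      have h1 : ((X - C a) * g).coeff (j + 1) = g.coeff j - a * g.coeff (j + 1) := by
        rw [sub_mul, coeff_sub, coeff_X_mul, coeff_C_mul]
      rw [h1]
      have h2 : s.card + 1 - (j + 1) = s.card - j := by omega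
      rw [h2, sub_eq_add_neg]
      refine (hw _ _).trans (max_le (ih' j (by omega)) ?_)
      rw [AbsoluteValue.map_neg, map_mul]
      by_cases hj' : j + 1 ≤ s.card
      · have h3 : R ^ (s.card - j) = R * R ^ (s.card - (j + 1)) := by
          rw [← pow_succ']
          congr 1
          omega
        rw [h3]
        exact mul_le_mul ha (ih' _ hj') (w.nonneg _) hR
      · rw [coeff_eq_zero_of_natDegree_lt (by omega), map_zero, mul_zero]
        positivity

section

variable {K : Type u} [Field K] [NumberField K]

theorem minpoly_coeff_le (v : FinitePlace K) {w : AbsoluteValue (AlgebraicClosure K) ℝ}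
    (hw : PB.Ext v.val w) {R : ℝ} (hR : 0 ≤ R) (z : AlgebraicClosure K)
    (hz : ∀ σ : AlgebraicClosure K ≃ₐ[K] AlgebraicClosure K, w (σ z) ≤ R) {j : ℕ}
    (hj : j ≤ (minpoly K z).natDegree) :
    v.val ((minpoly K z).coeff j) ≤ R ^ ((minpoly K z).natDegree - j) := by
  have hint : IsIntegral K z := Algebra.IsIntegral.isIntegral z
  set f := (minpoly K z).map (algebraMap K (AlgebraicClosure K)) with hf
  have hfm : f.Monic := (minpoly.monic hint).map _
  have hfs : f.Splits := IsAlgClosed.splits f
  have hfd : f.natDegree = (minpoly K z).natDegree := natDegree_map _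
  have hcard : f.roots.card = (minpoly K z).natDegree := by
    rw [← hfs.natDegree_eq_card_roots, hfd]
  have h1 := coeff_le (PB.ext_na v w hw) hR f.roots (by
    intro r hr
    obtain ⟨σ, rfl⟩ := root_conj hr
    exact hz σ) j (by rw [hcard]; exact hj)
  rw [← hfs.eq_prod_roots_of_monic hfm, hcard, hf, coeff_map, hw] at h1
  exact h1

/-- the cell of a point -/
noncomputable def acell (b M : ℕ) (cell : ℕ → ℕ → K → Fin M) (z : AlgebraicClosure K) :
    Fin (b + 1) × (Fin b → Fin M) :=
  (⟨min (minpoly K z).natDegree b, by omega⟩,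
    fun j => cell (minpoly K z).natDegree j ((minpoly K z).coeff j))

theorem gain_aux {d : ℕ} (hd : 2 ≤ d) {G : K[X]} (hG : G.natDegree = d) (v : FinitePlace K)
    {w : AbsoluteValue (AlgebraicClosure K) ℝ} (hw : PB.Ext v.val w) {S A γ : ℝ} (hS : 1 ≤ S)
    {b M : ℕ} {cell : ℕ → ℕ → K → Fin M}
    (hcell : ∀ m j x y, v x ≤ (S / al v.val d G) ^ (m - j) → v y ≤ (S / al v.val d G) ^ (m - j) →
      cell m j x = cell m j y → v (x - y) ≤ exp (-A) * (S / al v.val d G) ^ (m - j))
    (hγ : exp (-A) * S ^ b ≤ exp (-γ))
    {ι : Type*} (x : ι → AlgebraicClosure K)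
    (hxS : ∀ (σ : AlgebraicClosure K ≃ₐ[K] AlgebraicClosure K) i,
      w (σ (x i)) * al v.val d G ≤ S)
    (hdeg : ∀ i, (minpoly K (x i)).natDegree ≤ b) (j : ι) :
    Gain d G (Sum.inr v) w b γ {i | acell b M cell (x i) = acell b M cell (x j)} x := by
  classical
  intro σ
  set alg := algebraMap K (AlgebraicClosure K) with halg
  set f := (minpoly K (x j)).map alg with hf
  have hint : ∀ i, IsIntegral K (x i) := fun i => Algebra.IsIntegral.isIntegral _
  have hfd : f.natDegree = (minpoly K (x j)).natDegree := natDegree_map _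
  refine ⟨f, (minpoly.monic (hint j)).map _, ?_, ?_, ?_⟩
  · rw [hfd]
    exact minpoly.natDegree_pos (hint j)
  · rw [hfd]
    exact hdeg j
  intro i hi
  set α := al v.val d G with hα
  change w (σ (f.eval (x i))) * α ^ f.natDegree ≤ _
  have hα0 : 0 < α := al_pos' _ hd hG
  have hR : 0 < S / α := by positivity
  have hna : IsNonarchimedean w := PB.ext_na v w hw
  have hi' : acell b M cell (x i) = acell b M cell (x j) := hi
  have hdegeq : (minpoly K (x i)).natDegree = (minpoly K (x j)).natDegree := by
    have h1 := congrArg (fun c => (c.1 : ℕ)) hi'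
    simp only [acell] at h1
    have h2 := hdeg i
    have h3 := hdeg j
    omega
  set m := (minpoly K (x j)).natDegree with hm
  have hco : ∀ l < m, v.val ((minpoly K (x j)).coeff l - (minpoly K (x i)).coeff l) ≤
      exp (-A) * (S / α) ^ (m - l) := by
    intro l hl
    have hlb : l < b := lt_of_lt_of_le hl (hdeg j)
    have h1 := congrFun (congrArg Prod.snd hi') ⟨l, hlb⟩
    simp only [acell] at h1
    rw [hdegeq] at h1
    refine hcell m l _ _ ?_ ?_ h1.symm
    · exact minpoly_coeff_le v hw hR.le (x j) (fun σ => (le_div_iff₀ hα0).2 (hxS σ j)) hl.le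
    · have h2 := minpoly_coeff_le v hw hR.le (x i)
        (fun σ => (le_div_iff₀ hα0).2 (hxS σ i)) (j := l) (by rw [hdegeq]; exact hl.le)
      rw [hdegeq] at h2
      exact h2
  -- the value
  set y := σ (x i) with hy
  have hyR : w y ≤ S / α := (le_div_iff₀ hα0).2 (hxS σ i)
  have h0 : ((minpoly K (x i)).map alg).eval y = 0 := by
    have := conj_root (x i) σ
    rw [mem_roots (((minpoly.monic (hint i)).map _).ne_zero)] at this
    exact this
  have h1 : σ (f.eval (x i)) = ∑ l ∈ Finset.range m,
      alg ((minpoly K (x j)).coeff l - (minpoly K (x i)).coeff l) * y ^ l := by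
    rw [hf, eval_comp']
    have e1 : ((minpoly K (x j)).map alg).eval y =
        ((minpoly K (x j)).map alg).eval y - ((minpoly K (x i)).map alg).eval y := by
      rw [h0, sub_zero]
    have ej : (minpoly K (x j)).coeff m = 1 := minpoly.monic (hint j)
    have ei : (minpoly K (x i)).coeff m = 1 := by
      rw [← hdegeq]
      exact minpoly.monic (hint i)
    rw [← hy, e1, eval_eq_sum_range, eval_eq_sum_range, natDegree_map, natDegree_map, hdegeq,
      ← Finset.sum_sub_distrib, Finset.sum_range_succ]
    simp only [coeff_map]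
    rw [ej, ei, sub_self, add_zero]
    refine Finset.sum_congr rfl fun l _ => ?_
    rw [map_sub]
    ring
  have h2 : w (σ (f.eval (x i))) ≤ exp (-A) * (S / α) ^ m := by
    rw [h1]
    refine E7_sum hna (by positivity) _ _ fun l hl => ?_
    rw [Finset.mem_range] at hl
    rw [map_mul, map_pow, hw]
    calc v.val ((minpoly K (x j)).coeff l - (minpoly K (x i)).coeff l) * w y ^ l ≤
        (exp (-A) * (S / α) ^ (m - l)) * (S / α) ^ l :=
          mul_le_mul (hco l hl) (pow_le_pow_left₀ (w.nonneg _) hyR _)
            (pow_nonneg (w.nonneg _) _) (by positivity)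
      _ = exp (-A) * (S / α) ^ m := by
        rw [mul_assoc, ← pow_add]
        congr 2
        omega
  rw [hfd]
  calc w (σ (f.eval (x i))) * α ^ m ≤ exp (-A) * (S / α) ^ m * α ^ m :=
        mul_le_mul_of_nonneg_right h2 (by positivity)
    _ = exp (-A) * S ^ m := by
        rw [div_pow]
        field_simp
    _ ≤ exp (-A) * S ^ b :=
        mul_le_mul_of_nonneg_left (pow_le_pow_right₀ hS (hdeg j)) (exp_pos _).le
    _ ≤ exp (-γ) := hγ

end

end Pool.Agent.V5helper58.HN
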