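import Pool.Agent.H951R3.PH.Defs
import Pool.Agent.H951R3.PH.E1
import Pool.Agent.H951R3.PH.E5

/-!
# Contraction of orbits when the roots are separated
-/

set_option autoImplicit false

namespace Pool.Agent.V5helper58.HN

open Real NumberField Polynomial
open Pool.Agent.H951R3 Pool.Agent.H951R3.PH

section

variable {A : Type*} [Field A] (w : AbsoluteValue A ℝ) {A₀ : ℝ}

theorem w_sub (hw : ∀ x y, w (x + y) ≤ A₀ * max (w x) (w y)) (x y : A) :
    w (x - y) ≤ A₀ * max (w x) (w y) := by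
  have := hw x (-y)
  rwa [w.map_neg, ← sub_eq_add_neg] at this

theorem w_sub_le (hA : 0 ≤ A₀) (hw : ∀ x y, w (x + y) ≤ A₀ * max (w x) (w y)) {x y : A} {U : ℝ}
    (hx : w x ≤ U) (hy : w y ≤ U) : w (x - y) ≤ A₀ * U :=
  (w_sub w hw x y).trans (mul_le_mul_of_nonneg_left (max_le hx hy) hA)

/-- difference of two products -/
theorem prod_diff (hA : 1 ≤ A₀) (hw : ∀ x y, w (x + y) ≤ A₀ * max (w x) (w y)) {ι : Type*}
    [DecidableEq ι] (s : Finset ι) (ρ : ι → A) (x y : A) {U : ℝ} (hU : 0 < U)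
    (hx : ∀ i ∈ s, w (x - ρ i) ≤ U) (hy : ∀ i ∈ s, w (y - ρ i) ≤ U) :
    U * w (∏ i ∈ s, (x - ρ i) - ∏ i ∈ s, (y - ρ i)) ≤ w (x - y) * A₀ ^ s.card * U ^ s.card := by
  induction s using Finset.induction_on with
  | empty =>
    rw [Finset.prod_empty, Finset.prod_empty, sub_self, map_zero, mul_zero, Finset.card_empty,
      pow_zero, pow_zero, mul_one, mul_one]
    exact w.nonneg _
  | insert j s hj ih =>
    have ih' := ih (fun i hi => hx i (Finset.mem_insert_of_mem hi))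
      (fun i hi => hy i (Finset.mem_insert_of_mem hi))
    have hA0 : 0 ≤ A₀ := by linarith
    rw [Finset.prod_insert hj, Finset.prod_insert hj, Finset.card_insert_of_notMem hj]
    have h1 : (x - ρ j) * ∏ i ∈ s, (x - ρ i) - (y - ρ j) * ∏ i ∈ s, (y - ρ i) =
        (x - y) * ∏ i ∈ s, (x - ρ i) +
          (y - ρ j) * (∏ i ∈ s, (x - ρ i) - ∏ i ∈ s, (y - ρ i)) := by ring
    rw [h1]
    have h2 := hw ((x - y) * ∏ i ∈ s, (x - ρ i))
      ((y - ρ j) * (∏ i ∈ s, (x - ρ i) - ∏ i ∈ s, (y - ρ i)))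
    have h3 : w (∏ i ∈ s, (x - ρ i)) ≤ U ^ s.card := by
      rw [map_prod, ← Finset.prod_const]
      exact Finset.prod_le_prod (fun _ _ => w.nonneg _)
        (fun i hi => hx i (Finset.mem_insert_of_mem hi))
    have hAp : 1 ≤ A₀ ^ s.card := one_le_pow₀ hA
    have h4 : U * w ((x - y) * ∏ i ∈ s, (x - ρ i)) ≤ w (x - y) * A₀ ^ s.card * U ^ (s.card + 1) := by
      rw [map_mul, pow_succ]
      have h5 : w (x - y) * w (∏ i ∈ s, (x - ρ i)) ≤ w (x - y) * (A₀ ^ s.card * U ^ s.card) := by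
        refine mul_le_mul_of_nonneg_left (h3.trans ?_) (w.nonneg _)
        exact le_mul_of_one_le_left (by positivity) hAp
      calc U * (w (x - y) * w (∏ i ∈ s, (x - ρ i))) ≤
          U * (w (x - y) * (A₀ ^ s.card * U ^ s.card)) := mul_le_mul_of_nonneg_left h5 hU.le
        _ = _ := by ring
    have h5 : U * w ((y - ρ j) * (∏ i ∈ s, (x - ρ i) - ∏ i ∈ s, (y - ρ i))) ≤
        w (x - y) * A₀ ^ s.card * U ^ (s.card + 1) := by
      rw [map_mul]
      calc U * (w (y - ρ j) * w (∏ i ∈ s, (x - ρ i) - ∏ i ∈ s, (y - ρ i))) =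
          w (y - ρ j) * (U * w (∏ i ∈ s, (x - ρ i) - ∏ i ∈ s, (y - ρ i))) := by ring
        _ ≤ U * (w (x - y) * A₀ ^ s.card * U ^ s.card) :=
          mul_le_mul (hy j (Finset.mem_insert_self _ _)) ih'
            (mul_nonneg hU.le (w.nonneg _)) hU.le
        _ = _ := by ring
    calc U * w ((x - y) * ∏ i ∈ s, (x - ρ i) +
          (y - ρ j) * (∏ i ∈ s, (x - ρ i) - ∏ i ∈ s, (y - ρ i)))
        ≤ U * (A₀ * max (w ((x - y) * ∏ i ∈ s, (x - ρ i)))
          (w ((y - ρ j) * (∏ i ∈ s, (x - ρ i) - ∏ i ∈ s, (y - ρ i))))) :=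
          mul_le_mul_of_nonneg_left h2 hU.le
      _ = A₀ * max (U * w ((x - y) * ∏ i ∈ s, (x - ρ i)))
          (U * w ((y - ρ j) * (∏ i ∈ s, (x - ρ i) - ∏ i ∈ s, (y - ρ i)))) := by
        rw [← mul_max_of_nonneg _ _ hU.le]
        ring
      _ ≤ A₀ * (w (x - y) * A₀ ^ s.card * U ^ (s.card + 1)) :=
        mul_le_mul_of_nonneg_left (max_le h4 h5) hA0
      _ = _ := by ring

/-- bound for the roots -/
theorem root_le (hA : 1 ≤ A₀) (hw : ∀ x y, w (x + y) ≤ A₀ * max (w x) (w y)) {d : ℕ}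
    (hd : 2 ≤ d) {G : A[X]} (hG : G.natDegree = d) (hG1 : G.coeff (d - 1) = 0) {r : A}
    (hr : G.eval r = 0) : w r * al w d G ≤ A₀ ^ d * Tv w d G := by
  classical
  set T := Tv w d G with hT
  set α := al w d G with hα
  set M := w r with hM
  have hT1 : 1 ≤ T := one_le_Tv w d G
  have hTpos : 0 < T := by linarith
  have hva : 0 < w (G.coeff d) := E5.lead_pos w hd hG
  have hα0 : 0 < α := Real.rpow_pos_of_pos hva _
  have hM0 : 0 ≤ M := w.nonneg _
  have hA0 : 0 < A₀ := by linarith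
  rcases hM0.eq_or_lt with h0 | hMpos
  · rw [← h0, zero_mul]
    positivity
  have hsplit : G.coeff d * r ^ d = -(∑ j ∈ Finset.range d, G.coeff j * r ^ j) := by
    rw [eval_eq_sum_range, hG, Finset.sum_range_succ] at hr
    linear_combination hr
  obtain ⟨j, hj, hjmax⟩ := Finset.exists_max_image (Finset.range d)
    (fun j => w (G.coeff j * r ^ j)) ⟨0, Finset.mem_range.mpr (by omega)⟩
  rw [Finset.mem_range] at hj
  have hsum : w (∑ j ∈ Finset.range d, G.coeff j * r ^ j) ≤ A₀ ^ d * w (G.coeff j * r ^ j) := by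
    have := E1_sum w hA hw (Finset.range d) (fun j => G.coeff j * r ^ j)
      (w.nonneg (G.coeff j * r ^ j)) hjmax
    rwa [Finset.card_range] at this
  have hmain : w (G.coeff d) * M ^ d ≤ A₀ ^ d * (w (G.coeff j) * M ^ j) := by
    have h1 : w (G.coeff d * r ^ d) = w (G.coeff d) * M ^ d := by
      rw [map_mul, map_pow]
    rw [← h1, hsplit, w.map_neg]
    rw [map_mul, map_pow] at hsum
    exact hsum
  have h1 := tv_coeff w hd hG hG1 hj
  rw [div_le_iff₀ hva] at h1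
  have h3 : w (G.coeff d) * M ^ d ≤ A₀ ^ d * ((T / α) ^ (d - j) * w (G.coeff d)) * M ^ j := by
    refine hmain.trans ?_
    have := mul_le_mul_of_nonneg_right h1 (pow_nonneg hM0 j)
    calc A₀ ^ d * (w (G.coeff j) * M ^ j) ≤ A₀ ^ d * ((T / α) ^ (d - j) * w (G.coeff d) * M ^ j) :=
          mul_le_mul_of_nonneg_left this (by positivity)
      _ = _ := by ring
  have h4 : M ^ (d - j) ≤ A₀ ^ d * (T / α) ^ (d - j) := by
    refine le_of_mul_le_mul_right ?_ (mul_pos hva (pow_pos hMpos j))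
    have h5 : M ^ d = M ^ (d - j) * M ^ j := by
      rw [← pow_add]
      congr 1
      omega
    rw [h5] at h3
    calc M ^ (d - j) * (w (G.coeff d) * M ^ j) =
          w (G.coeff d) * (M ^ (d - j) * M ^ j) := by ring
      _ ≤ A₀ ^ d * ((T / α) ^ (d - j) * w (G.coeff d)) * M ^ j := h3
      _ = A₀ ^ d * (T / α) ^ (d - j) * (w (G.coeff d) * M ^ j) := by ring
  have h5 : (M * α / T) ^ (d - j) ≤ A₀ ^ d := by
    rw [div_pow, div_le_iff₀ (pow_pos hTpos _), mul_pow]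
    rw [div_pow, ← mul_div_assoc, le_div_iff₀ (pow_pos hα0 _)] at h4
    exact h4
  have h6 := E1_le_of_pow (one_le_pow₀ hA) (by omega) h5
  rwa [div_le_iff₀ hTpos] at h6

variable {d : ℕ} {ρ : Fin d → A} {α κ T Z S : ℝ}

/-- the index of a nearest root -/
theorem exists_near [NeZero d] (x : A) (ρ : Fin d → A) :
    ∃ i, ∀ j, w (x - ρ i) ≤ w (x - ρ j) := by
  have : Nonempty (Fin d) := ⟨0⟩
  exact Finite.exists_min fun i => w (x - ρ i)

theorem far_other (hA : 1 ≤ A₀) (hw : ∀ x y, w (x + y) ≤ A₀ * max (w x) (w y))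
    {c : ℝ} (hsep : ∀ i j, i ≠ j → c ≤ w (ρ i - ρ j)) {x : A} {i₀ : Fin d}
    (hi₀ : ∀ j, w (x - ρ i₀) ≤ w (x - ρ j)) {i : Fin d} (hi : i ≠ i₀) :
    c / A₀ ≤ w (x - ρ i) := by
  have h1 := w_sub w hw (x - ρ i) (x - ρ i₀)
  have h2 : x - ρ i - (x - ρ i₀) = ρ i₀ - ρ i := by ring
  rw [h2, max_eq_left (hi₀ i)] at h1
  rw [div_le_iff₀ (by linarith)]
  linarith [hsep i₀ i hi.symm]

/-- lower bound for the product over the other roots -/
theorem other_prod (hA : 1 ≤ A₀) (hw : ∀ x y, w (x + y) ≤ A₀ * max (w x) (w y))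
    {c : ℝ} (hc : 0 ≤ c) (hsep : ∀ i j, i ≠ j → c ≤ w (ρ i - ρ j)) {x : A} {i₀ : Fin d}
    (hi₀ : ∀ j, w (x - ρ i₀) ≤ w (x - ρ j)) :
    (c / A₀) ^ (d - 1) ≤ w (∏ i ∈ Finset.univ.erase i₀, (x - ρ i)) := by
  rw [map_prod]
  have h1 : (Finset.univ.erase i₀).card = d - 1 := by
    rw [Finset.card_erase_of_mem (Finset.mem_univ _), Finset.card_univ, Fintype.card_fin]
  rw [← h1, ← Finset.prod_const]
  refine Finset.prod_le_prod (fun _ _ => div_nonneg hc (by linarith)) fun i hi => ?_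
  exact far_other w hA hw hsep hi₀ (Finset.ne_of_mem_erase hi)

/-- two points near the same root -/
theorem contr_one (hA : 1 ≤ A₀) (hw : ∀ x y, w (x + y) ≤ A₀ * max (w x) (w y)) (hd : 2 ≤ d)
    {c U u : ℝ} (hc : 0 < c) (hsep : ∀ i j, i ≠ j → c ≤ w (ρ i - ρ j)) {x y : A} {i₀ : Fin d}
    (hx : ∀ j, w (x - ρ i₀) ≤ w (x - ρ j)) (hU : 0 < U)
    (hxU : ∀ j, w (x - ρ j) ≤ U) (hyU : ∀ j, w (y - ρ j) ≤ U) (hyu : w (y - ρ i₀) ≤ u)
    (hcond : u * A₀ ^ d * U ^ (d - 2) < (c / A₀) ^ (d - 1)) :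
    w (x - y) * (c / A₀) ^ (d - 1) ≤ A₀ * w (∏ i, (x - ρ i) - ∏ i, (y - ρ i)) := by
  classical
  have hA0 : 0 < A₀ := by linarith
  set R : A → A := fun z => ∏ i ∈ Finset.univ.erase i₀, (z - ρ i) with hR
  have hprod : ∀ z, ∏ i, (z - ρ i) = (z - ρ i₀) * R z := fun z =>
    (Finset.mul_prod_erase Finset.univ (fun i => z - ρ i) (Finset.mem_univ i₀)).symm
  rw [hprod, hprod]
  have h1 : (x - y) * R x = ((x - ρ i₀) * R x - (y - ρ i₀) * R y) -
      (y - ρ i₀) * (R x - R y) := by ring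
  have h2 := w_sub w hw ((x - ρ i₀) * R x - (y - ρ i₀) * R y) ((y - ρ i₀) * (R x - R y))
  rw [← h1, map_mul] at h2
  have hRx : (c / A₀) ^ (d - 1) ≤ w (R x) := other_prod w hA hw hc.le hsep hx
  have hcard : (Finset.univ.erase i₀).card = d - 1 := by
    rw [Finset.card_erase_of_mem (Finset.mem_univ _), Finset.card_univ, Fintype.card_fin]
  have h3 := prod_diff w hA hw (Finset.univ.erase i₀) ρ x y hU (fun i _ => hxU i)
    (fun i _ => hyU i)
  rw [hcard] at h3
  have h4 : w (R x - R y) ≤ w (x - y) * A₀ ^ (d - 1) * U ^ (d - 2) := by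
    refine le_of_mul_le_mul_left ?_ hU
    refine h3.trans (le_of_eq ?_)
    have : U ^ (d - 1) = U * U ^ (d - 2) := by
      rw [← pow_succ']
      congr 1
      omega
    rw [this]
    ring
  have hq : 0 < (c / A₀) ^ (d - 1) := by positivity
  rcases (w.nonneg (x - y)).eq_or_lt with h0 | hpos
  · rw [← h0, zero_mul]
    exact mul_nonneg hA0.le (w.nonneg _)
  have h5 : A₀ * w ((y - ρ i₀) * (R x - R y)) < w (x - y) * w (R x) := by
    rw [map_mul]
    have hu : 0 ≤ u := (w.nonneg _).trans hyu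
    calc A₀ * (w (y - ρ i₀) * w (R x - R y)) ≤
        A₀ * (u * (w (x - y) * A₀ ^ (d - 1) * U ^ (d - 2))) := by
          refine mul_le_mul_of_nonneg_left (mul_le_mul hyu h4 (w.nonneg _) hu) hA0.le
      _ = w (x - y) * (u * A₀ ^ d * U ^ (d - 2)) := by
          have : A₀ ^ d = A₀ * A₀ ^ (d - 1) := by
            rw [← pow_succ']
            congr 1
            omega
          rw [this]
          ring
      _ < w (x - y) * (c / A₀) ^ (d - 1) := mul_lt_mul_of_pos_left hcond hpos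
      _ ≤ w (x - y) * w (R x) := mul_le_mul_of_nonneg_left hRx hpos.le
  have h6 : w (x - y) * w (R x) ≤ A₀ * w ((x - ρ i₀) * R x - (y - ρ i₀) * R y) := by
    rcases le_total (w ((x - ρ i₀) * R x - (y - ρ i₀) * R y)) (w ((y - ρ i₀) * (R x - R y)))
      with h | h
    · rw [max_eq_right h] at h2
      linarith
    · rw [max_eq_left h] at h2
      exact h2
  exact (mul_le_mul_of_nonneg_left hRx hpos.le).trans h6

end

end Pool.Agent.V5helper58.HN
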