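import Pool.Agent.V5helper58.HN.Contr

/-!
# Contraction along orbits
-/

set_option autoImplicit false

namespace Pool.Agent.V5helper58.HN

open Real NumberField Polynomial
open Pool.Agent.H951R3 Pool.Agent.H951R3.PH

section

variable {A : Type*} [Field A] (w : AbsoluteValue A ℝ) {A₀ : ℝ}

theorem al_pow {d : ℕ} (hd : 2 ≤ d) {G : A[X]} (hG : G.natDegree = d) :
    al w d G ^ (d - 1) = w (G.coeff d) := by
  have hva : 0 < w (G.coeff d) := E5.lead_pos w hd hG
  rw [al, ← Real.rpow_natCast, ← Real.rpow_mul hva.le, Nat.cast_sub (by omega), Nat.cast_one]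
  have : (d : ℝ) - 1 ≠ 0 := by
    have : (2 : ℝ) ≤ d := by exact_mod_cast hd
    linarith
  rw [one_div, inv_mul_cancel₀ this, Real.rpow_one]

theorem al_pos' {d : ℕ} (hd : 2 ≤ d) {G : A[X]} (hG : G.natDegree = d) : 0 < al w d G :=
  Real.rpow_pos_of_pos (E5.lead_pos w hd hG) _

theorem contr_step (hA : 1 ≤ A₀) (hw : ∀ x y, w (x + y) ≤ A₀ * max (w x) (w y)) {d : ℕ}
    (hd : 2 ≤ d) {G : A[X]} (hG : G.natDegree = d) (hG1 : G.coeff (d - 1) = 0) {δ : A}
    {ρ : Fin d → A} (hρ : G = C (G.coeff d) * ∏ i, (X - C (ρ i))) {κ S : ℝ} (hκ : 0 < κ)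
    (hS : A₀ ^ d * Tv w d G ≤ S)
    (hsep : ∀ i j, i ≠ j → κ * (Tv w d G / al w d G) ≤ w (ρ i - ρ j))
    (hcond : A₀ ^ (2 * d - 1) * max 1 (w δ) * S ^ (d - 1) <
      (κ * Tv w d G / A₀) ^ (d - 1) * (κ * Tv w d G / A₀) ^ (d - 1))
    {near : A → Fin d} (hnear : ∀ z j, w (z - ρ (near z)) ≤ w (z - ρ j))
    {x y : ℤ → A} (hx : Orb G δ x) (hy : Orb G δ y)
    (hxS : ∀ n, w (x n) * al w d G ≤ S) (hyS : ∀ n, w (y n) * al w d G ≤ S) {n : ℤ}
    (hn : near (x n) = near (y n)) :
    w (x n - y n) * al w d G ≤ A₀ ^ 2 * max 1 (w δ) / (κ * Tv w d G / A₀) ^ (d - 1) *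
      max (w (x (n + 1) - y (n + 1)) * al w d G) (w (x (n - 1) - y (n - 1)) * al w d G) := by
  classical
  set T := Tv w d G with hT
  set α := al w d G with hα
  set B := max 1 (w δ) with hB
  have hT1 : 1 ≤ T := one_le_Tv w d G
  have hTpos : 0 < T := by linarith
  have hva : 0 < w (G.coeff d) := E5.lead_pos w hd hG
  have hα0 : 0 < α := al_pos' w hd hG
  have hαd : α ^ (d - 1) = w (G.coeff d) := al_pow w hd hG
  have hA0 : 0 < A₀ := by linarith
  have hB1 : 1 ≤ B := le_max_left _ _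
  have hSpos : 0 < S := lt_of_lt_of_le (by positivity) hS
  set Q := (κ * T / A₀) ^ (d - 1) with hQ
  have hQ0 : 0 < Q := by positivity
  have hroot : ∀ j, w (ρ j) * α ≤ S := by
    intro j
    refine (root_le w hA hw hd hG hG1 ?_).trans hS
    rw [hρ, eval_mul, eval_prod]
    apply mul_eq_zero_of_right
    exact Finset.prod_eq_zero (Finset.mem_univ j) (by simp)
  have hc : (κ * (T / α) / A₀) ^ (d - 1) = Q / α ^ (d - 1) := by
    rw [hQ, ← div_pow]
    congr 1
    field_simp
  have hU : ∀ z, w z * α ≤ S → ∀ j, w (z - ρ j) ≤ A₀ * S / α := by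
    intro z hz j
    rw [mul_div_assoc]
    exact w_sub_le w hA0.le hw ((le_div_iff₀ hα0).2 hz) ((le_div_iff₀ hα0).2 (hroot j))
  have hev : ∀ z, G.eval z = G.coeff d * ∏ i, (z - ρ i) := by
    intro z
    conv_lhs => rw [hρ]
    rw [eval_mul, eval_C, eval_prod]
    simp only [eval_sub, eval_X, eval_C]
  have horb : ∀ {x : ℤ → A}, Orb G δ x → ∀ n, G.eval (x n) = x (n + 1) + δ * x (n - 1) := by
    intro x hx n
    have := hx n
    rw [smul_eq_mul, coe_aeval_eq_eval] at this
    exact this.symm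
  -- the nearest root of `y n`
  have hyu : w (y n - ρ (near (y n))) ≤ A₀ * B * S / (α * Q) := by
    have h1 : w (G.eval (y n)) ≤ A₀ * (B * (S / α)) := by
      rw [horb hy]
      refine (hw _ _).trans (mul_le_mul_of_nonneg_left (max_le ?_ ?_) hA0.le)
      · have h3 : w (y (n + 1)) ≤ S / α := (le_div_iff₀ hα0).2 (hyS _)
        exact h3.trans (le_mul_of_one_le_left (by positivity) hB1)
      · rw [map_mul]
        exact mul_le_mul (le_max_right _ _) ((le_div_iff₀ hα0).2 (hyS _)) (w.nonneg _)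
          (by positivity)
    rw [hev, map_mul, ← hαd,
      ← Finset.mul_prod_erase Finset.univ (fun i => y n - ρ i) (Finset.mem_univ (near (y n))),
      map_mul] at h1
    have h2 := other_prod w hA hw (c := κ * (T / α)) (by positivity) hsep (hnear (y n))
    rw [hc] at h2
    rw [le_div_iff₀ (by positivity)]
    have h3 : w (y n - ρ (near (y n))) * Q ≤
        α ^ (d - 1) * (w (y n - ρ (near (y n))) *
          w (∏ i ∈ Finset.univ.erase (near (y n)), (y n - ρ i))) := by
      rw [div_le_iff₀ (by positivity)] at h2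
      have := mul_le_mul_of_nonneg_left h2 (w.nonneg (y n - ρ (near (y n))))
      calc _ ≤ _ := this
        _ = _ := by ring
    calc w (y n - ρ (near (y n))) * (α * Q) = α * (w (y n - ρ (near (y n))) * Q) := by ring
      _ ≤ α * (A₀ * (B * (S / α))) := mul_le_mul_of_nonneg_left (h3.trans h1) hα0.le
      _ = A₀ * B * S := by field_simp
  have hd2 : α ^ (d - 1) = α * α ^ (d - 2) := by
    rw [← pow_succ']
    congr 1
    omega
  have hcond' : A₀ * B * S / (α * Q) * A₀ ^ d * (A₀ * S / α) ^ (d - 2) <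
      (κ * (T / α) / A₀) ^ (d - 1) := by
    rw [hc, hd2]
    have e1 : A₀ * B * S / (α * Q) * A₀ ^ d * (A₀ * S / α) ^ (d - 2) =
        (A₀ ^ (2 * d - 1) * B * S ^ (d - 1)) / (Q * (α * α ^ (d - 2))) := by
      have h1 : A₀ ^ (2 * d - 1) = A₀ * A₀ ^ d * A₀ ^ (d - 2) := by
        rw [← pow_succ', ← pow_add]
        congr 1
        omega
      have h2 : S ^ (d - 1) = S * S ^ (d - 2) := by
        rw [← pow_succ']
        congr 1
        omega
      rw [h1, h2, div_pow, mul_pow]
      field_simp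
    rw [e1, div_lt_div_iff₀ (by positivity) (by positivity)]
    have h3 : 0 < α * α ^ (d - 2) := by positivity
    calc A₀ ^ (2 * d - 1) * B * S ^ (d - 1) * (α * α ^ (d - 2)) <
        Q * Q * (α * α ^ (d - 2)) := mul_lt_mul_of_pos_right hcond h3
      _ = _ := by ring
  have h1 := contr_one w hA hw hd (c := κ * (T / α)) (U := A₀ * S / α) (by positivity) hsep
    (x := x n) (y := y n) (i₀ := near (x n)) (hnear (x n)) (by positivity)
    (hU _ (hxS n)) (hU _ (hyS n)) (by rw [hn]; exact hyu) hcond'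
  rw [hc] at h1
  have h2 : w (G.eval (x n) - G.eval (y n)) =
      α ^ (d - 1) * w (∏ i, (x n - ρ i) - ∏ i, (y n - ρ i)) := by
    rw [hev, hev, ← mul_sub, map_mul, hαd]
  have h3 : w (G.eval (x n) - G.eval (y n)) ≤
      A₀ * (B * max (w (x (n + 1) - y (n + 1))) (w (x (n - 1) - y (n - 1)))) := by
    rw [horb hx, horb hy]
    have : x (n + 1) + δ * x (n - 1) - (y (n + 1) + δ * y (n - 1)) =
        (x (n + 1) - y (n + 1)) + δ * (x (n - 1) - y (n - 1)) := by ring
    rw [this]
    refine (hw _ _).trans (mul_le_mul_of_nonneg_left (max_le ?_ ?_) hA0.le)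
    · exact (le_max_left _ _).trans
        (le_mul_of_one_le_left (le_max_of_le_left (w.nonneg _)) hB1)
    · rw [map_mul]
      exact mul_le_mul (le_max_right _ _) (le_max_right _ _) (w.nonneg _) (by positivity)
  set D := max (w (x (n + 1) - y (n + 1))) (w (x (n - 1) - y (n - 1))) with hD
  have h4 : max (w (x (n + 1) - y (n + 1)) * α) (w (x (n - 1) - y (n - 1)) * α) = D * α := by
    rw [hD, max_mul_of_nonneg _ _ hα0.le]
  rw [h4]
  have h5 : w (x n - y n) * Q ≤ A₀ ^ 2 * B * D := by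
    have h6 : w (x n - y n) * Q = (w (x n - y n) * (Q / α ^ (d - 1))) * α ^ (d - 1) := by
      field_simp
    rw [h6]
    calc (w (x n - y n) * (Q / α ^ (d - 1))) * α ^ (d - 1) ≤
        (A₀ * w (∏ i, (x n - ρ i) - ∏ i, (y n - ρ i))) * α ^ (d - 1) :=
          mul_le_mul_of_nonneg_right h1 (by positivity)
      _ = A₀ * w (G.eval (x n) - G.eval (y n)) := by
        rw [h2]
        ring
      _ ≤ A₀ * (A₀ * (B * D)) := mul_le_mul_of_nonneg_left h3 hA0.le
      _ = _ := by ring
  calc w (x n - y n) * α = w (x n - y n) * Q * (α / Q) := by field_simp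
    _ ≤ A₀ ^ 2 * B * D * (α / Q) := mul_le_mul_of_nonneg_right h5 (by positivity)
    _ = _ := by ring

/-- iteration -/
theorem contr_iter {D : ℤ → ℝ} {θ U : ℝ} (hθ : 0 ≤ θ) (hU : ∀ n, D n ≤ U)
    {k : ℕ} (hstep : ∀ n : ℤ, -k ≤ n → n ≤ k + 1 → D n ≤ θ * max (D (n + 1)) (D (n - 1))) :
    D 0 ≤ θ ^ k * U ∧ D 1 ≤ θ ^ k * U := by
  have key : ∀ j : ℕ, ∀ n : ℤ, -k + j ≤ n → n ≤ k + 1 - j → D n ≤ θ ^ j * U := by
    intro j
    induction j with
    | zero =>
      intro n _ _
      rw [pow_zero, one_mul]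
      exact hU n
    | succ j ih =>
      intro n h1 h2
      push_cast at h1 h2
      have h3 := hstep n (by omega) (by omega)
      have h4 := ih (n + 1) (by omega) (by omega)
      have h5 := ih (n - 1) (by omega) (by omega)
      calc D n ≤ θ * max (D (n + 1)) (D (n - 1)) := h3
        _ ≤ θ * (θ ^ j * U) := mul_le_mul_of_nonneg_left (max_le h4 h5) hθ
        _ = θ ^ (j + 1) * U := by ring
  exact ⟨key k 0 (by omega) (by omega), key k 1 (by omega) (by omega)⟩

/-- value of a monic polynomial with all roots at bounded distance and one root near -/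
theorem eval_near {f : A[X]} (hf : f.Monic) (hs : f.Splits) {z r₀ : A} (hr₀ : r₀ ∈ f.roots)
    {α U ε : ℝ} (hα : 0 ≤ α) (hU : 0 ≤ U) (hr : ∀ r ∈ f.roots, w (z - r) * α ≤ U)
    (h₀ : w (z - r₀) * α ≤ ε * U) (hε : 0 ≤ ε) :
    w (f.eval z) * α ^ f.natDegree ≤ ε * U ^ f.natDegree := by
  classical
  obtain ⟨m, hm⟩ := Multiset.exists_cons_of_mem hr₀
  have h1 : f.eval z = (f.roots.map fun r => z - r).prod := by
    rw [hs.eval_eq_prod_roots_of_monic hf]
  have h2 : f.natDegree = m.card + 1 := by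
    rw [hs.natDegree_eq_card_roots, hm, Multiset.card_cons]
  have h3 : ∀ m : Multiset A, (∀ r ∈ m, w (z - r) * α ≤ U) →
      w (m.map fun r => z - r).prod * α ^ m.card ≤ U ^ m.card := by
    intro m
    induction m using Multiset.induction_on with
    | empty => intro _; simp
    | cons a s ih =>
      intro h
      rw [Multiset.map_cons, Multiset.prod_cons, Multiset.card_cons, map_mul, pow_succ, pow_succ]
      have h4 := ih fun r hr => h r (Multiset.mem_cons_of_mem hr)
      have h5 := h a (Multiset.mem_cons_self a s)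
      calc w (z - a) * w (s.map fun r => z - r).prod * (α ^ s.card * α) =
          (w (s.map fun r => z - r).prod * α ^ s.card) * (w (z - a) * α) := by ring
        _ ≤ U ^ s.card * U := mul_le_mul h4 h5 (mul_nonneg (w.nonneg _) hα) (by positivity)
  rw [h1, h2, hm, Multiset.map_cons, Multiset.prod_cons, map_mul, pow_succ, pow_succ]
  have h4 := h3 m fun r hr' => hr r (by rw [hm]; exact Multiset.mem_cons_of_mem hr')
  calc w (z - r₀) * w (m.map fun r => z - r).prod * (α ^ m.card * α) =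
      (w (z - r₀) * α) * (w (m.map fun r => z - r).prod * α ^ m.card) := by ring
    _ ≤ (ε * U) * U ^ m.card := mul_le_mul h₀ h4 (mul_nonneg (w.nonneg _) (by positivity))
        (by positivity)
    _ = _ := by ring

end

end Pool.Agent.V5helper58.HN
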