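import Pool.Agent.H951R3.PH.D2
import Pool.Agent.H951R3.PB.F1

/-!
# Norms and absolute values on the algebraic closure
-/

set_option autoImplicit false

namespace Pool.Agent.V5helper58.HN

open Real NumberField Polynomial
open Pool.Agent.H951R3 Pool.Agent.H951R3.PH

universe u

section

variable {K : Type u} [Field K]

/-- the absolute value `w ∘ σ` -/
noncomputable def cmp (w : AbsoluteValue (AlgebraicClosure K) ℝ)
    (σ : AlgebraicClosure K ≃ₐ[K] AlgebraicClosure K) : AbsoluteValue (AlgebraicClosure K) ℝ :=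
  w.comp (f := (σ : AlgebraicClosure K →+* AlgebraicClosure K)) σ.injective

theorem cmp_apply (w : AbsoluteValue (AlgebraicClosure K) ℝ)
    (σ : AlgebraicClosure K ≃ₐ[K] AlgebraicClosure K) (x : AlgebraicClosure K) :
    cmp w σ x = w (σ x) := rfl

theorem ext_cmp {v : AbsoluteValue K ℝ} {w : AbsoluteValue (AlgebraicClosure K) ℝ}
    (h : PB.Ext v w) (σ : AlgebraicClosure K ≃ₐ[K] AlgebraicClosure K) :
    PB.Ext v (cmp w σ) := by
  intro x
  rw [cmp_apply, AlgEquiv.commutes]
  exact h x

/-- A nonzero element of the algebraic closure has a nonzero norm. -/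
theorem exists_norm (Δ : AlgebraicClosure K) (hΔ : Δ ≠ 0) : ∃ (N₀ : K) (n : ℕ), N₀ ≠ 0 ∧ 1 ≤ n ∧
    ∀ (v : AbsoluteValue K ℝ) (w : AbsoluteValue (AlgebraicClosure K) ℝ), PB.Ext v w →
      ∀ b : ℝ, (∀ σ : AlgebraicClosure K ≃ₐ[K] AlgebraicClosure K, log (w (σ Δ)) ≤ b) →
        log (v N₀) ≤ n * b := by
  classical
  have hint : IsIntegral K Δ := Algebra.IsIntegral.isIntegral Δ
  set f := minpoly K Δ with hf
  have hmonic : f.Monic := minpoly.monic hint
  have hsplit : (f.map (algebraMap K (AlgebraicClosure K))).Splits :=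
    IsAlgClosed.splits _
  refine ⟨f.coeff 0, f.natDegree, minpoly.coeff_zero_ne_zero hint hΔ,
    minpoly.natDegree_pos hint, ?_⟩
  intro v w hw b hb
  set m := (f.map (algebraMap K (AlgebraicClosure K))).roots with hm
  have hcard : m.card = f.natDegree := by
    rw [hm, ← hsplit.natDegree_eq_card_roots, natDegree_map]
  have hroot : ∀ r ∈ m, ∃ σ : AlgebraicClosure K ≃ₐ[K] AlgebraicClosure K, r = σ Δ := by
    intro r hr
    rw [hm, mem_roots_map hmonic.ne_zero] at hr
    obtain ⟨σ, hσ⟩ := minpoly.exists_algEquiv_of_root' (K := K) (x := r) (y := Δ)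
      (Algebra.IsAlgebraic.isAlgebraic Δ) (by rw [aeval_def]; exact hr)
    exact ⟨σ, hσ.symm⟩
  have hprod : w (algebraMap K (AlgebraicClosure K) (f.coeff 0)) = (m.map fun r => w r).prod := by
    have h1 : algebraMap K (AlgebraicClosure K) (f.coeff 0) =
        (f.map (algebraMap K (AlgebraicClosure K))).coeff 0 := by rw [coeff_map]
    rw [h1, hsplit.coeff_zero_eq_prod_roots_of_monic (hmonic.map _), map_mul, map_pow,
      AbsoluteValue.map_neg, map_one, one_pow, one_mul, ← hm, map_multiset_prod]
  have hpos : ∀ r ∈ m, 0 < w r := by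
    intro r hr
    obtain ⟨σ, rfl⟩ := hroot r hr
    exact w.pos (by simpa using hΔ)
  rw [← hw, hprod]
  have hlog : log (m.map fun r => w r).prod = (m.map fun r => log (w r)).sum := by
    clear_value m
    clear hcard hroot hprod hm
    induction m using Multiset.induction_on with
    | empty => simp
    | cons a s ih =>
      rw [Multiset.map_cons, Multiset.map_cons, Multiset.prod_cons, Multiset.sum_cons,
        Real.log_mul, ih fun r hr => hpos r (Multiset.mem_cons_of_mem hr)]
      · exact (hpos a (Multiset.mem_cons_self a s)).ne'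
      · refine Multiset.prod_ne_zero fun h => ?_
        obtain ⟨r, hr, hr0⟩ := Multiset.mem_map.1 h
        exact (hpos r (Multiset.mem_cons_of_mem hr)).ne' hr0
  rw [hlog]
  calc (m.map fun r => log (w r)).sum ≤ (m.map fun r => log (w r)).card • b := by
        refine Multiset.sum_le_card_nsmul _ _ ?_
        intro x hx
        obtain ⟨r, hr, rfl⟩ := Multiset.mem_map.1 hx
        obtain ⟨σ, rfl⟩ := hroot r hr
        exact hb σ
    _ = f.natDegree * b := by
        rw [Multiset.card_map, hcard, nsmul_eq_mul]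

end

section places

variable {K : Type u} [Field K] [NumberField K]

theorem w_add (p : Pl K) {w : AbsoluteValue (AlgebraicClosure K) ℝ} (h : PB.Ext (pv p) w)
    (x y : AlgebraicClosure K) : w (x + y) ≤ pA p * max (w x) (w y) := by
  rcases p with v | v
  · exact D2_add w x y
  · change w (x + y) ≤ 1 * max (w x) (w y)
    rw [one_mul]
    exact PB.ext_na v w h x y

theorem detBd_ext (N : ℕ) (p : Pl K) {w : AbsoluteValue (AlgebraicClosure K) ℝ}
    (h : PB.Ext (pv p) w) : DetBd w N (pk N p) := by
  rcases p with v | v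
  · exact detBd_fact w N
  · exact detBd_na (PB.ext_na v w h) N

omit [NumberField K] in
theorem al_ext {v : AbsoluteValue K ℝ} {w : AbsoluteValue (AlgebraicClosure K) ℝ}
    (h : PB.Ext v w) (d : ℕ) (F : K[X]) :
    al w d (F.map (algebraMap K (AlgebraicClosure K))) = al v d F := by
  unfold al
  rw [coeff_map, h]

omit [NumberField K] in
theorem Tv_ext {v : AbsoluteValue K ℝ} {w : AbsoluteValue (AlgebraicClosure K) ℝ}
    (h : PB.Ext v w) (d : ℕ) (F : K[X]) :
    Tv w d (F.map (algebraMap K (AlgebraicClosure K))) = Tv v d F := by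
  unfold Tv
  simp only [coeff_map]
  rw [h]
  congr 1
  refine iSup_congr fun j => ?_
  rw [h]

end places

end Pool.Agent.V5helper58.HN
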