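import Pool.Agent.H951R3.PH.C2

/-!
# Local estimates for the interpolation determinant, with small polynomials
-/

set_option autoImplicit false

namespace Pool.Agent.V5helper58.HN

open Real NumberField Polynomial
open Pool.Agent.H951R3 Pool.Agent.H951R3.PH

universe u

/-- leading term of `G(f)` -/
theorem lt_eval {K : Type u} [Field K] {A : Type*} [CommRing A] [Algebra K A] {G : K[X]}
    (hG : G.Monic) (hG1 : 1 ≤ G.natDegree) {x y f : A} {a b : ℕ} (hab : 1 ≤ a + b)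
    (h : LT K x y f 1 a b) :
    LT K x y (aeval f G) 1 (G.natDegree * a) (G.natDegree * b) := by
  have h1 := lt_aeval hG1 rfl hab h
  have h2 : G.coeff G.natDegree = 1 := hG
  rw [h2, one_pow, one_mul] at h1
  exact h1

theorem lt_x {K : Type u} [Field K] {A : Type*} [CommRing A] [Algebra K A] (x y : A) :
    LT K x y x 1 1 0 := by
  unfold PH.LT
  rw [pow_one, pow_zero, mul_one, one_smul, sub_self]
  exact Submodule.zero_mem _

theorem lt_y {K : Type u} [Field K] {A : Type*} [CommRing A] [Algebra K A] (x y : A) :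
    LT K x y y 1 0 1 := by
  unfold PH.LT
  rw [pow_one, pow_zero, one_mul, one_smul, sub_self]
  exact Submodule.zero_mem _

/-- the element with leading term `x^a y^b` made of the monic polynomials `G` and `H` -/
theorem lt_block {K : Type u} [Field K] {A : Type*} [CommRing A] [Algebra K A] {G H : K[X]}
    (hG : G.Monic) (hG1 : 1 ≤ G.natDegree) (hH : H.Monic) (hH1 : 1 ≤ H.natDegree) (x y : A)
    (a b : ℕ) :
    LT K x y ((aeval x G ^ (a / G.natDegree) * x ^ (a % G.natDegree)) *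
      (aeval y H ^ (b / H.natDegree) * y ^ (b % H.natDegree))) 1 a b := by
  have h1 := lt_mul (lt_pow (lt_eval hG hG1 (x := x) (y := y) (by omega) (lt_x x y))
    (a / G.natDegree)) (lt_pow (lt_x (K := K) x y) (a % G.natDegree))
  have h2 := lt_mul (lt_pow (lt_eval hH hH1 (x := x) (y := y) (by omega) (lt_y x y))
    (b / H.natDegree)) (lt_pow (lt_y (K := K) x y) (b % H.natDegree))
  have h3 := lt_mul h1 h2
  simp only [one_pow, mul_one, mul_zero, add_zero, zero_add] at h3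
  have ha : a / G.natDegree * G.natDegree + a % G.natDegree = a := by
    rw [mul_comm]
    exact Nat.div_add_mod a _
  have hb : b / H.natDegree * H.natDegree + b % H.natDegree = b := by
    rw [mul_comm]
    exact Nat.div_add_mod b _
  rw [ha, hb] at h3
  exact h3

/-- real estimate for the quotient -/
theorem div_ge {a g m : ℕ} (hg : 1 ≤ g) (hgm : g ≤ m) : (a : ℝ) / m - 1 ≤ ((a / g : ℕ) : ℝ) := by
  have h1 : a < g * (a / g + 1) := by
    have := Nat.div_add_mod a g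
    have := Nat.mod_lt a (show 0 < g by omega)
    nlinarith
  have h2 : (a : ℝ) < g * (((a / g : ℕ) : ℝ) + 1) := by exact_mod_cast h1
  have hm : (0 : ℝ) < m := by exact_mod_cast (by omega : 0 < m)
  have h3 : (g : ℝ) * (((a / g : ℕ) : ℝ) + 1) ≤ m * (((a / g : ℕ) : ℝ) + 1) := by
    refine mul_le_mul_of_nonneg_right (by exact_mod_cast hgm) (by positivity)
  have h4 : (a : ℝ) / m ≤ ((a / g : ℕ) : ℝ) + 1 := by
    rw [div_le_iff₀ hm]
    linarith
  linarith

theorem block_le {K : Type u} [Field K] (v : AbsoluteValue K ℝ) {G : K[X]}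
    (hG1 : 1 ≤ G.natDegree) {m : ℕ} (hGm : G.natDegree ≤ m) {z : K} {α S γ : ℝ} (hα : 0 < α)
    (hS : 1 ≤ S) (hz : v z * α ≤ S) (hγ : 0 ≤ γ)
    (hG : v (G.eval z) * α ^ G.natDegree ≤ exp (-γ)) (a : ℕ) :
    v (G.eval z ^ (a / G.natDegree) * z ^ (a % G.natDegree)) ≤
      exp (-γ * ((a : ℝ) / m - 1) + m * log S - a * log α) := by
  set g := G.natDegree with hg
  have h0 : 0 < S := by linarith
  have hlS : 0 ≤ log S := log_nonneg hS
  have e1 : v (G.eval z) ≤ exp (-γ - g * log α) := by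
    rw [exp_sub, mul_comm (g : ℝ), exp_mul, exp_log hα, rpow_natCast]
    exact (le_div_iff₀ (pow_pos hα _)).2 hG
  have e2 : v z ≤ exp (log S - log α) := by
    rw [exp_sub, exp_log h0, exp_log hα]
    exact (le_div_iff₀ hα).2 hz
  rw [map_mul, map_pow, map_pow]
  calc v (G.eval z) ^ (a / g) * v z ^ (a % g)
      ≤ exp (-γ - g * log α) ^ (a / g) * exp (log S - log α) ^ (a % g) :=
        mul_le_mul (pow_le_pow_left₀ (v.nonneg _) e1 _) (pow_le_pow_left₀ (v.nonneg _) e2 _)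
          (pow_nonneg (v.nonneg _) _) (by positivity)
    _ = exp (((a / g : ℕ) : ℝ) * (-γ - g * log α) + ((a % g : ℕ) : ℝ) * (log S - log α)) := by
        rw [exp_add, exp_nat_mul, exp_nat_mul]
    _ ≤ _ := by
        apply exp_le_exp.2
        have h1 := div_ge (a := a) hG1 hGm
        have h2 : ((a % g : ℕ) : ℝ) ≤ m := by
          have := Nat.mod_lt a (show 0 < g by omega)
          exact_mod_cast (by omega : a % g ≤ m)
        have h3 : (g : ℝ) * ((a / g : ℕ) : ℝ) + ((a % g : ℕ) : ℝ) = a := by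
          exact_mod_cast Nat.div_add_mod a g
        have h4 : ((a % g : ℕ) : ℝ) * log S ≤ m * log S := mul_le_mul_of_nonneg_right h2 hlS
        have h5 : γ * ((a : ℝ) / m - 1) ≤ γ * ((a / g : ℕ) : ℝ) := mul_le_mul_of_nonneg_left h1 hγ
        have h6 : (g : ℝ) * ((a / g : ℕ) : ℝ) * log α + ((a % g : ℕ) : ℝ) * log α = a * log α := by
          rw [← add_mul, h3]
        nlinarith

/-- gain from small monic polynomials -/
theorem gain_det {K : Type u} [Field K] {N : ℕ} (x y : Fin N → K) (e : Fin N → ℕ × ℕ)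
    (Δ : K) (hΔ : Δ ≠ 0)
    (hid : ∀ (c : Fin N → K) (p : Fin N → Fin N → K),
        (∀ i, LT K x y (p i) (c i) (e i).1 (e i).2) → (Matrix.of p).det = (∏ i, c i) * Δ)
    (v : AbsoluteValue K ℝ) {κ S γ α : ℝ} {m : ℕ} (G H : K[X]) (hκ : DetBd v N κ) (hα : 0 < α)
    (hS : 1 ≤ S) (hx : ∀ i, v (x i) * α ≤ S) (hy : ∀ i, v (y i) * α ≤ S) (hγ : 0 ≤ γ)
    (hG : G.Monic) (hG1 : 1 ≤ G.natDegree) (hGm : G.natDegree ≤ m)
    (hH : H.Monic) (hH1 : 1 ≤ H.natDegree) (hHm : H.natDegree ≤ m)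
    (hGx : ∀ i, v (G.eval (x i)) * α ^ G.natDegree ≤ exp (-γ))
    (hHy : ∀ i, v (H.eval (y i)) * α ^ H.natDegree ≤ exp (-γ)) :
    log (v Δ) ≤ log κ - γ * (((∑ i, ((e i).1 + (e i).2) : ℕ) : ℝ) / m - 2 * N) +
      2 * N * m * log S - ((∑ i, ((e i).1 + (e i).2) : ℕ) : ℝ) * log α := by
  have hid' := hid (fun _ => 1) (fun i =>
    (aeval x G ^ ((e i).1 / G.natDegree) * x ^ ((e i).1 % G.natDegree)) *
      (aeval y H ^ ((e i).2 / H.natDegree) * y ^ ((e i).2 % H.natDegree)))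
    (fun i => lt_block hG hG1 hH hH1 x y _ _)
  rw [Finset.prod_const_one, one_mul] at hid'
  have hev : ∀ (G : K[X]) (x : Fin N → K) (j : Fin N), (aeval x G) j = G.eval (x j) := by
    intro G x j
    have h2 := Polynomial.map_aeval_eq_aeval_map (φ := RingHom.id K)
      (ψ := (Pi.evalRingHom (fun _ : Fin N => K) j)) (by ext; simp) G x
    rw [Polynomial.map_id] at h2
    exact h2
  have hb := hκ.2 (fun i =>
    (aeval x G ^ ((e i).1 / G.natDegree) * x ^ ((e i).1 % G.natDegree)) *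
      (aeval y H ^ ((e i).2 / H.natDegree) * y ^ ((e i).2 % H.natDegree)))
    (fun i => exp (-γ * ((((e i).1 : ℝ) + (e i).2) / m - 2) + 2 * m * log S -
      (((e i).1 : ℝ) + (e i).2) * log α)) (by
    intro i j
    have h1 := block_le v hG1 hGm hα hS (hx j) hγ (hGx j) (e i).1
    have h2 := block_le v hH1 hHm hα hS (hy j) hγ (hHy j) (e i).2
    rw [Pi.mul_apply, Pi.mul_apply, Pi.mul_apply, Pi.pow_apply, Pi.pow_apply, Pi.pow_apply,
      Pi.pow_apply, hev, hev, map_mul]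
    refine (mul_le_mul h1 h2 (v.nonneg _) (exp_pos _).le).trans (le_of_eq ?_)
    rw [← exp_add]
    congr 1
    ring)
  rw [hid'] at hb
  have hκ0 : 0 < κ := lt_of_lt_of_le one_pos hκ.1
  have hb2 := Real.log_le_log (v.pos hΔ) hb
  rw [Real.log_mul hκ0.ne' (Finset.prod_pos fun i _ => exp_pos _).ne',
    Real.log_prod (fun i _ => (exp_pos _).ne')] at hb2
  simp only [log_exp] at hb2
  refine hb2.trans (le_of_eq ?_)
  rw [Finset.sum_sub_distrib, Finset.sum_add_distrib, Finset.sum_const, Finset.card_univ,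
    Fintype.card_fin, nsmul_eq_mul, ← Finset.mul_sum, ← Finset.sum_mul, Finset.sum_sub_distrib,
    Finset.sum_const, Finset.card_univ, Fintype.card_fin, nsmul_eq_mul, ← Finset.sum_div]
  push_cast
  ring

open C2 in
theorem pack {K : Type u} [Field K] {N : ℕ} {F : K[X]} {d : ℕ} (hd : 2 ≤ d)
    (hF : F.natDegree = d) {δ : K} (hδ : δ ≠ 0) {x : ℤ → Fin N → K} (hx : Orb F δ x)
    (hinj : ∀ i j, x 0 i = x 0 j → x 1 i = x 1 j → i = j) :
    ∃ (Δ : K) (Λ σ E : ℕ), Δ ≠ 0 ∧ (4 ≤ N → (N : ℝ) * √N ≤ 8 * Λ) ∧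
      (σ : ℝ) ≤ 2 * N * ((d : ℝ) - 1) * (Nat.log d N + 1) ∧ (d - 1) * E ≤ Λ ∧
      (∀ (v : AbsoluteValue K ℝ) (κ S : ℝ), DetBd v N κ → 1 ≤ S →
        (∀ n i, v (x n i) * al v d F ≤ S) →
        log (v Δ) ≤ log κ + σ * log S - Λ / ((d : ℝ) - 1) * log (v (F.coeff d)) +
          E * log (v δ)) ∧
      (∀ (v : AbsoluteValue K ℝ) (κ S γ : ℝ) (m : ℕ) (G H : K[X]), DetBd v N κ → 1 ≤ S →
        (∀ n i, v (x n i) * al v d F ≤ S) → 0 ≤ γ →
        G.Monic → 1 ≤ G.natDegree → G.natDegree ≤ m →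
        H.Monic → 1 ≤ H.natDegree → H.natDegree ≤ m →
        (∀ i, v (G.eval (x 0 i)) * al v d F ^ G.natDegree ≤ exp (-γ)) →
        (∀ i, v (H.eval (x 1 i)) * al v d F ^ H.natDegree ≤ exp (-γ)) →
        log (v Δ) ≤ log κ - γ * ((Λ : ℝ) / m - 2 * N) + 2 * N * m * log S -
          Λ / ((d : ℝ) - 1) * log (v (F.coeff d))) := by
  obtain ⟨e, he, hlt, hdet, hid⟩ := interp (x 0) (x 1) hinj
  have hb := fun i : Fin N => basis hd hF hδ hx (e i).1 (e i).2
  choose E1 E2 s1 s2 p h1 h2 h3 h4 h5 h6 using hb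
  have hd1 : ((d - 1 : ℕ) : ℝ) = (d : ℝ) - 1 := by
    rw [Nat.cast_sub (by omega)]
    simp
  have hd2 : (0 : ℝ) < (d : ℝ) - 1 := by
    have : (2 : ℝ) ≤ d := by exact_mod_cast hd
    linarith
  set Δ : K := (Matrix.of fun i j => x 0 j ^ (e i).1 * x 1 j ^ (e i).2).det with hΔ
  set Λ : ℕ := ∑ i, ((e i).1 + (e i).2) with hΛ
  refine ⟨Δ, Λ, ∑ i, (s1 i + s2 i), ∑ i, E1 i, hdet, fun h4 => comb h4 e he, ?_, ?_, ?_, ?_⟩
  · have hs : ∀ i, ((s1 i + s2 i : ℕ) : ℝ) ≤ 2 * ((d : ℝ) - 1) * (Nat.log d N + 1) := by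
      intro i
      have ha : Nat.log d (e i).1 ≤ Nat.log d N := Nat.log_mono_right (by have := hlt i; omega)
      have hb : Nat.log d (e i).2 ≤ Nat.log d N := Nat.log_mono_right (by have := hlt i; omega)
      have h7 : s1 i + s2 i ≤ 2 * ((d - 1) * (Nat.log d N + 1)) := by
        have h8 : (d - 1) * (Nat.log d (e i).1 + 1) ≤ (d - 1) * (Nat.log d N + 1) :=
          Nat.mul_le_mul_left _ (by omega)
        have h9 : (d - 1) * (Nat.log d (e i).2 + 1) ≤ (d - 1) * (Nat.log d N + 1) :=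
          Nat.mul_le_mul_left _ (by omega)
        have := h3 i
        have := h4 i
        omega
      have h10 : ((s1 i + s2 i : ℕ) : ℝ) ≤ ((2 * ((d - 1) * (Nat.log d N + 1)) : ℕ) : ℝ) := by
        exact_mod_cast h7
      rw [Nat.cast_mul, Nat.cast_mul, hd1] at h10
      push_cast at h10 ⊢
      linarith
    rw [Nat.cast_sum]
    calc ∑ i, ((s1 i + s2 i : ℕ) : ℝ) ≤ ∑ _i : Fin N, 2 * ((d : ℝ) - 1) * (Nat.log d N + 1) :=
          Finset.sum_le_sum fun i _ => hs i
      _ = 2 * N * ((d : ℝ) - 1) * (Nat.log d N + 1) := by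
          rw [Finset.sum_const, Finset.card_univ, Fintype.card_fin, nsmul_eq_mul]
          ring
  · rw [Finset.mul_sum, hΛ]
    apply Finset.sum_le_sum
    intro i _
    have := h1 i
    omega
  · intro v κ S hκ hS hxS
    have hF0 := coeff_pos v hd hF
    have hal := C2.al_pos v hd hF
    have hδ0 : 0 < v δ := v.pos hδ
    have hM : ∀ n i, v (x n i) ≤ S / al v d F := fun n i => (le_div_iff₀ hal).2 (hxS n i)
    have hS0 : 0 < S / al v d F := by positivity
    have hΔ0 : 0 < v Δ := v.pos hdet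
    have hκ0 : 0 < κ := lt_of_lt_of_le one_pos hκ.1
    have hb1 := hκ.2 p (fun i => (S / al v d F) ^ (s1 i + s2 i)) fun i j => h6 i v _ hM j
    rw [hid (fun i => (F.coeff d / δ) ^ E1 i * F.coeff d ^ E2 i) p h5,
      Finset.prod_pow_eq_pow_sum, map_mul, map_prod] at hb1
    have hc0 : ∀ i, 0 < v ((F.coeff d / δ) ^ E1 i * F.coeff d ^ E2 i) := by
      intro i
      rw [map_mul, map_pow, map_pow, map_div₀]
      positivity
    have hlc : ∀ i, log (v ((F.coeff d / δ) ^ E1 i * F.coeff d ^ E2 i)) =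
        ((E1 i : ℝ) + E2 i) * log (v (F.coeff d)) - E1 i * log (v δ) := by
      intro i
      rw [map_mul, map_pow, map_pow, map_div₀, Real.log_mul (by positivity) (by positivity),
        Real.log_pow, Real.log_pow, Real.log_div hF0.ne' hδ0.ne']
      ring
    have hb2 := Real.log_le_log (mul_pos (Finset.prod_pos fun i _ => hc0 i) hΔ0) hb1
    rw [Real.log_mul (Finset.prod_pos fun i _ => hc0 i).ne' hΔ0.ne',
      Real.log_prod (fun i _ => (hc0 i).ne'), Real.log_mul hκ0.ne' (by positivity),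
      Real.log_pow, Real.log_div (by positivity) hal.ne', log_al v hd hF] at hb2
    simp_rw [hlc] at hb2
    rw [Finset.sum_sub_distrib, ← Finset.sum_mul, ← Finset.sum_mul] at hb2
    have hsum : ((d : ℝ) - 1) * (∑ i, ((E1 i : ℝ) + E2 i)) + ((∑ i, (s1 i + s2 i) : ℕ) : ℝ) =
        (Λ : ℝ) := by
      rw [hΛ]
      push_cast
      rw [Finset.mul_sum, ← Finset.sum_add_distrib]
      apply Finset.sum_congr rfl
      intro i _
      have h7 : (((d - 1) * E1 i + s1 i : ℕ) : ℝ) = ((e i).1 : ℝ) := by exact_mod_cast h1 i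
      have h8 : (((d - 1) * E2 i + s2 i : ℕ) : ℝ) = ((e i).2 : ℝ) := by exact_mod_cast h2 i
      push_cast [hd1] at h7 h8
      linarith
    have hE : ((∑ i, E1 i : ℕ) : ℝ) = ∑ i, (E1 i : ℝ) := by push_cast; rfl
    rw [hE]
    have hdiv : (Λ : ℝ) / ((d : ℝ) - 1) = (∑ i, ((E1 i : ℝ) + E2 i)) +
        ((∑ i, (s1 i + s2 i) : ℕ) : ℝ) / ((d : ℝ) - 1) := by
      rw [← hsum]
      field_simp
    rw [hdiv]
    have h9 : ((∑ i, (s1 i + s2 i) : ℕ) : ℝ) * (log (v (F.coeff d)) / ((d : ℝ) - 1)) =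
        ((∑ i, (s1 i + s2 i) : ℕ) : ℝ) / ((d : ℝ) - 1) * log (v (F.coeff d)) := by ring
    rw [mul_sub, h9] at hb2
    rw [add_mul]
    linarith
  · intro v κ S γ m G H hκ hS hxS hγ hG hG1 hGm hH hH1 hHm hGx hHy
    have hal := C2.al_pos v hd hF
    have h := gain_det (x 0) (x 1) e Δ hdet hid v G H hκ hal hS (hxS 0) (hxS 1) hγ hG hG1 hGm
      hH hH1 hHm hGx hHy
    rw [log_al v hd hF] at h
    refine h.trans (le_of_eq ?_)
    rw [← hΛ]
    ring

end Pool.Agent.V5helper58.HN
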