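import Pool.Agent.H951R3.PH.D3
import Pool.Agent.V5helper58.HN.Norm
import Pool.Agent.V5helper58.HN.Pack

/-!
# The global inequality for points over the algebraic closure
-/

set_option autoImplicit false

namespace Pool.Agent.V5helper58.HN

open Real NumberField Polynomial
open Pool.Agent.H951R3 Pool.Agent.H951R3.PH

universe u

/-- the local gain condition at `p` for the points `x 0 i`, `x 1 i` -/
def Gain {K : Type u} [Field K] [NumberField K] (d : ℕ) (F : K[X]) (p : Pl K)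
    (w : AbsoluteValue (AlgebraicClosure K) ℝ) (m : ℕ) (γ : ℝ) {ι : Type*} (s : Set ι)
    (x : ι → AlgebraicClosure K) : Prop :=
  ∀ σ : AlgebraicClosure K ≃ₐ[K] AlgebraicClosure K, ∃ G : (AlgebraicClosure K)[X],
    G.Monic ∧ 1 ≤ G.natDegree ∧ G.natDegree ≤ m ∧
      ∀ i ∈ s, w (σ (G.eval (x i))) * al (pv p) d F ^ G.natDegree ≤ exp (-γ)

theorem core2 {K : Type u} [Field K] [NumberField K] {d : ℕ} (hd : 2 ≤ d) {F : K[X]}
    (hF : F.natDegree = d) {δ : K} (hδ : δ ≠ 0) {N : ℕ} {x : ℤ → Fin N → AlgebraicClosure K}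
    (hx : Orb (F.map (algebraMap K (AlgebraicClosure K))) (algebraMap K (AlgebraicClosure K) δ) x)
    (hinj : ∀ i j, x 0 i = x 0 j → x 1 i = x 1 j → i = j)
    (w : Pl K → AbsoluteValue (AlgebraicClosure K) ℝ) (hw : ∀ p, PB.Ext (pv p) (w p))
    (S : Pl K → ℝ) (hS1 : ∀ p, 1 ≤ S p) (P : Finset (Pl K)) (hSP : ∀ p, p ∉ P → S p = 1)
    (hS : ∀ p (σ : AlgebraicClosure K ≃ₐ[K] AlgebraicClosure K) n i,
      w p (σ (x n i)) * al (pv p) d F ≤ S p)
    (T : Finset (Pl K)) (γ : Pl K → ℝ) (hγ : ∀ p ∈ T, 0 ≤ γ p) {m : ℕ}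
    (h0 : ∀ p ∈ T, Gain d F p (w p) m (γ p) Set.univ (x 0))
    (h1 : ∀ p ∈ T, Gain d F p (w p) m (γ p) Set.univ (x 1)) :
    ∃ Λ : ℕ, (4 ≤ N → (N : ℝ) * √N ≤ 8 * Λ) ∧
      Λ * ∑ p ∈ T, pm p * (γ p / m - |log (pv p δ)| / ((d : ℝ) - 1)) ≤
        Module.finrank ℚ K * log N.factorial +
          2 * N * ((d : ℝ) - 1) * (Nat.log d N + 1) * ∑ p ∈ P, pm p * log (S p) +
          2 * N * ∑ p ∈ T, pm p * (γ p + m * log (S p)) := by
  classical
  set alg := algebraMap K (AlgebraicClosure K) with halg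
  have hFm : (F.map alg).natDegree = d := by rw [natDegree_map, hF]
  have hδm : alg δ ≠ 0 := by
    rw [halg, Ne, map_eq_zero]
    exact hδ
  obtain ⟨Δ, Λ, τ, E, hΔ, hN, hτ, hE, hloss, hgain⟩ := pack hd hFm hδm hx hinj
  obtain ⟨N₀, n, hN₀, hn, hnorm⟩ := exists_norm (K := K) Δ hΔ
  have hd1 : (0 : ℝ) < (d : ℝ) - 1 := by
    have : (2 : ℝ) ≤ d := by exact_mod_cast hd
    linarith
  have ha : F.coeff d ≠ 0 := by
    rw [← hF]
    have hF0 : F ≠ 0 := by
      rintro rfl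
      rw [natDegree_zero] at hF
      omega
    exact leadingCoeff_ne_zero.mpr hF0
  obtain ⟨q⟩ : Nonempty (Pl K) := ⟨Sum.inl (Classical.arbitrary _)⟩
  obtain ⟨P', hPP, hqP, hinf, hP'⟩ := D3_places hN₀ ha hδ (P ∪ T) q
  have sN := prod_formula hN₀ P' hinf fun p hp => (hP' p hp).1
  have sa := prod_formula ha P' hinf fun p hp => (hP' p hp).2.1
  have sδ := prod_formula hδ P' hinf fun p hp => (hP' p hp).2.2
  have hPP1 : P ⊆ P' := Finset.subset_union_left.trans hPP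
  have hTP : T ⊆ P' := Finset.subset_union_right.trans hPP
  refine ⟨Λ, hN, ?_⟩
  -- local bounds
  have hb1 : ∀ p, log (pv p N₀) ≤ n * (log (pk N p) + τ * log (S p) -
      Λ / ((d : ℝ) - 1) * log (pv p (F.coeff d)) + E * log (pv p δ)) := by
    intro p
    refine hnorm _ _ (hw p) _ fun σ => ?_
    have hext := ext_cmp (hw p) σ
    have h := hloss (cmp (w p) σ) (pk N p) (S p) (detBd_ext N p hext) (hS1 p) (by
      intro n i
      rw [al_ext hext, cmp_apply]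
      exact hS p σ n i)
    rw [coeff_map, hext, hext, cmp_apply] at h
    exact h
  have hb2 : ∀ p ∈ T, log (pv p N₀) ≤ n * (log (pk N p) - γ p * ((Λ : ℝ) / m - 2 * N) +
      2 * N * m * log (S p) - Λ / ((d : ℝ) - 1) * log (pv p (F.coeff d))) := by
    intro p hp
    refine hnorm _ _ (hw p) _ fun σ => ?_
    have hext := ext_cmp (hw p) σ
    obtain ⟨G, hG1, hG2, hG3, hG4⟩ := h0 p hp σ
    obtain ⟨H, hH1, hH2, hH3, hH4⟩ := h1 p hp σ
    have h := hgain (cmp (w p) σ) (pk N p) (S p) (γ p) m G H (detBd_ext N p hext) (hS1 p) (by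
      intro n i
      rw [al_ext hext, cmp_apply]
      exact hS p σ n i) (hγ p hp) hG1 hG2 hG3 hH1 hH2 hH3 (by
      intro i
      rw [al_ext hext, cmp_apply]
      exact hG4 i (Set.mem_univ i)) (by
      intro i
      rw [al_ext hext, cmp_apply]
      exact hH4 i (Set.mem_univ i))
    rw [coeff_map, hext, cmp_apply] at h
    exact h
  -- summation
  have hn0 : (0 : ℝ) < n := by exact_mod_cast hn
  have hsum1 : ∑ p ∈ P' \ T, pm p * log (pv p N₀) ≤ ∑ p ∈ P' \ T, n * (pm p * log (pk N p) +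
      τ * (pm p * log (S p)) - Λ / ((d : ℝ) - 1) * (pm p * log (pv p (F.coeff d))) +
        E * (pm p * log (pv p δ))) := by
    refine Finset.sum_le_sum fun p _ => ?_
    have := mul_le_mul_of_nonneg_left (hb1 p) (D3_pm_pos p).le
    linarith
  have hsum2 : ∑ p ∈ T, pm p * log (pv p N₀) ≤ ∑ p ∈ T, n * (pm p * log (pk N p) -
      (pm p * γ p) * ((Λ : ℝ) / m - 2 * N) + 2 * N * m * (pm p * log (S p)) -
        Λ / ((d : ℝ) - 1) * (pm p * log (pv p (F.coeff d)))) := by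
    refine Finset.sum_le_sum fun p hp => ?_
    have := mul_le_mul_of_nonneg_left (hb2 p hp) (D3_pm_pos p).le
    linarith
  rw [← Finset.mul_sum] at hsum1 hsum2
  have eN := Finset.sum_sdiff (f := fun p => pm p * log (pv p N₀)) hTP
  have ea := Finset.sum_sdiff (f := fun p => pm p * log (pv p (F.coeff d))) hTP
  have eδ := Finset.sum_sdiff (f := fun p => pm p * log (pv p δ)) hTP
  have ek := Finset.sum_sdiff (f := fun p => pm p * log (pk N p)) hTP
  rw [sN] at eN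
  rw [sa] at ea
  rw [sδ] at eδ
  rw [Finset.sum_add_distrib, Finset.sum_sub_distrib, Finset.sum_add_distrib, ← Finset.mul_sum,
    ← Finset.mul_sum, ← Finset.mul_sum] at hsum1
  rw [Finset.sum_sub_distrib, Finset.sum_add_distrib, Finset.sum_sub_distrib, ← Finset.sum_mul,
    ← Finset.mul_sum, ← Finset.mul_sum] at hsum2
  have hk := sum_pk (K := K) N P'
  have hSP' : ∑ p ∈ P' \ T, pm p * log (S p) ≤ ∑ p ∈ P, pm p * log (S p) := by
    have h2 : ∑ p ∈ P' \ T, pm p * log (S p) ≤ ∑ p ∈ P', pm p * log (S p) :=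
      Finset.sum_le_sum_of_subset_of_nonneg Finset.sdiff_subset fun p _ _ =>
        mul_nonneg (D3_pm_pos p).le (log_nonneg (hS1 p))
    have h3 : ∑ p ∈ P, pm p * log (S p) = ∑ p ∈ P', pm p * log (S p) :=
      Finset.sum_subset hPP1 fun p _ hp => by rw [hSP p hp, log_one, mul_zero]
    rw [h3]
    exact h2
  have hSnn : 0 ≤ ∑ p ∈ P, pm p * log (S p) :=
    Finset.sum_nonneg fun p _ => mul_nonneg (D3_pm_pos p).le (log_nonneg (hS1 p))
  have hσS : (τ : ℝ) * ∑ p ∈ P' \ T, pm p * log (S p) ≤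
      2 * N * ((d : ℝ) - 1) * (Nat.log d N + 1) * ∑ p ∈ P, pm p * log (S p) :=
    (mul_le_mul_of_nonneg_left hSP' (Nat.cast_nonneg τ)).trans
      (mul_le_mul_of_nonneg_right hτ hSnn)
  -- the term with `δ`
  have hE' : (E : ℝ) ≤ Λ / ((d : ℝ) - 1) := by
    rw [le_div_iff₀ hd1]
    have h2 : (((d - 1 : ℕ) : ℝ)) * E ≤ Λ := by exact_mod_cast hE
    rw [Nat.cast_sub (by omega), Nat.cast_one] at h2
    linarith
  have hδterm : (E : ℝ) * ∑ p ∈ P' \ T, pm p * log (pv p δ) ≤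
      Λ / ((d : ℝ) - 1) * ∑ p ∈ T, pm p * |log (pv p δ)| := by
    have e1 : ∑ p ∈ P' \ T, pm p * log (pv p δ) = -∑ p ∈ T, pm p * log (pv p δ) := by linarith
    have e2 : -∑ p ∈ T, pm p * log (pv p δ) ≤ ∑ p ∈ T, pm p * |log (pv p δ)| := by
      rw [← Finset.sum_neg_distrib]
      refine Finset.sum_le_sum fun p _ => ?_
      rw [← mul_neg]
      exact mul_le_mul_of_nonneg_left (neg_le_abs _) (D3_pm_pos p).le
    have e3 : 0 ≤ ∑ p ∈ T, pm p * |log (pv p δ)| :=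
      Finset.sum_nonneg fun p _ => mul_nonneg (D3_pm_pos p).le (abs_nonneg _)
    rw [e1]
    calc (E : ℝ) * -∑ p ∈ T, pm p * log (pv p δ) ≤ E * ∑ p ∈ T, pm p * |log (pv p δ)| :=
          mul_le_mul_of_nonneg_left e2 (Nat.cast_nonneg E)
      _ ≤ _ := mul_le_mul_of_nonneg_right hE' e3
  -- conclusion
  set A1 := ∑ p ∈ P' \ T, pm p * log (pk N p)
  set A2 := ∑ p ∈ T, pm p * log (pk N p)
  set B1 := ∑ p ∈ P' \ T, pm p * log (S p)
  set B2 := ∑ p ∈ T, pm p * log (S p)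
  set C1 := ∑ p ∈ P' \ T, pm p * log (pv p (F.coeff d))
  set C2 := ∑ p ∈ T, pm p * log (pv p (F.coeff d))
  set D1 := ∑ p ∈ P' \ T, pm p * log (pv p δ)
  set G1 := ∑ p ∈ T, pm p * γ p
  set W1 := ∑ p ∈ T, pm p * |log (pv p δ)|
  have hall : 0 ≤ (n : ℝ) * ((A1 + A2) + τ * B1 - Λ / ((d : ℝ) - 1) * (C1 + C2) + E * D1 -
      G1 * ((Λ : ℝ) / m - 2 * N) + 2 * N * m * B2) := by
    have := add_le_add hsum1 hsum2
    rw [eN] at this
    linarith
  have hall' := nonneg_of_mul_nonneg_right hall hn0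
  rw [ea, ek] at hall'
  have e1 : ∑ p ∈ T, pm p * (γ p / m - |log (pv p δ)| / ((d : ℝ) - 1)) =
      G1 / m - W1 / ((d : ℝ) - 1) := by
    rw [Finset.sum_div, Finset.sum_div, ← Finset.sum_sub_distrib]
    refine Finset.sum_congr rfl fun p _ => ?_
    ring
  have e2 : ∑ p ∈ T, pm p * (γ p + m * log (S p)) = G1 + m * B2 := by
    rw [Finset.mul_sum, ← Finset.sum_add_distrib]
    refine Finset.sum_congr rfl fun p _ => ?_
    ring
  rw [e1, e2]
  have e3 : (Λ : ℝ) * (G1 / m - W1 / ((d : ℝ) - 1)) =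
      G1 * ((Λ : ℝ) / m) - Λ / ((d : ℝ) - 1) * W1 := by ring
  rw [e3]
  linarith

end Pool.Agent.V5helper58.HN
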