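import Mathlib

/-!
# Numerical conditions
-/

set_option autoImplicit false

namespace Pool.Agent.V5helper58.HN

open Real

theorem sep_numeric {d : ℕ} (hd : 2 ≤ d) {A₀ B T ε H s : ℝ} (hA1 : 1 ≤ A₀) (hA2 : A₀ ≤ 2)
    (hB1 : 1 ≤ B) (hT : 0 < T) (hs : log T = s) (hH : 0 ≤ H) (hB : log B ≤ H + s / 8)
    (hε : ε ≤ H + s / 8) (hbig : 8 * H + 2 * d + 13 ≤ s) (b : ℕ) :
    A₀ ^ (2 * d - 1) * B * (A₀ ^ (d + 1) * B * T) ^ (d - 1) <
      (exp (-ε) * T / A₀) ^ (d - 1) * (exp (-ε) * T / A₀) ^ (d - 1) ∧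
    (A₀ ^ 2 * B / (exp (-ε) * T / A₀) ^ (d - 1)) ^ (8 * b) * (A₀ * (A₀ ^ (d + 1) * B * T)) ^ b ≤
      exp (-(2 * b * s)) := by
  have hA0 : 0 < A₀ := by linarith
  have hB0 : 0 < B := by linarith
  set L := log A₀ with hL
  have hL0 : 0 ≤ L := log_nonneg hA1
  have hL1 : L ≤ 1 := by
    have h1 := log_le_log hA0 hA2
    have h2 := Real.log_two_lt_d9
    linarith
  set e : ℝ := (d : ℝ) - 1 with he
  have he1 : 1 ≤ e := by
    have : (2 : ℝ) ≤ d := by exact_mod_cast hd
    linarith
  have hde : (d : ℝ) = e + 1 := by rw [he]; ring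
  have hd1 : ((d - 1 : ℕ) : ℝ) = e := by
    rw [Nat.cast_sub (by omega), Nat.cast_one]
  have hd2 : ((2 * d - 1 : ℕ) : ℝ) = 2 * e + 1 := by
    rw [Nat.cast_sub (by omega), Nat.cast_mul]
    push_cast
    rw [hde]
    ring
  have hB0' : 0 ≤ log B := log_nonneg hB1
  have hs0 : 0 < s := by
    have : (0 : ℝ) ≤ d := Nat.cast_nonneg _
    linarith
  have hQ : (0 : ℝ) < exp (-ε) * T / A₀ := by positivity
  have hlQ : log (exp (-ε) * T / A₀) = -ε + s - L := by
    rw [log_div (by positivity) hA0.ne', log_mul (exp_pos _).ne' hT.ne', log_exp, hs]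
  have hS : (0 : ℝ) < A₀ ^ (d + 1) * B * T := by positivity
  have hlS : log (A₀ ^ (d + 1) * B * T) = (e + 2) * L + log B + s := by
    rw [log_mul (by positivity) hT.ne', log_mul (by positivity) hB0.ne', log_pow, hs]
    push_cast
    rw [hde]
    ring
  constructor
  · rw [← log_lt_log_iff (by positivity) (by positivity), log_mul (by positivity) (by positivity),
      log_mul (by positivity) hB0.ne', log_mul (by positivity) (by positivity), log_pow, log_pow,
      log_pow, hlQ, hlS, hd1, hd2]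
    have h1 : (2 * e + 1) * L ≤ (2 * e + 1) * 1 := mul_le_mul_of_nonneg_left hL1 (by linarith)
    have h2 : e * ((e + 2) * L + log B + s) ≤ e * ((e + 2) * 1 + (H + s / 8) + s) := by
      refine mul_le_mul_of_nonneg_left ?_ (by linarith)
      have : (e + 2) * L ≤ (e + 2) * 1 := mul_le_mul_of_nonneg_left hL1 (by linarith)
      linarith
    have h3 : e * (s - (H + s / 8) - 1) ≤ e * (-ε + s - L) :=
      mul_le_mul_of_nonneg_left (by linarith) (by linarith)
    have h4 : 0 < e * (s / 2 - 4 * H - e - 7) := by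
      refine mul_pos (by linarith) ?_
      rw [hde] at hbig
      linarith
    have h5 : H ≤ e * H := le_mul_of_one_le_left hH he1
    have h6 : s / 8 ≤ e * (s / 8) := le_mul_of_one_le_left (by positivity) he1
    nlinarith
  · have hθ : 0 < A₀ ^ 2 * B / (exp (-ε) * T / A₀) ^ (d - 1) := by positivity
    have hlθ : log (A₀ ^ 2 * B / (exp (-ε) * T / A₀) ^ (d - 1)) =
        2 * L + log B - e * (-ε + s - L) := by
      rw [log_div (by positivity) (by positivity), log_mul (by positivity) hB0.ne', log_pow,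
        log_pow, hlQ, hd1]
      push_cast
      ring
    rw [← log_le_log_iff (by positivity) (exp_pos _), log_exp, log_mul (by positivity)
      (by positivity), log_pow, log_pow, hlθ, log_mul hA0.ne' hS.ne', hlS]
    have h1 : 2 * L + log B - e * (-ε + s - L) ≤ -(s / 2) := by
      have h2 : e * (s - (H + s / 8) - 1) ≤ e * (-ε + s - L) :=
        mul_le_mul_of_nonneg_left (by linarith) (by linarith)
      have h3 : 1 * (s - (H + s / 8) - 1) ≤ e * (s - (H + s / 8) - 1) :=
        mul_le_mul_of_nonneg_right he1 (by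
          have : (0 : ℝ) ≤ d := Nat.cast_nonneg _
          linarith)
      have : (2 : ℝ) ≤ d := by exact_mod_cast hd
      linarith
    have h2 : L + ((e + 2) * L + log B + s) ≤ 2 * s := by
      have h3 : (e + 2) * L ≤ (e + 2) * 1 := mul_le_mul_of_nonneg_left hL1 (by linarith)
      rw [hde] at hbig
      linarith
    have hb0 : (0 : ℝ) ≤ b := Nat.cast_nonneg _
    push_cast
    have h4 := mul_le_mul_of_nonneg_left h1 (by positivity : (0 : ℝ) ≤ 8 * b)
    have h5 := mul_le_mul_of_nonneg_left h2 hb0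
    linarith

end Pool.Agent.V5helper58.HN
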