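import Pool.Agent.V5helper58.HN.Core
import Pool.Agent.V5helper58.HN.Far
import Pool.Agent.V5helper58.HN.Contr2

/-!
# Gain at a place of large size where the roots are separated
-/

set_option autoImplicit false

namespace Pool.Agent.V5helper58.HN

open Real NumberField Polynomial
open Pool.Agent.H951R3 Pool.Agent.H951R3.PH

universe u

/-- The roots of the centred polynomial `G` in the algebraic closure have mutual distances at least
`exp (-ε)` times the radius `T / |a|^(1/(d-1))`, for each extension of `v`. -/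
def Sep {K : Type u} [Field K] (v : AbsoluteValue K ℝ) (d : ℕ) (G : K[X]) (ε : ℝ) : Prop :=
  ∀ w : AbsoluteValue (AlgebraicClosure K) ℝ, PB.Ext v w → ∀ ρ : Fin d → AlgebraicClosure K,
    G.map (algebraMap K (AlgebraicClosure K)) =
      C (algebraMap K (AlgebraicClosure K) (G.coeff d)) * ∏ i, (X - C (ρ i)) →
    ∀ i j, i ≠ j → exp (-ε) * (Tv v d G / al v d G) ≤ w (ρ i - ρ j)

section

variable {K : Type u} [Field K]

theorem orb_comp {G : K[X]} {δ : K} {x : ℤ → AlgebraicClosure K}
    (hx : Orb (G.map (algebraMap K (AlgebraicClosure K)))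
      (algebraMap K (AlgebraicClosure K) δ) x)
    (σ : AlgebraicClosure K ≃ₐ[K] AlgebraicClosure K) :
    Orb (G.map (algebraMap K (AlgebraicClosure K)))
      (algebraMap K (AlgebraicClosure K) δ) (fun n => σ (x n)) := by
  intro n
  have h := hx n
  rw [smul_eq_mul, coe_aeval_eq_eval, eval_map_algebraMap] at h ⊢
  have h1 := congrArg σ h
  rw [map_add, map_mul, AlgEquiv.commutes] at h1
  rw [h1]
  exact (aeval_algHom_apply (σ : AlgebraicClosure K →ₐ[K] AlgebraicClosure K) (x n) G).symm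

theorem eval_comp' (f : K[X]) (z : AlgebraicClosure K)
    (σ : AlgebraicClosure K ≃ₐ[K] AlgebraicClosure K) :
    σ ((f.map (algebraMap K (AlgebraicClosure K))).eval z) =
      (f.map (algebraMap K (AlgebraicClosure K))).eval (σ z) := by
  rw [eval_map_algebraMap, eval_map_algebraMap]
  exact (aeval_algHom_apply (σ : AlgebraicClosure K →ₐ[K] AlgebraicClosure K) z f).symm

theorem root_conj {z r : AlgebraicClosure K}
    (hr : r ∈ ((minpoly K z).map (algebraMap K (AlgebraicClosure K))).roots) :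
    ∃ σ : AlgebraicClosure K ≃ₐ[K] AlgebraicClosure K, r = σ z := by
  have hint : IsIntegral K z := Algebra.IsIntegral.isIntegral z
  rw [mem_roots_map (minpoly.monic hint).ne_zero] at hr
  obtain ⟨σ, hσ⟩ := minpoly.exists_algEquiv_of_root' (K := K) (x := r) (y := z)
    (Algebra.IsAlgebraic.isAlgebraic z) (by rw [aeval_def]; exact hr)
  exact ⟨σ, hσ.symm⟩

theorem conj_root (z : AlgebraicClosure K) (σ : AlgebraicClosure K ≃ₐ[K] AlgebraicClosure K) :
    σ z ∈ ((minpoly K z).map (algebraMap K (AlgebraicClosure K))).roots := by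
  have hint : IsIntegral K z := Algebra.IsIntegral.isIntegral z
  rw [mem_roots_map (minpoly.monic hint).ne_zero, ← aeval_def]
  have := aeval_algHom_apply (σ : AlgebraicClosure K →ₐ[K] AlgebraicClosure K) z (minpoly K z)
  rw [minpoly.aeval, map_zero] at this
  exact this

end

section

variable {K : Type u} [Field K] [NumberField K]

/-- the cell of an orbit -/
def cellSet {d : ℕ} (near : AlgebraicClosure K → Fin d) (k : ℕ) (y : ℤ → AlgebraicClosure K) :
    Set (Fin (2 * k + 2) → Fin d) :=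
  {c | ∃ σ : AlgebraicClosure K ≃ₐ[K] AlgebraicClosure K,
    c = fun t : Fin (2 * k + 2) => near (σ (y ((t : ℕ) - (k : ℤ))))}

theorem gain_sep_aux {d : ℕ} (hd : 2 ≤ d) {G : K[X]} (hG : G.natDegree = d)
    (hG1 : G.coeff (d - 1) = 0) {δ : K} (p : Pl K)
    {w : AbsoluteValue (AlgebraicClosure K) ℝ} (hw : PB.Ext (pv p) w)
    {κ S : ℝ} (hκ : 0 < κ) (hS : pA p ^ d * Tv (pv p) d G ≤ S) {ρ : Fin d → AlgebraicClosure K}
    (hρ : G.map (algebraMap K (AlgebraicClosure K)) =
      C ((G.map (algebraMap K (AlgebraicClosure K))).coeff d) * ∏ i, (X - C (ρ i)))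
    (hsep : ∀ i j, i ≠ j → κ * (Tv (pv p) d G / al (pv p) d G) ≤ w (ρ i - ρ j))
    (hcond : pA p ^ (2 * d - 1) * max 1 (pv p δ) * S ^ (d - 1) <
      (κ * Tv (pv p) d G / pA p) ^ (d - 1) * (κ * Tv (pv p) d G / pA p) ^ (d - 1))
    {near : AlgebraicClosure K → Fin d} (hnear : ∀ z j, w (z - ρ (near z)) ≤ w (z - ρ j))
    {b k : ℕ} {γ : ℝ} (hSA : 1 ≤ pA p * S)
    (hγ : (pA p ^ 2 * max 1 (pv p δ) / (κ * Tv (pv p) d G / pA p) ^ (d - 1)) ^ k *
      (pA p * S) ^ b ≤ exp (-γ))
    {ι : Type*} (x : ι → ℤ → AlgebraicClosure K)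
    (hx : ∀ i, Orb (G.map (algebraMap K (AlgebraicClosure K)))
      (algebraMap K (AlgebraicClosure K) δ) (x i))
    (hxS : ∀ (σ : AlgebraicClosure K ≃ₐ[K] AlgebraicClosure K) i n,
      w (σ (x i n)) * al (pv p) d G ≤ S)
    (hdeg : ∀ i n, (minpoly K (x i n)).natDegree ≤ b) (j : ι) {n : ℤ} (hn : n = 0 ∨ n = 1) :
    Gain d G p w b γ {i | cellSet near k (x i) = cellSet near k (x j)} (fun i => x i n) := by
  classical
  intro σ
  set alg := algebraMap K (AlgebraicClosure K) with halg
  set f := (minpoly K (x j n)).map alg with hf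
  have hint : IsIntegral K (x j n) := Algebra.IsIntegral.isIntegral _
  have hfm : f.Monic := (minpoly.monic hint).map _
  have hfd : f.natDegree = (minpoly K (x j n)).natDegree := natDegree_map _
  have hfs : f.Splits := IsAlgClosed.splits f
  refine ⟨f, hfm, ?_, ?_, ?_⟩
  · rw [hfd]
    exact minpoly.natDegree_pos hint
  · rw [hfd]
    exact hdeg j n
  intro i hi
  have hi' : cellSet near k (x i) = cellSet near k (x j) := hi
  have h1 : (fun t : Fin (2 * k + 2) => near (σ (x i ((t : ℕ) - (k : ℤ))))) ∈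
      cellSet near k (x i) := ⟨σ, rfl⟩
  rw [hi'] at h1
  obtain ⟨τ, hτ⟩ := h1
  set α := al (pv p) d G with hα
  have hα0 : 0 < α := al_pos' _ hd hG
  set A₀ := pA p with hA₀
  have hA1 : 1 ≤ A₀ := one_le_pA p
  have hA0 : 0 ≤ A₀ := by linarith
  have hadd : ∀ x y, w (x + y) ≤ A₀ * max (w x) (w y) := w_add p hw
  have hGm : (G.map alg).natDegree = d := by rw [natDegree_map, hG]
  have hGm1 : (G.map alg).coeff (d - 1) = 0 := by rw [coeff_map, hG1, map_zero]
  have hTw : Tv w d (G.map alg) = Tv (pv p) d G := Tv_ext hw d G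
  have hαw : al w d (G.map alg) = α := al_ext hw d G
  set θ := A₀ ^ 2 * max 1 (pv p δ) / (κ * Tv (pv p) d G / A₀) ^ (d - 1) with hθ
  have hT1 : 1 ≤ Tv (pv p) d G := one_le_Tv _ _ _
  have hT0 : 0 < Tv (pv p) d G := by linarith
  have hθ0 : 0 ≤ θ := by
    have : 0 < κ * Tv (pv p) d G / A₀ := by positivity
    have : (0 : ℝ) ≤ max 1 (pv p δ) := le_trans zero_le_one (le_max_left _ _)
    positivity
  set y : ℤ → AlgebraicClosure K := fun n => σ (x i n) with hy
  set z : ℤ → AlgebraicClosure K := fun n => τ (x j n) with hz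
  have hyo : Orb (G.map alg) (alg δ) y := orb_comp (hx i) σ
  have hzo : Orb (G.map alg) (alg δ) z := orb_comp (hx j) τ
  have hstep : ∀ n : ℤ, -k ≤ n → n ≤ k + 1 → w (y n - z n) * α ≤
      θ * max (w (y (n + 1) - z (n + 1)) * α) (w (y (n - 1) - z (n - 1)) * α) := by
    intro n h2 h3
    have hnn : near (y n) = near (z n) := by
      have h4 := congrFun hτ ⟨(n + k).toNat, by omega⟩
      have h5 : (((n + k).toNat : ℕ) : ℤ) - (k : ℤ) = n := by
        rw [Int.toNat_of_nonneg (by omega)]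
        ring
      simp only [h5] at h4
      exact h4
    have h4 := contr_step w hA1 hadd hd hGm hGm1 (δ := alg δ) hρ hκ (S := S)
      (by rw [hTw]; exact hS) (by rw [hTw, hαw]; exact hsep)
      (by rw [hTw, hw δ]; exact hcond) hnear hyo hzo
      (by rw [hαw]; exact fun n => hxS σ i n) (by rw [hαw]; exact fun n => hxS τ j n) hnn
    rw [hTw, hαw, hw δ] at h4
    exact h4
  have hDU : ∀ n, w (y n - z n) * α ≤ A₀ * S := by
    intro n
    have h2 : w (y n - z n) ≤ A₀ * (S / α) := w_sub_le w hA0 hadd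
      ((le_div_iff₀ hα0).2 (hxS σ i n)) ((le_div_iff₀ hα0).2 (hxS τ j n))
    calc _ ≤ A₀ * (S / α) * α := mul_le_mul_of_nonneg_right h2 hα0.le
      _ = A₀ * S := by field_simp
  have hD := contr_iter (D := fun n => w (y n - z n) * α) hθ0 hDU hstep
  have hDn : w (y n - z n) * α ≤ θ ^ k * (A₀ * S) := by
    rcases hn with rfl | rfl
    · exact hD.1
    · exact hD.2
  have h2 := eval_near w hfm hfs (z := y n) (r₀ := z n) (conj_root (x j n) τ) (α := α)
    (U := A₀ * S) (ε := θ ^ k) hα0.le (by linarith) (by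
      intro r hr
      obtain ⟨τ', rfl⟩ := root_conj hr
      have h2 : w (y n - τ' (x j n)) ≤ A₀ * (S / α) := w_sub_le w hA0 hadd
        ((le_div_iff₀ hα0).2 (hxS σ i n)) ((le_div_iff₀ hα0).2 (hxS τ' j n))
      calc _ ≤ A₀ * (S / α) * α := mul_le_mul_of_nonneg_right h2 hα0.le
        _ = A₀ * S := by field_simp) hDn (by positivity)
  rw [hf, eval_comp' (minpoly K (x j n)) (x i n) σ]
  refine h2.trans ?_
  refine le_trans ?_ hγ
  refine mul_le_mul_of_nonneg_left ?_ (by positivity)
  refine pow_le_pow_right₀ hSA ?_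
  rw [hfd]
  exact hdeg j n

end

end Pool.Agent.V5helper58.HN
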