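import Pool.Agent.V5helper58.HN.MainFar
import Pool.Agent.V5helper58.HN.Numeric
import Pool.Agent.V5helper58.HN.Sep

/-!
# The case of a place of large size with separated roots
-/

set_option autoImplicit false

namespace Pool.Agent.V5helper58.HN

open Real NumberField Polynomial
open Pool.Agent.H951R3 Pool.Agent.H951R3.PH

universe u

theorem Gain.mono {K : Type u} [Field K] [NumberField K] {d : ℕ} {F : K[X]} {p : Pl K}
    {w : AbsoluteValue (AlgebraicClosure K) ℝ} {m : ℕ} {γ : ℝ} {ι : Type*} {s t : Set ι}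
    {x : ι → AlgebraicClosure K} (h : Gain d F p w m γ t x) (hst : s ⊆ t) :
    Gain d F p w m γ s x := by
  intro σ
  obtain ⟨G, h1, h2, h3, h4⟩ := h σ
  exact ⟨G, h1, h2, h3, fun i hi => h4 i (hst hi)⟩

theorem abs_log_le {K : Type u} [Field K] [NumberField K] {δ : K} (hδ : δ ≠ 0) (p : Pl K) :
    pm p * |log (pv p δ)| ≤ Height.logHeight₁ δ := by
  have h1 := single_height δ p
  have h2 := single_height δ⁻¹ p
  rw [Height.logHeight₁_inv, map_inv₀] at h2
  have hpos : 0 < pv p δ := (pv p).pos hδ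
  rcases le_total 1 (pv p δ) with h | h
  · rw [abs_of_nonneg (log_nonneg h)]
    rwa [max_eq_right h] at h1
  · rw [abs_of_nonpos (log_nonpos hpos.le h), ← log_inv]
    rwa [max_eq_right ((one_le_inv₀ hpos).2 h)] at h2

/-- the cells at a place of large size -/
theorem large_gain {d : ℕ} (hd : 2 ≤ d) {K : Type u} [Field K] [NumberField K]
    {G : K[X]} (hG : G.natDegree = d) (hG1 : G.coeff (d - 1) = 0) {δ : K} (q : Pl K)
    {w : AbsoluteValue (AlgebraicClosure K) ℝ} (hw : PB.Ext (pv q) w) {H t : ℝ} (hH : 0 ≤ H)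
    (ht : log (Tv (pv q) d G) = t) (htbig : 8 * H + 2 * d + 13 ≤ t)
    (hsep : Sep (pv q) d G (H + t / 8)) (hBδ : log (max 1 (pv q δ)) ≤ H + t / 8) (b : ℕ)
    {ι : Type*} (X : ι → ℤ → AlgebraicClosure K)
    (hX : ∀ i, Orb (G.map (algebraMap K (AlgebraicClosure K)))
        (algebraMap K (AlgebraicClosure K) δ) (X i))
    (hSX : ∀ (σ : AlgebraicClosure K ≃ₐ[K] AlgebraicClosure K) i n,
      w (σ (X i n)) * al (pv q) d G ≤ Sb d G δ q)
    (hdeg : ∀ i n, (minpoly K (X i n)).natDegree ≤ b) :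
    ∃ cell : ι → Fin (2 ^ d ^ (2 * (8 * b) + 2)), ∀ n : ℤ, n = 0 ∨ n = 1 → ∀ j : ι,
      Gain d G q w b (2 * b * t) {i | cell i = cell j} (fun i => X i n) := by
  classical
  have hT1 : 1 ≤ Tv (pv q) d G := one_le_Tv _ _ _
  obtain ⟨hcond, hnum⟩ := sep_numeric hd (one_le_pA q) (pA_le_two q)
    (le_max_left 1 (pv q δ)) (lt_of_lt_of_le one_pos hT1) ht hH hBδ (le_refl (H + t / 8)) htbig b
  obtain ⟨ρ, hρ⟩ := exists_roots (G.map (algebraMap K (AlgebraicClosure K)))
    (by rw [natDegree_map, hG])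
  have : NeZero d := ⟨by omega⟩
  choose near hnear using fun z => exists_near w z ρ
  have hS0 : 1 ≤ pA q * Sb d G δ q :=
    one_le_mul_of_one_le_of_one_le (one_le_pA q) (one_le_Sb d G δ q)
  have hSd : pA q ^ d * Tv (pv q) d G ≤ Sb d G δ q := by
    unfold Sb
    have h1 : (1 : ℝ) ≤ max 1 (pv q δ) := le_max_left _ _
    have h2 : pA q ^ d ≤ pA q ^ (d + 1) := pow_le_pow_right₀ (one_le_pA q) (by omega)
    have h3 : 0 ≤ pA q ^ d := pow_nonneg (zero_le_one.trans (one_le_pA q)) _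
    have h4 : pA q ^ d ≤ pA q ^ (d + 1) * max 1 (pv q δ) := by nlinarith
    exact mul_le_mul_of_nonneg_right h4 (by linarith)
  have hcard : Fintype.card (Set (Fin (2 * (8 * b) + 2) → Fin d)) =
      2 ^ d ^ (2 * (8 * b) + 2) := by
    rw [Fintype.card_set, Fintype.card_fun, Fintype.card_fin, Fintype.card_fin]
  refine ⟨fun i => Fin.cast hcard (Fintype.equivFin _ (cellSet near (8 * b) (X i))), ?_⟩
  intro n hn j
  refine Gain.mono (gain_sep_aux hd hG hG1 q hw (exp_pos (-(H + t / 8))) hSd hρ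
    (hsep w hw ρ (by rw [coeff_map] at hρ; exact hρ)) hcond hnear hS0
    (γ := 2 * b * t) hnum X hX hSX hdeg j hn) ?_
  intro i hi
  exact (Fintype.equivFin _).injective (Fin.cast_injective hcard hi)

theorem large_case (d : ℕ) (hd : 2 ≤ d) (D b : ℕ) (hb : 1 ≤ b) (H c : ℝ) (hH : 0 ≤ H)
    (hc : 0 ≤ c) : ∃ C : ℝ, 0 < C ∧
    ∀ (K : Type u) [Field K] [NumberField K], Module.finrank ℚ K ≤ D →
    ∀ {G : K[X]}, G.natDegree = d → G.coeff (d - 1) = 0 → ∀ {δ : K}, δ ≠ 0 →
    ∀ {ι : Type u} [Fintype ι] (X : ι → ℤ → AlgebraicClosure K),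
      (∀ i, Orb (G.map (algebraMap K (AlgebraicClosure K)))
        (algebraMap K (AlgebraicClosure K) δ) (X i)) →
      (∀ i j, X i 0 = X j 0 → X i 1 = X j 1 → i = j) →
      (∀ i n, (minpoly K (X i n)).natDegree ≤ b) →
    ∀ (w : Pl K → AbsoluteValue (AlgebraicClosure K) ℝ), (∀ p, PB.Ext (pv p) (w p)) →
    ∀ (P : Finset (Pl K)), (∀ p, p ∉ P → Sb d G δ p = 1) →
      (∀ p (σ : AlgebraicClosure K ≃ₐ[K] AlgebraicClosure K) i n,
        w p (σ (X i n)) * al (pv p) d G ≤ Sb d G δ p) →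
    ∀ (q : Pl K) (t τ R : ℝ), log (Tv (pv q) d G) = t → pm q * t = τ →
      8 * H + 2 * d + 13 ≤ t → Sep (pv q) d G (H + t / 8) →
      Height.logHeight₁ δ ≤ H + τ / 8 → 1 ≤ R →
      ∑ p ∈ P, pm p * log (Sb d G δ p) ≤ c * (R * (1 + τ)) →
      (Fintype.card ι : ℝ) ≤ C * (R * log (1 + R)) ^ 2 := by
  classical
  have hb1 : (1 : ℝ) ≤ b := by exact_mod_cast hb
  have hL : 0 ≤ c + 2 * b + b * c := by positivity
  obtain ⟨C, hC, ha⟩ := step2.{u} hd D (by norm_num : (0 : ℝ) < 1 / 2) hL b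
    (2 ^ d ^ (2 * (8 * b) + 2))
  refine ⟨C, hC, ?_⟩
  intro K _ _ hfin G hG hG1 δ hδ ι _ X hX hinj hdeg w hw P hE hSX q t τ R ht hτ htbig hsep hh
    hR hSP
  have hd2 : (2 : ℝ) ≤ d := by exact_mod_cast hd
  have hd1 : (1 : ℝ) ≤ (d : ℝ) - 1 := by linarith
  have hpm1 := one_le_pm q
  have hpm2 := pm_le_two q
  have ht0 : 0 ≤ t := by linarith
  have htτ : t ≤ τ := by
    rw [← hτ]
    exact le_mul_of_one_le_left ht0 hpm1
  have hBδ : log (max 1 (pv q δ)) ≤ H + t / 8 := by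
    have h1 := single_height δ q
    have h3 : pm q * log (max 1 (pv q δ)) ≤ pm q * (H + t / 8) := by
      calc _ ≤ _ := h1
        _ ≤ H + τ / 8 := hh
        _ ≤ pm q * H + pm q * (t / 8) := by
          have h4 : H ≤ pm q * H := le_mul_of_one_le_left hH hpm1
          rw [← hτ]
          linarith
        _ = _ := by ring
    exact le_of_mul_le_mul_left h3 (by linarith)
  obtain ⟨cell, hcell⟩ := large_gain hd hG hG1 q (hw q) hH ht htbig hsep hBδ b X hX (hSX q) hdeg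
  have hgain : ∀ n : ℤ, n = 0 ∨ n = 1 → ∀ p ∈ ({q} : Finset (Pl K)), ∀ j : ι,
      Gain d G p (w p) b ((fun _ : Pl K => 2 * b * t) p) {i | cell i = cell j}
        (fun i => X i n) := by
    intro n hn p hp j
    rw [Finset.mem_singleton] at hp
    subst hp
    exact hcell n hn j
  have hRτ : 1 + τ ≤ R * (1 + τ) := le_mul_of_one_le_left (by linarith) hR
  refine ha K hfin hG hδ X hX hinj w hw (Sb d G δ) (one_le_Sb d G δ) P hE hSX {q}
    (fun _ => 2 * b * t) (fun p _ => by positivity) cell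
    (hgain 0 (Or.inl rfl)) (hgain 1 (Or.inr rfl)) (1 + τ) R hR (by linarith) ?_ ?_
  · rw [Finset.sum_singleton]
    have h2 : 2 * (b : ℝ) * t / b = 2 * t := by
      field_simp
    rw [h2]
    have h3 := abs_log_le hδ q
    have h4 : pm q * (|log (pv q δ)| / ((d : ℝ) - 1)) ≤ H + τ / 8 := by
      rw [← mul_div_assoc]
      refine (div_le_self ?_ hd1).trans (h3.trans hh)
      exact mul_nonneg (by linarith) (abs_nonneg _)
    have h5 : pm q * (2 * t - |log (pv q δ)| / ((d : ℝ) - 1)) =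
        2 * τ - pm q * (|log (pv q δ)| / ((d : ℝ) - 1)) := by
      rw [← hτ]
      ring
    rw [h5]
    linarith
  · rw [Finset.sum_singleton]
    have h2 : pm q * (2 * b * t + b * log (Sb d G δ q)) =
        2 * b * τ + b * (pm q * log (Sb d G δ q)) := by
      rw [← hτ]
      ring
    rw [h2]
    have hnn : ∀ p ∈ P, 0 ≤ pm p * log (Sb d G δ p) := fun p _ =>
      mul_nonneg (zero_le_one.trans (one_le_pm p)) (log_nonneg (one_le_Sb d G δ p))
    have hSle : pm q * log (Sb d G δ q) ≤ ∑ p ∈ P, pm p * log (Sb d G δ p) := by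
      by_cases hp : q ∈ P
      · exact Finset.single_le_sum hnn hp
      · rw [hE q hp, log_one, mul_zero]
        exact Finset.sum_nonneg hnn
    have h4 : (b : ℝ) * (pm q * log (Sb d G δ q)) ≤ b * (c * (R * (1 + τ))) :=
      mul_le_mul_of_nonneg_left (hSle.trans hSP) (by linarith)
    have h5 : 2 * (b : ℝ) * τ ≤ 2 * b * (R * (1 + τ)) :=
      mul_le_mul_of_nonneg_left (by linarith) (by linarith)
    linarith

end Pool.Agent.V5helper58.HN
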