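import Pool.Agent.V5helper58.HN.Step
import Pool.Agent.V5helper58.HN.Far
import Pool.Agent.V5helper58.HN.Orbit
import Pool.Agent.H951R3.PH.E7
import Pool.Agent.H951R3.PH.GlobalSum

/-!
# Periodic points of bounded degree: places where the polynomial does not split
-/

set_option autoImplicit false

namespace Pool.Agent.V5helper58.HN

open Real NumberField Polynomial
open Pool.Agent.H951R3 Pool.Agent.H951R3.PH

universe u

theorem exists_w {K : Type u} [Field K] [NumberField K] :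
    ∃ w : Pl K → AbsoluteValue (AlgebraicClosure K) ℝ, ∀ p, PB.Ext (pv p) (w p) := by
  choose w hw using fun p : Pl K => exists_ext p
  exact ⟨w, fun p => (hw p).1⟩

/-- the finite set of the places that matter -/
theorem exists_places {K : Type u} [Field K] [NumberField K] {d : ℕ} (hd : 2 ≤ d) {G : K[X]}
    (hG : G.natDegree = d) {δ : K} (hδ : δ ≠ 0) (T : Finset (FinitePlace K)) :
    ∃ E : Finset (FinitePlace K), T ⊆ E ∧ (∀ v, Tv v.val d G ≠ 1 → v ∈ E) ∧
      ∀ p, p ∉ (Finset.univ : Finset (InfinitePlace K)).disjSum E → Sb d G δ p = 1 := by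
  classical
  refine ⟨T ∪ (tv_finite hd hG).toFinset ∪ (finite_ne_one hδ).toFinset, ?_, ?_, ?_⟩
  · intro v hv
    rw [Finset.mem_union, Finset.mem_union]
    exact Or.inl (Or.inl hv)
  · intro v hv
    rw [Finset.mem_union, Finset.mem_union, Set.Finite.mem_toFinset]
    exact Or.inl (Or.inr hv)
  · intro p hp
    rcases p with v | v
    · exact absurd (Finset.inl_mem_disjSum.2 (Finset.mem_univ v)) hp
    · have hv : v ∉ T ∪ (tv_finite hd hG).toFinset ∪ (finite_ne_one hδ).toFinset :=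
        fun h => hp (Finset.inr_mem_disjSum.2 h)
      rw [Finset.mem_union, Finset.mem_union, not_or, not_or] at hv
      obtain ⟨⟨hv1, hv2⟩, hv3⟩ := hv
      rw [Set.Finite.mem_toFinset, Set.mem_ofPred_eq, not_not] at hv2 hv3
      change (1 : ℝ) ^ (d + 1) * max 1 (v.val δ) * Tv v.val d G = 1
      rw [hv2, hv3]
      norm_num

theorem far_bound (d : ℕ) (hd : 2 ≤ d) (D B : ℕ) : ∃ C : ℝ, 0 < C ∧
    ∀ (K : Type u) [Field K] [NumberField K], Module.finrank ℚ K ≤ D →
    ∀ (F : K[X]) (δ : K), F.natDegree = d → δ ≠ 0 →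
    ∀ T : Finset (FinitePlace K), (∀ v, v ∉ T → PotGood v.val d F δ) →
    ∀ N : Finset (FinitePlace K), (∀ v ∈ N, (0 < siz v.val d F δ → Far v.val d (cen d F δ) B) ∧
      |log (v.val δ)| ≤ siz v.val d F δ / 8) →
    ∀ R : ℝ, 1 ≤ R →
      1 + Height.logHeight₁ δ + (∑ v : InfinitePlace K, v.mult * siz v.val d F δ +
        ∑ v ∈ T, siz v.val d F δ) ≤ R * ∑ v ∈ N, siz v.val d F δ →
    ∀ Y : Finset (AlgebraicClosure K × AlgebraicClosure K),
      (∀ P ∈ Y, (∃ m : ℕ, 0 < m ∧ (henC F δ)^[m] P = P) ∧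
        Module.finrank K (IntermediateField.adjoin K {P.1, P.2}) ≤ B) →
      (Y.card : ℝ) ≤ C * (R * log (1 + R)) ^ 2 := by
  classical
  have hd2 : (2 : ℝ) ≤ d := by exact_mod_cast hd
  have hlogd : 0 ≤ log (d : ℝ) := log_nonneg (by linarith)
  have hlog2 : 0 ≤ log (2 : ℝ) := log_nonneg (by norm_num)
  set c₁ : ℝ := (d + 1) * (D * log 2) + D * log d with hc₁
  have hc₁0 : 0 ≤ c₁ := by positivity
  set L₀ : ℝ := (1 + d) * (c₁ + 1) + 1 with hL₀
  have hL₀0 : 0 ≤ L₀ := by positivity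
  have hc₀ : (0 : ℝ) < 5 / (8 * d) := by positivity
  obtain ⟨C, hC, hstep⟩ := step2.{u} hd D hc₀ hL₀0 d 1
  refine ⟨C, hC, ?_⟩
  intro K _ _ hfin F δ hF hδ T hT N hN R hR htot Y hY
  set G := cen d F δ with hG_def
  have hG : G.natDegree = d := cen_natDegree hd hF δ
  have hG1 : G.coeff (d - 1) = 0 := cen_coeff hd hF δ
  have hsizT : ∀ v : FinitePlace K, siz v.val d F δ = log (Tv v.val d G) := fun v => rfl
  have hsiz0 : ∀ v : FinitePlace K, 0 ≤ siz v.val d F δ := fun v => log_nonneg (one_le_Tv _ _ _)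
  -- orbits
  have horb := fun P : Y => exists_orbit (d := d) (F := F) (δ := δ) (B := B) (P := P.1)
    (hY P.1 P.2).1 (hY P.1 P.2).2
  choose X hX hX0 hX1 hXper hXdeg using horb
  have hinj : ∀ i j, X i 0 = X j 0 → X i 1 = X j 1 → i = j := by
    intro i j h0 h1
    rw [hX0, hX0, sub_left_inj] at h0
    rw [hX1, hX1, sub_left_inj] at h1
    exact Subtype.ext (Prod.ext h0 h1)
  obtain ⟨w, hw⟩ := exists_w (K := K)
  obtain ⟨E, hTE, hTvE, hE⟩ := exists_places hd hG hδ T
  set P := (Finset.univ : Finset (InfinitePlace K)).disjSum E with hP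
  have hTgood : ∀ v, v ∉ T → Tv v.val d G ≤ (v.val (d : K))⁻¹ := fun v hv =>
    potgood_Tv hd hF v (hT v hv)
  -- the gain places
  set N' := N.filter fun v => 0 < siz v.val d F δ with hN'
  set Z : Finset (Pl K) := N'.map ⟨Sum.inr, Sum.inr_injective⟩ with hZ
  have hWeq : ∑ v ∈ N', siz v.val d F δ = ∑ v ∈ N, siz v.val d F δ := by
    rw [hN', Finset.sum_filter]
    refine Finset.sum_congr rfl fun v _ => ?_
    split_ifs with h
    · rfl
    · exact le_antisymm (hsiz0 v) (not_lt.1 h)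
  set W := ∑ v ∈ N, siz v.val d F δ with hW
  have hh0 : 0 ≤ Height.logHeight₁ δ := Height.zero_le_logHeight₁ δ
  have hinf0 : 0 ≤ ∑ v : InfinitePlace K, v.mult * siz v.val d F δ :=
    Finset.sum_nonneg fun v _ => mul_nonneg (Nat.cast_nonneg _) (log_nonneg (one_le_Tv _ _ _))
  have hT0 : 0 ≤ ∑ v ∈ T, siz v.val d F δ := Finset.sum_nonneg fun v _ => hsiz0 v
  have hRW : 1 ≤ R * W := by linarith
  have hW0 : 0 ≤ W := Finset.sum_nonneg fun v _ => hsiz0 v
  let γ : Pl K → ℝ := fun p => 7 / 8 * log (Tv (pv p) d G)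
  have hγ0 : ∀ p, 0 ≤ γ p := fun p => mul_nonneg (by norm_num) (log_nonneg (one_le_Tv _ _ _))
  have hgain : ∀ n : ℤ, ∀ p ∈ Z, ∀ j : Y, Gain d G p (w p) d (γ p)
      {i | (fun _ : Y => (0 : Fin 1)) i = (fun _ : Y => (0 : Fin 1)) j} (fun i => X i n) := by
    intro n p hp j
    rw [hZ, Finset.mem_map] at hp
    obtain ⟨v, hv, rfl⟩ := hp
    rw [hN', Finset.mem_filter] at hv
    obtain ⟨hv1, hv2⟩ := hv
    exact gain_far hd hG hG1 hδ v ((hN v hv1).1 hv2) hv2 (hN v hv1).2 X hX hXper hXdeg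
      (hw (Sum.inr v)) _ n
  have hcard := hstep K hfin hG hδ X hX hinj w hw (Sb d G δ) (one_le_Sb d G δ) P hE
    (fun p σ i n => orbit_le hd hG hG1 (hX i) (hXper i) p (hw p) σ n) Z γ (fun p _ => hγ0 p)
    (fun _ => 0) (hgain 0) (hgain 1) W R hR hRW ?_ ?_
  · rwa [Fintype.card_coe] at hcard
  · -- the gain
    rw [hZ, Finset.sum_map, ← hWeq, Finset.mul_sum]
    refine Finset.sum_le_sum fun v hv => ?_
    rw [hN', Finset.mem_filter] at hv
    have h1 := (hN v hv.1).2
    have h2 : (0 : ℝ) < (d : ℝ) - 1 := by linarith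
    change 5 / (8 * d) * siz v.val d F δ ≤ 1 * (7 / 8 * siz v.val d F δ / d -
      |log (v.val δ)| / ((d : ℝ) - 1))
    have h3 : |log (v.val δ)| / ((d : ℝ) - 1) ≤ (siz v.val d F δ / 8) / ((d : ℝ) - 1) :=
      div_le_div_of_nonneg_right h1 h2.le
    have h4 : (siz v.val d F δ / 8) / ((d : ℝ) - 1) ≤ siz v.val d F δ / (4 * d) := by
      rw [div_div, div_le_div_iff₀ (by positivity) (by positivity)]
      have := hsiz0 v
      nlinarith
    have h5 : 7 / 8 * siz v.val d F δ / d = 5 / (8 * d) * siz v.val d F δ +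
        siz v.val d F δ / (4 * d) := by
      field_simp
      ring
    linarith
  · -- the loss
    have hloss := loss_sum hd hfin G δ T E hTE hTgood
    have hSP : ∑ p ∈ P, pm p * log (Sb d G δ p) ≤ (c₁ + 1) * (R * W) := by
      refine hloss.trans ?_
      have h1 : (d + 1) * (D * log 2) + Height.logHeight₁ δ + D * log d +
          (∑ v : InfinitePlace K, v.mult * log (Tv v.val d G) + ∑ v ∈ T, log (Tv v.val d G)) ≤
          c₁ + R * W := by
        have : 1 + Height.logHeight₁ δ +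
          (∑ v : InfinitePlace K, v.mult * log (Tv v.val d G) + ∑ v ∈ T, log (Tv v.val d G)) ≤
            R * W := htot
        linarith
      nlinarith
    have hZP : ∑ p ∈ Z, pm p * log (Sb d G δ p) ≤ ∑ p ∈ P, pm p * log (Sb d G δ p) := by
      refine Finset.sum_le_sum_of_subset_of_nonneg ?_ fun p _ _ =>
        mul_nonneg (zero_le_one.trans (one_le_pm p)) (log_nonneg (one_le_Sb d G δ p))
      intro p hp
      rw [hZ, Finset.mem_map] at hp
      obtain ⟨v, hv, rfl⟩ := hp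
      rw [hN', Finset.mem_filter] at hv
      refine Finset.inr_mem_disjSum.2 (hTvE v fun h => ?_)
      have := hv.2
      rw [hsizT, h, log_one] at this
      exact lt_irrefl _ this
    have hZγ : ∑ p ∈ Z, pm p * γ p ≤ W := by
      rw [hZ, Finset.sum_map, ← hWeq]
      refine Finset.sum_le_sum fun v hv => ?_
      change 1 * (7 / 8 * siz v.val d F δ) ≤ siz v.val d F δ
      have := hsiz0 v
      linarith
    have hZs : ∑ p ∈ Z, pm p * (γ p + d * log (Sb d G δ p)) =
        ∑ p ∈ Z, pm p * γ p + d * ∑ p ∈ Z, pm p * log (Sb d G δ p) := by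
      rw [Finset.mul_sum, ← Finset.sum_add_distrib]
      refine Finset.sum_congr rfl fun p _ => ?_
      ring
    rw [hZs]
    have h1 : (d : ℝ) * ∑ p ∈ Z, pm p * log (Sb d G δ p) ≤ d * ((c₁ + 1) * (R * W)) :=
      mul_le_mul_of_nonneg_left (hZP.trans hSP) (by positivity)
    have h2 : W ≤ R * W := le_mul_of_one_le_left hW0 hR
    rw [hL₀]
    linarith

end Pool.Agent.V5helper58.HN
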