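import Pool.Agent.V5helper58.HN.Small
import Pool.Agent.V5helper58.HN.Uni

/-!
# Periodic points of bounded degree: few places of bad reduction
-/

set_option autoImplicit false

namespace Pool.Agent.V5helper58.HN

open Real NumberField Polynomial
open Pool.Agent.H951R3 Pool.Agent.H951R3.PH

universe u

theorem log_Tv_good {d : ℕ} (hd : 2 ≤ d) {D : ℕ} {K : Type u} [Field K] [NumberField K]
    (hfin : Module.finrank ℚ K ≤ D) {G : K[X]} (v : FinitePlace K)
    (h : Tv v.val d G ≤ (v.val (d : K))⁻¹) : log (Tv v.val d G) ≤ D * log d := by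
  have hlogd : 0 ≤ log (d : ℝ) := log_nonneg (by exact_mod_cast (by omega : 1 ≤ d))
  have h4 := log_le_log (lt_of_lt_of_le one_pos (one_le_Tv _ _ _)) h
  have h5 := sum_log_nat (K := K) (by omega : 1 ≤ d) {v}
  rw [Finset.sum_singleton] at h5
  have h6 : (Module.finrank ℚ K : ℝ) * log d ≤ D * log d := by
    have : (Module.finrank ℚ K : ℝ) ≤ D := by exact_mod_cast hfin
    gcongr
  linarith

/-- total size if all sizes are at most `τ` -/
theorem total_le {D : ℕ} {K : Type u} [Field K] [NumberField K]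
    (hfin : Module.finrank ℚ K ≤ D) (T : Finset (FinitePlace K)) (f : InfinitePlace K → ℝ)
    (g : FinitePlace K → ℝ) {τ R : ℝ} (hτ : 0 ≤ τ) (hR : 1 ≤ R) (hf : ∀ v, f v ≤ τ)
    (hg : ∀ v ∈ T, g v ≤ τ) (h : (T.card : ℝ) ≤ R ∨ ∑ v, f v + ∑ v ∈ T, g v ≤ R * (1 + τ)) :
    ∑ v, f v + ∑ v ∈ T, g v ≤ (D + 1) * (R * (1 + τ)) := by
  have hD0 : (0 : ℝ) ≤ D := Nat.cast_nonneg _
  have hRτ : 0 ≤ R * (1 + τ) := by positivity
  rcases h with hc | hc
  · have h1 : ∑ v, f v ≤ D * τ := by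
      calc _ ≤ ∑ _v : InfinitePlace K, τ := Finset.sum_le_sum fun v _ => hf v
        _ = Fintype.card (InfinitePlace K) * τ := by
          rw [Finset.sum_const, Finset.card_univ, nsmul_eq_mul]
        _ ≤ D * τ := by
          have := card_inf_le hfin
          gcongr
    have h2 : ∑ v ∈ T, g v ≤ R * τ := by
      calc _ ≤ ∑ _v ∈ T, τ := Finset.sum_le_sum hg
        _ = T.card * τ := by rw [Finset.sum_const, nsmul_eq_mul]
        _ ≤ R * τ := by gcongr
    have h4 : τ ≤ R * (1 + τ) := by nlinarith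
    have h3 : (D : ℝ) * τ ≤ D * (R * (1 + τ)) := mul_le_mul_of_nonneg_left h4 hD0
    have h5 : R * τ ≤ R * (1 + τ) := by nlinarith
    linarith
  · have h3 : 0 ≤ D * (R * (1 + τ)) := by positivity
    linarith

theorem sep_bound (d : ℕ) (hd : 2 ≤ d) (D B : ℕ) (H : ℝ) : ∃ C₀ : ℝ, 0 < C₀ ∧
    ∀ (K : Type u) [Field K] [NumberField K], Module.finrank ℚ K ≤ D →
    ∀ (F : K[X]) (δ : K), F.natDegree = d → δ ≠ 0 →
    ∀ T : Finset (FinitePlace K), (∀ v, v ∉ T → PotGood v.val d F δ) →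
    ∀ R : ℝ, 1 ≤ R → ∀ q : InfinitePlace K ⊕ T,
      (∀ q' : InfinitePlace K ⊕ T,
        Sum.elim (fun v : InfinitePlace K => v.mult * siz v.val d F δ)
          (fun v : T => siz v.1.val d F δ) q' ≤
        Sum.elim (fun v : InfinitePlace K => v.mult * siz v.val d F δ)
          (fun v : T => siz v.1.val d F δ) q) →
      ((∃ a b c : K, F = C a * (X - C b) ^ d + C c) ∨
        Sum.elim (fun v : InfinitePlace K => Sep v.val d (cen d F δ) (H + siz v.val d F δ / 8))
          (fun v : T => Sep v.1.val d (cen d F δ) (H + siz v.1.val d F δ / 8)) q) →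
      Height.logHeight₁ δ ≤ H + Sum.elim (fun v : InfinitePlace K => v.mult * siz v.val d F δ)
        (fun v : T => siz v.1.val d F δ) q / 8 →
      ((T.card : ℝ) ≤ R ∨
        ∑ v : InfinitePlace K, v.mult * siz v.val d F δ + ∑ v ∈ T, siz v.val d F δ ≤
          R * (1 + Sum.elim (fun v : InfinitePlace K => v.mult * siz v.val d F δ)
            (fun v : T => siz v.1.val d F δ) q)) →
    ∀ Y : Finset (AlgebraicClosure K × AlgebraicClosure K),
      (∀ P ∈ Y, (∃ m : ℕ, 0 < m ∧ (henC F δ)^[m] P = P) ∧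
        Module.finrank K (IntermediateField.adjoin K {P.1, P.2}) ≤ B) →
      (Y.card : ℝ) ≤ C₀ * (R * log (1 + R)) ^ 2 := by
  classical
  have hd2 : (2 : ℝ) ≤ d := by exact_mod_cast hd
  have hlogd : 0 ≤ log (d : ℝ) := log_nonneg (by linarith)
  have hlog2 : 0 ≤ log (2 : ℝ) := log_nonneg (by norm_num)
  obtain ⟨H', hH'⟩ : ∃ H' : ℝ, H' = max H 0 + (D * log d + d) := ⟨_, rfl⟩
  have hH0 : 0 ≤ H' := by
    rw [hH']
    have := le_max_right H 0
    positivity
  have hHH : H ≤ H' := by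
    rw [hH']
    have := le_max_left H 0
    have : 0 ≤ (D : ℝ) * log d := by positivity
    linarith
  have hHU : D * log d + d ≤ H' := by
    rw [hH']
    have := le_max_right H 0
    linarith
  obtain ⟨c₁, hc₁⟩ : ∃ c₁ : ℝ, c₁ = (d + 1) * (D * log 2) + D * log d := ⟨_, rfl⟩
  have hc₁0 : 0 ≤ c₁ := by
    rw [hc₁]
    positivity
  obtain ⟨C₂, hC₂⟩ : ∃ C₂ : ℝ, C₂ = 2 * (8 * H' + 2 * d + 13) := ⟨_, rfl⟩
  have hC₂0 : 0 ≤ C₂ := by
    rw [hC₂]
    positivity
  obtain ⟨c₂, hc₂⟩ : ∃ c₂ : ℝ, c₂ = c₁ + H' + 1 + (D + 1) := ⟨_, rfl⟩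
  have hc₂0 : 0 ≤ c₂ := by
    rw [hc₂]
    positivity
  obtain ⟨H₃, hH₃⟩ : ∃ H₃ : ℝ, H₃ = H' + C₂ + C₂ + D * log d := ⟨_, rfl⟩
  have hH₃0 : 0 ≤ H₃ := by
    rw [hH₃]
    positivity
  have hc₃0 : 0 ≤ c₂ * (1 + C₂) := by positivity
  obtain ⟨Ca, hCa, ha⟩ := large_case.{u} d hd D (B + 1) (by omega) H' c₂ hH0 hc₂0
  obtain ⟨Cb, hCb, hb⟩ := small_case.{u} d hd D (B + 1) (by omega) H₃ (c₂ * (1 + C₂)) hH₃0 hc₃0
  refine ⟨max Ca Cb, lt_of_lt_of_le hCa (le_max_left _ _), ?_⟩
  intro K _ _ hfin F δ hF hδ T hT R hR q hmax hsep hh hR' Y hY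
  obtain ⟨G, hG_def⟩ : ∃ G : K[X], G = cen d F δ := ⟨_, rfl⟩
  have hG : G.natDegree = d := by rw [hG_def]; exact cen_natDegree hd hF δ
  have hG1 : G.coeff (d - 1) = 0 := by rw [hG_def]; exact cen_coeff hd hF δ
  have hRR : 0 ≤ (R * log (1 + R)) ^ 2 := by positivity
  -- orbits
  have horb := fun P : Y => exists_orbit (d := d) (F := F) (δ := δ) (B := B) (P := P.1)
    (hY P.1 P.2).1 (hY P.1 P.2).2
  rw [← hG_def] at horb
  choose X hX hX0 hX1 hXper hXdeg using horb
  have hXdeg' : ∀ i n, (minpoly K (X i n)).natDegree ≤ B + 1 := fun i n =>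
    (hXdeg i n).trans (by omega)
  have hinj : ∀ i j, X i 0 = X j 0 → X i 1 = X j 1 → i = j := by
    intro i j h0 h1
    rw [hX0, hX0, sub_left_inj] at h0
    rw [hX1, hX1, sub_left_inj] at h1
    exact Subtype.ext (Prod.ext h0 h1)
  obtain ⟨w, hw⟩ := exists_w (K := K)
  obtain ⟨E, hTE, hTvE, hE⟩ := exists_places hd hG hδ T
  have hTgood : ∀ v, v ∉ T → Tv v.val d G ≤ (v.val (d : K))⁻¹ := fun v hv => by
    rw [hG_def]
    exact potgood_Tv hd hF v (hT v hv)
  have hSX : ∀ p (σ : AlgebraicClosure K ≃ₐ[K] AlgebraicClosure K) i n,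
      w p (σ (X i n)) * al (pv p) d G ≤ Sb d G δ p := fun p σ i n =>
    orbit_le hd hG hG1 (hX i) (hXper i) p (hw p) σ n
  -- the maximal size
  have hsz : ∀ v : AbsoluteValue K ℝ, siz v d F δ = log (Tv v d G) := fun v => by
    rw [hG_def]
    rfl
  simp only [hsz] at hmax hsep hh hR'
  rw [← hG_def] at hsep
  obtain ⟨τ, hτ⟩ : ∃ τ : ℝ, τ = Sum.elim (fun v : InfinitePlace K =>
    (v.mult : ℝ) * log (Tv v.val d G)) (fun v : T => log (Tv v.1.val d G)) q := ⟨_, rfl⟩
  rw [← hτ] at hmax hh hR'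
  have hτ0 : 0 ≤ τ := by
    rw [hτ]
    rcases q with v | v
    · exact mul_nonneg (Nat.cast_nonneg _) (log_nonneg (one_le_Tv _ _ _))
    · exact log_nonneg (one_le_Tv _ _ _)
  have hh' : Height.logHeight₁ δ ≤ H' + τ / 8 := by linarith
  have hmaxT : ∀ v ∈ T, log (Tv v.val d G) ≤ τ := fun v hv => hmax (Sum.inr ⟨v, hv⟩)
  have htot := total_le hfin T (fun v => v.mult * log (Tv v.val d G))
    (fun v => log (Tv v.val d G)) hτ0 hR (fun v => hmax (Sum.inl v)) hmaxT hR'
  have hloss := loss_sum hd hfin G δ T E hTE hTgood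
  have hRτ : 1 + τ ≤ R * (1 + τ) := le_mul_of_one_le_left (by linarith) hR
  have hSP : ∑ p ∈ (Finset.univ : Finset (InfinitePlace K)).disjSum E,
      pm p * log (Sb d G δ p) ≤ c₂ * (R * (1 + τ)) := by
    refine hloss.trans ?_
    have h4 : c₁ + H' ≤ (c₁ + H') * (R * (1 + τ)) :=
      le_mul_of_one_le_right (by linarith) (by linarith)
    rw [hc₂, ]
    rw [hc₁] at h4 ⊢
    linarith
  rw [← Fintype.card_coe]
  rcases le_or_gt C₂ τ with hbig | hsmall
  · -- the place of large size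
    obtain ⟨q₀, hq₀⟩ : ∃ q₀ : Pl K, q₀ = Sum.map id (fun v : T => v.1) q := ⟨_, rfl⟩
    have hq₁ : pm q₀ * log (Tv (pv q₀) d G) = τ := by
      rw [hq₀, hτ]
      rcases q with v | v
      · rfl
      · change 1 * log (Tv v.1.val d G) = log (Tv v.1.val d G)
        rw [one_mul]
    have hpm2 := pm_le_two q₀
    have hT1 : 1 ≤ Tv (pv q₀) d G := one_le_Tv _ _ _
    have htbig : 8 * H' + 2 * d + 13 ≤ log (Tv (pv q₀) d G) := by
      have h1 : pm q₀ * log (Tv (pv q₀) d G) ≤ 2 * log (Tv (pv q₀) d G) :=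
        mul_le_mul_of_nonneg_right hpm2 (log_nonneg hT1)
      rw [hq₁] at h1
      rw [hC₂] at hbig
      linarith
    have hTgt : 1 < Tv (pv q₀) d G := by
      by_contra hcon
      have h1 : Tv (pv q₀) d G = 1 := le_antisymm (not_lt.1 hcon) hT1
      rw [h1, log_one] at htbig
      linarith
    have hsep' : Sep (pv q₀) d G (H' + log (Tv (pv q₀) d G) / 8) := by
      rcases hsep with ⟨a, b, c, habc⟩ | hsep
      · obtain ⟨c', hc'⟩ := cen_unicritical hd hF δ ⟨a, b, c, habc⟩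
        have hcd : F.coeff d = G.coeff d := by
          rw [hG_def]
          exact (cen_lead hd hF δ).symm
        rw [← hG_def, hcd] at hc'
        refine (sep_unicritical hd hfin hG hc' q₀ hTgt).mono ?_
        have := log_nonneg hT1
        linarith
      · rw [hq₀]
        rcases q with v | v
        · exact Sep.mono hsep (add_le_add_left hHH _)
        · exact Sep.mono hsep (add_le_add_left hHH _)
    have h1 := ha K hfin hG hG1 hδ X hX hinj hXdeg' w hw _ hE hSX q₀ _ τ R rfl hq₁ htbig hsep'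
      hh' hR hSP
    refine h1.trans (mul_le_mul_of_nonneg_right (le_max_left Ca Cb) hRR)
  · -- an auxiliary place above 2
    obtain ⟨v, f, hf1, hf2, hv⟩ := H951R2.MS.exists_place_above hfin Nat.prime_two
    have hv' : Ideal.absNorm v.maximalIdeal.asIdeal ≤ 2 ^ D := by
      rw [hv]
      exact Nat.pow_le_pow_right (by norm_num) hf2
    have hlogS : log (Sb d G δ (Sum.inr v)) ≤ H₃ := by
      rw [log_Sb]
      have h2 : log (max 1 (v.val δ)) ≤ H' + C₂ := by
        have h3 := single_height δ (Sum.inr v : Pl K)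
        change 1 * log (max 1 (v.val δ)) ≤ _ at h3
        linarith
      have h3 : log (Tv v.val d G) ≤ C₂ + D * log d := by
        by_cases hvT : v ∈ T
        · have h4 := hmaxT v hvT
          have : 0 ≤ D * log (d : ℝ) := by positivity
          linarith
        · have h4 := log_Tv_good hd hfin v (hTgood v hvT)
          linarith
      rw [hH₃]
      linarith
    have hh3 : Height.logHeight₁ δ ≤ H₃ := by
      have : 0 ≤ (D : ℝ) * log d := by positivity
      rw [hH₃]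
      linarith
    have hSP3 : ∑ p ∈ (Finset.univ : Finset (InfinitePlace K)).disjSum E,
        pm p * log (Sb d G δ p) ≤ c₂ * (1 + C₂) * R := by
      refine hSP.trans ?_
      have h3 : R * (1 + τ) ≤ R * (1 + C₂) := by gcongr
      calc c₂ * (R * (1 + τ)) ≤ c₂ * (R * (1 + C₂)) := mul_le_mul_of_nonneg_left h3 hc₂0
        _ = _ := by ring
    have h1 := hb K hfin hG hδ X hX hinj hXdeg' w hw _ hE hSX v R hv' hlogS hh3 hR hSP3
    refine h1.trans (mul_le_mul_of_nonneg_right (le_max_right Ca Cb) hRR)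

end Pool.Agent.V5helper58.HN
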