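import Pool.Agent.V5helper58.HN.Norm
import Pool.Agent.H951R2.MSPlaces
import Pool.Agent.H951R3.PH.E7

/-!
# Residues of elements of small degree at a finite place
-/

set_option autoImplicit false

namespace Pool.Agent.V5helper58.HN

open Real NumberField Polynomial
open Pool.Agent.H951R3 Pool.Agent.H951R3.PH Pool.Agent.H951R2.MS

universe u

/-- the product of the polynomials `X^(q^m) - X`, `1 ≤ m ≤ n` -/
noncomputable def frobProd (A : Type*) [CommRing A] (q n : ℕ) : A[X] :=
  ∏ m ∈ Finset.Icc 1 n, (X ^ q ^ m - X)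

theorem dvd_frobProd {k : Type*} [Field k] [Finite k] {n : ℕ} : ∀ (r : ℕ) (g : k[X]), g ≠ 0 →
    g.natDegree ≤ r → r ≤ n → g ∣ frobProd k (Nat.card k) n ^ r := by
  intro r
  induction r with
  | zero =>
    intro g hg hgr _
    have h1 : g.natDegree = 0 := by omega
    rw [pow_zero]
    obtain ⟨c, hc⟩ := natDegree_eq_zero.1 h1
    have hc0 : c ≠ 0 := by
      rintro rfl
      rw [C_0] at hc
      exact hg hc.symm
    rw [← hc]
    exact (isUnit_C.2 (isUnit_iff_ne_zero.2 hc0)).dvd
  | succ r ih =>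
    intro g hg hgr hrn
    by_cases hu : IsUnit g
    · exact hu.dvd
    obtain ⟨h, hh, g', rfl⟩ := WfDvdMonoid.exists_irreducible_factor hu hg
    have hh0 : h ≠ 0 := hh.ne_zero
    have hg'0 : g' ≠ 0 := right_ne_zero_of_mul hg
    rw [natDegree_mul hh0 hg'0] at hgr
    have hhpos : 0 < h.natDegree := hh.natDegree_pos
    have h1 := ih g' hg'0 (by omega) (by omega)
    have h2 : h ∣ frobProd k (Nat.card k) n := by
      refine dvd_trans (hh.natDegree_dvd_iff_dvd_X_pow_card_pow_sub_X.1 dvd_rfl) ?_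
      exact Finset.dvd_prod_of_mem _ (Finset.mem_Icc.2 ⟨hhpos, by omega⟩)
    rw [pow_succ']
    exact mul_dvd_mul h2 h1

section

variable {K : Type u} [Field K] [NumberField K]

theorem ext_int_le (v : FinitePlace K) {w : AbsoluteValue (AlgebraicClosure K) ℝ}
    (hw : PB.Ext v.val w) (a : 𝓞 K) :
    w (algebraMap K (AlgebraicClosure K) (a : K)) ≤ 1 := by
  rw [hw]
  exact fp_int_le_one v a

/-- value of a polynomial with integral coefficients -/
theorem aeval_le_one {A : Type*} [Field A] {w : AbsoluteValue A ℝ} (hna : IsNonarchimedean w)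
    {D : ℝ} (hD : 0 ≤ D) {P : A[X]} (hP : ∀ j, w (P.coeff j) ≤ D) {z : A} (hz : w z ≤ 1) :
    w (P.eval z) ≤ D := by
  rw [eval_eq_sum_range]
  refine E7_sum hna hD _ _ fun j _ => ?_
  rw [map_mul, map_pow]
  calc w (P.coeff j) * w z ^ j ≤ D * 1 :=
        mul_le_mul (hP j) (pow_le_one₀ (w.nonneg _) hz) (pow_nonneg (w.nonneg _) _) hD
    _ = D := mul_one D

/-- A zero modulo the maximal ideal of an integral polynomial which is not zero modulo `v`. -/
theorem frob_of_root (v : FinitePlace K) {w : AbsoluteValue (AlgebraicClosure K) ℝ}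
    (hw : PB.Ext v.val w) {ζ : AlgebraicClosure K} (hζ : w ζ ≤ 1) {n : ℕ} (g : (𝓞 K)[X])
    (hgn : g.natDegree ≤ n) (hg0 : ∃ j, g.coeff j ∉ v.maximalIdeal.asIdeal)
    (hg : w (((g.map (algebraMap (𝓞 K) K)).map (algebraMap K (AlgebraicClosure K))).eval ζ) < 1) :
    ∃ m, 1 ≤ m ∧ m ≤ n ∧ w (ζ ^ Ideal.absNorm v.maximalIdeal.asIdeal ^ m - ζ) < 1 := by
  classical
  set I := v.maximalIdeal.asIdeal with hI
  have hmax : I.IsMaximal := v.maximalIdeal.isMaximal
  let _ : Field (𝓞 K ⧸ I) := Ideal.Quotient.field I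
  have hfin : Finite (𝓞 K ⧸ I) := Ideal.finiteQuotientOfFreeOfNeBot _ v.maximalIdeal.ne_bot
  have hcard : Nat.card (𝓞 K ⧸ I) = Ideal.absNorm I := by
    rw [Ideal.absNorm_apply, Submodule.cardQuot_apply]
  have hna : IsNonarchimedean w := PB.ext_na v w hw
  set q := Ideal.absNorm I with hq
  have hq1 : 1 < q := fp_one_lt v
  set gb := g.map (Ideal.Quotient.mk I) with hgb
  have hgb0 : gb ≠ 0 := by
    obtain ⟨j, hj⟩ := hg0
    intro h
    have h1 : gb.coeff j = 0 := by rw [h, coeff_zero]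
    rw [hgb, coeff_map, Ideal.Quotient.eq_zero_iff_mem] at h1
    exact hj h1
  have hgbn : gb.natDegree ≤ n := natDegree_map_le.trans hgn
  obtain ⟨hb, hhb⟩ := dvd_frobProd n gb hgb0 hgbn le_rfl
  obtain ⟨h₀, hh₀⟩ := Polynomial.map_surjective (Ideal.Quotient.mk I)
    Ideal.Quotient.mk_surjective hb
  set Pf := frobProd (𝓞 K) q n with hPf
  have hPfmap : Pf.map (Ideal.Quotient.mk I) = frobProd (𝓞 K ⧸ I) (Nat.card (𝓞 K ⧸ I)) n := by
    rw [hPf, hcard, frobProd, frobProd, Polynomial.map_prod]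
    refine Finset.prod_congr rfl fun m _ => ?_
    rw [Polynomial.map_sub, Polynomial.map_pow, map_X]
  have hE : ∀ j, (Pf ^ n - g * h₀).coeff j ∈ I := by
    intro j
    rw [← Ideal.Quotient.eq_zero_iff_mem, ← coeff_map, Polynomial.map_sub, Polynomial.map_pow,
      Polynomial.map_mul, hPfmap, hhb, hh₀, ← hgb, sub_self, coeff_zero]
  -- evaluation
  set φ : 𝓞 K →+* AlgebraicClosure K := (algebraMap K (AlgebraicClosure K)).comp
    (algebraMap (𝓞 K) K) with hφ
  have hφ1 : ∀ a, w (φ a) ≤ 1 := fun a => ext_int_le v hw a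
  have hφv : ∀ a ∈ I, w (φ a) ≤ (q : ℝ)⁻¹ := by
    intro a ha
    have h1 : w (φ a) = v ((a : 𝓞 K) : K) := hw _
    rw [h1]
    exact fp_le_inv v ((fp_int_lt_one_iff v a).2 ha)
  have hqinv : (q : ℝ)⁻¹ < 1 := inv_lt_one_of_one_lt₀ (by exact_mod_cast hq1)
  have h1 : w (((Pf ^ n - g * h₀).map φ).eval ζ) < 1 := by
    refine lt_of_le_of_lt (aeval_le_one hna (by positivity) (fun j => ?_) hζ) hqinv
    rw [coeff_map]
    exact hφv _ (hE j)
  have h2 : w ((g.map φ).eval ζ) < 1 := by
    rw [Polynomial.map_map] at hg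
    exact hg
  have h3 : w ((h₀.map φ).eval ζ) ≤ 1 :=
    aeval_le_one hna zero_le_one (fun j => by rw [coeff_map]; exact hφ1 _) hζ
  have h4 : w (((Pf.map φ).eval ζ) ^ n) < 1 := by
    have e1 : ((Pf.map φ).eval ζ) ^ n = ((Pf ^ n - g * h₀).map φ).eval ζ +
        (g.map φ).eval ζ * (h₀.map φ).eval ζ := by
      rw [Polynomial.map_sub, Polynomial.map_pow, Polynomial.map_mul, eval_sub, eval_pow,
        eval_mul]
      ring
    rw [e1]
    refine lt_of_le_of_lt (hna _ _) (max_lt h1 ?_)
    rw [map_mul]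
    calc w ((g.map φ).eval ζ) * w ((h₀.map φ).eval ζ) ≤ w ((g.map φ).eval ζ) * 1 :=
          mul_le_mul_of_nonneg_left h3 (w.nonneg _)
      _ < 1 := by rw [mul_one]; exact h2
  have h5 : w ((Pf.map φ).eval ζ) < 1 := by
    by_contra hcon
    rw [map_pow] at h4
    have := one_le_pow₀ (n := n) (not_lt.1 hcon)
    linarith
  have h6 : (Pf.map φ).eval ζ = ∏ m ∈ Finset.Icc 1 n, (ζ ^ q ^ m - ζ) := by
    rw [hPf, frobProd, Polynomial.map_prod, eval_prod]
    refine Finset.prod_congr rfl fun m _ => ?_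
    rw [Polynomial.map_sub, Polynomial.map_pow, map_X, eval_sub, eval_pow, eval_X]
  rw [h6, map_prod] at h5
  by_contra hcon
  push Not at hcon
  have h7 : 1 ≤ ∏ m ∈ Finset.Icc 1 n, w (ζ ^ q ^ m - ζ) := by
    rw [← Finset.prod_const_one (s := Finset.Icc 1 n)]
    refine Finset.prod_le_prod (fun _ _ => zero_le_one) fun m hm => ?_
    rw [Finset.mem_Icc] at hm
    exact hcon m hm.1 hm.2
  linarith

/-- the primitive integral polynomial of an element of degree at most `n` -/
theorem frob_of_close (v : FinitePlace K) {w : AbsoluteValue (AlgebraicClosure K) ℝ}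
    (hw : PB.Ext v.val w) {ζ u : AlgebraicClosure K} (hζ : w ζ ≤ 1) (hu : w u ≤ 1)
    (huζ : w (u - ζ) < 1) {n : ℕ} (hn : (minpoly K u).natDegree ≤ n) :
    ∃ m, 1 ≤ m ∧ m ≤ n ∧ w (ζ ^ Ideal.absNorm v.maximalIdeal.asIdeal ^ m - ζ) < 1 := by
  classical
  have hint : IsIntegral K u := Algebra.IsIntegral.isIntegral u
  have hna : IsNonarchimedean w := PB.ext_na v w hw
  set f := minpoly K u with hf
  have hf0 : f ≠ 0 := (minpoly.monic hint).ne_zero
  -- the largest coefficient
  obtain ⟨j₀, hj₀, hmax⟩ := Finset.exists_max_image (Finset.range (f.natDegree + 1))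
    (fun j => v (f.coeff j)) ⟨0, Finset.mem_range.2 (by omega)⟩
  have hlead : 0 < v (f.coeff f.natDegree) := by
    have h1 : f.coeff f.natDegree = 1 := minpoly.monic hint
    rw [h1, map_one]
    exact one_pos
  have hc0 : 0 < v (f.coeff j₀) :=
    lt_of_lt_of_le hlead (hmax _ (Finset.mem_range.2 (by omega)))
  have hcne : f.coeff j₀ ≠ 0 := by
    intro h
    rw [h, map_zero] at hc0
    exact lt_irrefl _ hc0
  have hle : ∀ j, v (f.coeff j / f.coeff j₀) ≤ 1 := by
    intro j
    rw [map_div₀, div_le_one hc0]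
    by_cases hj : j ≤ f.natDegree
    · exact hmax j (Finset.mem_range.2 (by omega))
    · rw [coeff_eq_zero_of_natDegree_lt (by omega), map_zero]
      exact hc0.le
  choose a ha using fun j => fp_exists_int v (hle j)
  set g : (𝓞 K)[X] := ∑ j ∈ Finset.range (f.natDegree + 1), C (a j) * X ^ j with hg
  have hgc : ∀ j, j ≤ f.natDegree → g.coeff j = a j := by
    intro j hj
    rw [hg, finsetSum_coeff]
    simp only [coeff_C_mul, coeff_X_pow]
    rw [Finset.sum_eq_single j]
    · simp
    · intro i _ hij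
      rw [if_neg hij.symm, mul_zero]
    · intro h
      exact absurd (Finset.mem_range.2 (by omega)) h
  have hgd : g.natDegree ≤ f.natDegree := by
    rw [hg]
    refine natDegree_sum_le_of_forall_le _ _ fun j hj => ?_
    rw [Finset.mem_range] at hj
    exact (natDegree_C_mul_X_pow_le _ _).trans (by omega)
  refine frob_of_root v hw hζ g (hgd.trans hn) ⟨j₀, ?_⟩ ?_
  · have hj₀' : j₀ ≤ f.natDegree := by
      have := Finset.mem_range.1 hj₀
      omega
    rw [hgc j₀ hj₀']
    intro hmem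
    have h1 := (fp_int_lt_one_iff v (a j₀)).2 hmem
    have h2 := ha j₀
    rw [div_self hcne] at h2
    have h3 : v (1 : K) < 1 := by
      have e : (1 : K) = (1 - (a j₀ : K)) + (a j₀ : K) := by ring
      rw [e]
      exact lt_of_le_of_lt (fp_isNonarch v _ _) (max_lt h2 h1)
    rw [map_one] at h3
    exact lt_irrefl _ h3
  · set alg := algebraMap K (AlgebraicClosure K) with halg
    set q := Ideal.absNorm v.maximalIdeal.asIdeal with hq
    have hq1 : 1 < q := fp_one_lt v
    have hqinv : (q : ℝ)⁻¹ < 1 := inv_lt_one_of_one_lt₀ (by exact_mod_cast hq1)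
    have hev0 : ∑ j ∈ Finset.range (f.natDegree + 1), alg (f.coeff j / f.coeff j₀) * u ^ j = 0 := by
      have h1 := minpoly.aeval K u
      rw [← hf, aeval_eq_sum_range] at h1
      have h2 : ∑ j ∈ Finset.range (f.natDegree + 1), alg (f.coeff j / f.coeff j₀) * u ^ j =
          (alg (f.coeff j₀))⁻¹ * ∑ j ∈ Finset.range (f.natDegree + 1), f.coeff j • u ^ j := by
        rw [Finset.mul_sum]
        refine Finset.sum_congr rfl fun j _ => ?_
        rw [map_div₀, Algebra.smul_def]
        ring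
      rw [h2, h1, mul_zero]
    have hev : ((g.map (algebraMap (𝓞 K) K)).map alg).eval ζ =
        ∑ j ∈ Finset.range (f.natDegree + 1), (alg ((a j : K) - f.coeff j / f.coeff j₀) * ζ ^ j +
          alg (f.coeff j / f.coeff j₀) * (ζ ^ j - u ^ j)) := by
      have h1 : ((g.map (algebraMap (𝓞 K) K)).map alg).eval ζ =
          ∑ j ∈ Finset.range (f.natDegree + 1), alg (a j : K) * ζ ^ j := by
        rw [hg, Polynomial.map_sum, Polynomial.map_sum, eval_finsetSum]
        refine Finset.sum_congr rfl fun j _ => ?_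
        rw [Polynomial.map_mul, Polynomial.map_mul, map_C, map_C, Polynomial.map_pow,
          Polynomial.map_pow, map_X, map_X, eval_mul, eval_C, eval_pow, eval_X]
      rw [h1]
      have h2 : ∑ j ∈ Finset.range (f.natDegree + 1), alg (a j : K) * ζ ^ j =
          ∑ j ∈ Finset.range (f.natDegree + 1), alg (a j : K) * ζ ^ j -
            ∑ j ∈ Finset.range (f.natDegree + 1), alg (f.coeff j / f.coeff j₀) * u ^ j := by
        rw [hev0, sub_zero]
      rw [h2, ← Finset.sum_sub_distrib]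
      refine Finset.sum_congr rfl fun j _ => ?_
      rw [map_sub]
      ring
    rw [hev]
    set r : ℝ := max (q : ℝ)⁻¹ (w (u - ζ)) with hr
    have hr1 : r < 1 := max_lt hqinv huζ
    have hr0 : 0 ≤ r := le_max_of_le_right (w.nonneg _)
    refine lt_of_le_of_lt (E7_sum hna hr0 _ _ fun j _ => ?_) hr1
    refine (hna _ _).trans (max_le ?_ ?_)
    · rw [map_mul, map_pow, hw]
      have h1 : v.val ((a j : K) - f.coeff j / f.coeff j₀) ≤ (q : ℝ)⁻¹ := by
        have h2 : v.val ((a j : K) - f.coeff j / f.coeff j₀) =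
            v (f.coeff j / f.coeff j₀ - (a j : K)) := by
          rw [← neg_sub]
          exact v.val.map_neg _
        rw [h2]
        exact fp_le_inv v (ha j)
      calc v.val ((a j : K) - f.coeff j / f.coeff j₀) * w ζ ^ j ≤ (q : ℝ)⁻¹ * 1 :=
            mul_le_mul h1 (pow_le_one₀ (w.nonneg _) hζ) (pow_nonneg (w.nonneg _) _)
              (by positivity)
        _ ≤ r := by rw [mul_one]; exact le_max_left _ _
    · have h1 : w (ζ ^ j - u ^ j) ≤ w (u - ζ) := by
        have e : ζ ^ j - u ^ j = -((u - ζ) * ∑ i ∈ Finset.range j, u ^ i * ζ ^ (j - 1 - i)) := by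
          rw [mul_comm, Commute.geom_sum₂_mul (Commute.all u ζ) j]
          ring
        rw [e, w.map_neg, map_mul]
        refine mul_le_of_le_one_right (w.nonneg _) ?_
        refine E7_sum hna zero_le_one _ _ fun i _ => ?_
        rw [map_mul, map_pow, map_pow]
        exact mul_le_one₀ (pow_le_one₀ (w.nonneg _) hu) (pow_nonneg (w.nonneg _) _)
          (pow_le_one₀ (w.nonneg _) hζ)
      rw [map_mul, hw]
      have h2 : v.val (f.coeff j / f.coeff j₀) ≤ 1 := hle j
      calc v.val (f.coeff j / f.coeff j₀) * w (ζ ^ j - u ^ j) ≤ 1 * w (u - ζ) :=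
            mul_le_mul h2 h1 (w.nonneg _) zero_le_one
        _ ≤ r := by rw [one_mul]; exact le_max_right _ _

end

end Pool.Agent.V5helper58.HN
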