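import Pool.Agent.V5helper58.HN.Large
import Pool.Agent.V5helper58.HN.AuxPl

/-!
# The case of small sizes
-/

set_option autoImplicit false

namespace Pool.Agent.V5helper58.HN

open Real NumberField Polynomial
open Pool.Agent.H951R3 Pool.Agent.H951R3.PH

universe u

theorem log_Sb {K : Type u} [Field K] [NumberField K] {d : ℕ} (G : K[X]) (δ : K)
    (v : FinitePlace K) : log (Sb d G δ (Sum.inr v)) = log (max 1 (v.val δ)) +
      log (Tv v.val d G) := by
  have h1 : Sb d G δ (Sum.inr v) = max 1 (v.val δ) * Tv v.val d G := by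
    change (1 : ℝ) ^ (d + 1) * max 1 (v.val δ) * Tv v.val d G = _
    rw [one_pow, one_mul]
  rw [h1, log_mul (lt_of_lt_of_le one_pos (le_max_left _ _)).ne'
    (lt_of_lt_of_le one_pos (one_le_Tv _ _ _)).ne']

theorem small_case (d : ℕ) (hd : 2 ≤ d) (D b : ℕ) (hb : 1 ≤ b) (H c : ℝ) (hH : 0 ≤ H)
    (hc : 0 ≤ c) : ∃ C : ℝ, 0 < C ∧
    ∀ (K : Type u) [Field K] [NumberField K], Module.finrank ℚ K ≤ D →
    ∀ {G : K[X]}, G.natDegree = d → ∀ {δ : K}, δ ≠ 0 →
    ∀ {ι : Type u} [Fintype ι] (X : ι → ℤ → AlgebraicClosure K),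
      (∀ i, Orb (G.map (algebraMap K (AlgebraicClosure K)))
        (algebraMap K (AlgebraicClosure K) δ) (X i)) →
      (∀ i j, X i 0 = X j 0 → X i 1 = X j 1 → i = j) →
      (∀ i n, (minpoly K (X i n)).natDegree ≤ b) →
    ∀ (w : Pl K → AbsoluteValue (AlgebraicClosure K) ℝ), (∀ p, PB.Ext (pv p) (w p)) →
    ∀ (P : Finset (Pl K)), (∀ p, p ∉ P → Sb d G δ p = 1) →
      (∀ p (σ : AlgebraicClosure K ≃ₐ[K] AlgebraicClosure K) i n,
        w p (σ (X i n)) * al (pv p) d G ≤ Sb d G δ p) →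
    ∀ (v : FinitePlace K) (R : ℝ), Ideal.absNorm v.maximalIdeal.asIdeal ≤ 2 ^ D →
      log (Sb d G δ (Sum.inr v)) ≤ H →
      Height.logHeight₁ δ ≤ H → 1 ≤ R →
      ∑ p ∈ P, pm p * log (Sb d G δ p) ≤ c * R →
      (Fintype.card ι : ℝ) ≤ C * (R * log (1 + R)) ^ 2 := by
  classical
  have hb1 : (1 : ℝ) ≤ b := by exact_mod_cast hb
  set g : ℝ := b * (H + 1) with hg
  have hg0 : 0 ≤ g := by positivity
  obtain ⟨M, hM⟩ := PB.fin_net.{u} (2 ^ D) (g + b * H)
  have hL : 0 ≤ c + g + b * H := by positivity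
  obtain ⟨C, hC, ha⟩ := step2.{u} hd D (by norm_num : (0 : ℝ) < 1) hL b
    (Fintype.card ((Fin (b + 1) × (Fin b → Fin M)) × (Fin (b + 1) × (Fin b → Fin M))))
  refine ⟨C, hC, ?_⟩
  intro K _ _ hfin G hG δ hδ ι _ X hX hinj hdeg w hw P hE hSX v R hv hlogS hh hR hSP
  have hd2 : (2 : ℝ) ≤ d := by exact_mod_cast hd
  have hd1 : (1 : ℝ) ≤ (d : ℝ) - 1 := by linarith
  have hal : 0 < al v.val d G := al_pos' _ hd hG
  have hSpos : 0 < Sb d G δ (Sum.inr v) := lt_of_lt_of_le one_pos (one_le_Sb _ _ _ _)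
  have hlogS0 : 0 ≤ log (Sb d G δ (Sum.inr v)) := log_nonneg (one_le_Sb _ _ _ _)
  have hnet : ∀ m j : ℕ, ∃ cell : K → Fin M, ∀ x y,
      v x ≤ (Sb d G δ (Sum.inr v) / al v.val d G) ^ (m - j) →
      v y ≤ (Sb d G δ (Sum.inr v) / al v.val d G) ^ (m - j) → cell x = cell y →
        v (x - y) ≤ exp (-(g + b * H)) * (Sb d G δ (Sum.inr v) / al v.val d G) ^ (m - j) :=
    fun m j => hM K v hv _ (by positivity)
  choose cl hcl using hnet
  have hγ : exp (-(g + b * H)) * Sb d G δ (Sum.inr v) ^ b ≤ exp (-g) := by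
    have h1 : Sb d G δ (Sum.inr v) ^ b = exp (b * log (Sb d G δ (Sum.inr v))) := by
      rw [exp_nat_mul, exp_log hSpos]
    rw [h1, ← exp_add]
    apply exp_le_exp.2
    have := mul_le_mul_of_nonneg_left hlogS (by linarith : (0 : ℝ) ≤ b)
    linarith
  let cell : ι → Fin (Fintype.card ((Fin (b + 1) × (Fin b → Fin M)) ×
      (Fin (b + 1) × (Fin b → Fin M)))) := fun i =>
    Fintype.equivFin _ (acell b M cl (X i 0), acell b M cl (X i 1))
  have hgain : ∀ n : ℤ, n = 0 ∨ n = 1 → ∀ p ∈ ({Sum.inr v} : Finset (Pl K)), ∀ j : ι,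
      Gain d G p (w p) b ((fun _ : Pl K => g) p) {i | cell i = cell j} (fun i => X i n) := by
    intro n hn p hp j
    rw [Finset.mem_singleton] at hp
    subst hp
    refine Gain.mono (gain_aux hd hG v (hw (Sum.inr v)) (one_le_Sb d G δ (Sum.inr v)) hcl hγ
      (fun i => X i n) (fun σ i => hSX (Sum.inr v) σ i n) (fun i => hdeg i n) j) ?_
    intro i hi
    have h2 := (Fintype.equivFin _).injective hi
    rw [Prod.mk.injEq] at h2
    rcases hn with rfl | rfl
    · exact h2.1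
    · exact h2.2
  refine ha K hfin hG hδ X hX hinj w hw (Sb d G δ) (one_le_Sb d G δ) P hE hSX
    {Sum.inr v} (fun _ => g) (fun p _ => hg0) cell
    (hgain 0 (Or.inl rfl)) (hgain 1 (Or.inr rfl)) 1 R hR (by linarith) ?_ ?_
  · rw [Finset.sum_singleton]
    change 1 * 1 ≤ 1 * (g / b - |log (v.val δ)| / ((d : ℝ) - 1))
    have h2 : g / b = H + 1 := by
      rw [hg]
      field_simp
    have h3 := abs_log_le hδ (Sum.inr v : Pl K)
    change 1 * |log (v.val δ)| ≤ _ at h3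
    have h4 : |log (v.val δ)| / ((d : ℝ) - 1) ≤ H := by
      refine (div_le_self (abs_nonneg _) hd1).trans ?_
      linarith
    rw [h2]
    linarith
  · rw [Finset.sum_singleton]
    change ∑ p ∈ P, pm p * log (Sb d G δ p) + 1 * (g + b * log (Sb d G δ (Sum.inr v))) ≤ _
    have h2 : (b : ℝ) * log (Sb d G δ (Sum.inr v)) ≤ b * H :=
      mul_le_mul_of_nonneg_left hlogS (by linarith)
    have h4 : g + b * H ≤ (g + b * H) * R :=
      le_mul_of_one_le_right (by positivity) hR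
    linarith

end Pool.Agent.V5helper58.HN
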